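import Pool.Agent.H20.VL.Defs

/-!
# Module AmpS: `amp` is smooth as a function of two variables (about 150 lines)

Let `e(r) = expNegInvGlue (200 r)`. Class `C` of functions `g : ℝ → ℝ`: `g` is `C^∞`, bounded, and `deriv g` has compact support. If `g ∈ C` then `deriv g ∈ C` and `u ↦ u * deriv g u ∈ C`
(smooth functions with compact support). `cut ∈ C` (`Real.smoothTransition` is `0` for `x ≤ 0` and `1` for `x ≥ 1`: the derivative of `cut` vanishes outside `[1/4, 1]`).
For a polynomial `P` and `g ∈ C` let `F_{P,g}(r, u) = e(r) P(r⁻¹) g(u (r⁻¹)^2)`. CLAIM: `F_{P,g}` is differentiable on `ℝ × ℝ` with derivative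
`(F_{A,g} + F_{-2XP, u g'}) dr + F_{X²P, g'} du`, `A = X² (P/200 - P')`. For `r ≠ 0`: chain rule (`expNegInvGlue` has derivative `x⁻¹^2 expNegInvGlue x`, see `expNegInvGlue.hasDerivAt_polynomial_eval_inv_mul`;
both sides are `0` for `r < 0`). For `r = 0`: `|F_{P,g}(r, u)| ≤ B |e(r) P(r⁻¹)|` and `r ↦ P(r⁻¹) e(r)` has derivative `0` at `0` and value `0` (the same Mathlib lemma, composed with `r ↦ 200 r`
and the polynomial `P.comp (C 200 * X)`: `P(r⁻¹) = (P.comp (C 200 * X)) ((200 r)⁻¹)`), so `F_{P,g}` has derivative `0` at `(0, u)`, and all the `F` on the right are `0` there.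
By induction on `n` (for all `P`, `g` at once; `contDiff_succ_iff_fderiv` or `contDiff_succ_iff_hasFDerivAt`) every `F_{P,g}` is `C^n`. `amp r u = F_{1,cut}(r, u)`: `u / r^2 = u (r⁻¹)^2`.
-/

set_option autoImplicit false

open MeasureTheory Set Filter Topology ContDiff
open Pool.Agent.H14.Lyap

namespace Pool.Agent.H20.VL

/-- the class of profiles -/
private def Cl (g : ℝ → ℝ) : Prop :=
  ContDiff ℝ ∞ g ∧ (∃ B : ℝ, ∀ x, |g x| ≤ B) ∧ ∃ R : ℝ, ∀ x, R < |x| → deriv g x = 0

private lemma Cl_of_supp {h : ℝ → ℝ} (hs : ContDiff ℝ ∞ h) {R : ℝ} (hR : ∀ x, R < |x| → h x = 0) :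
    Cl h := by
  refine ⟨hs, ?_, R, fun x hx => ?_⟩
  · obtain ⟨B, hB⟩ := (isCompact_Icc (a := -R) (b := R)).exists_bound_of_continuousOn
      hs.continuous.continuousOn
    refine ⟨|B|, fun x => ?_⟩
    by_cases hx : R < |x|
    · rw [hR x hx, abs_zero]
      exact abs_nonneg B
    · exact (hB x (abs_le.1 (not_lt.1 hx))).trans (le_abs_self B)
  · have h1 : h =ᶠ[𝓝 x] fun _ => (0 : ℝ) := by
      have : {y : ℝ | R < |y|} ∈ 𝓝 x := (isOpen_lt continuous_const continuous_abs).mem_nhds hx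
      filter_upwards [this] with y hy
      exact hR y hy
    rw [h1.deriv_eq, deriv_const]

private lemma Cl.deriv {g : ℝ → ℝ} (hg : Cl g) : Cl (deriv g) := by
  obtain ⟨h1, -, R, hR⟩ := hg
  exact Cl_of_supp (contDiff_infty_iff_deriv.1 h1).2 hR

private lemma Cl.mul_deriv {g : ℝ → ℝ} (hg : Cl g) : Cl (fun v => v * _root_.deriv g v) := by
  obtain ⟨h1, -, R, hR⟩ := hg
  refine Cl_of_supp (R := R) (contDiff_id.mul (contDiff_infty_iff_deriv.1 h1).2) fun x hx => ?_
  rw [hR x hx, mul_zero]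

/-- the amplitude with a polynomial factor -/
private noncomputable def fp (p : Polynomial ℝ) (r : ℝ) : ℝ :=
  p.eval ((200 * r)⁻¹) * expNegInvGlue (200 * r)

private lemma fp_zero (p : Polynomial ℝ) : fp p 0 = 0 := by
  unfold fp
  rw [mul_zero, expNegInvGlue.zero, mul_zero]

private lemma fp_deriv (p : Polynomial ℝ) (r : ℝ) :
    HasDerivAt (fp p) (fp (Polynomial.C 200 * (Polynomial.X ^ 2 * (p - Polynomial.derivative p))) r) r := by
  have h1 := expNegInvGlue.hasDerivAt_polynomial_eval_inv_mul p (200 * r)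
  have h2 : HasDerivAt (fun r : ℝ => 200 * r) 200 r := by
    simpa using (hasDerivAt_id r).const_mul (200 : ℝ)
  have h3 := h1.comp r h2
  refine h3.congr_deriv ?_
  unfold fp
  rw [Polynomial.eval_mul (p := Polynomial.C 200), Polynomial.eval_C]
  ring

/-- the functions of the class -/
private noncomputable def FF (p : Polynomial ℝ) (g : ℝ → ℝ) (q : ℝ × ℝ) : ℝ :=
  fp p q.1 * g (q.2 * (q.1⁻¹) ^ 2)

/-- the derivative -/
private noncomputable def FD (p : Polynomial ℝ) (g : ℝ → ℝ) (q : ℝ × ℝ) : ℝ × ℝ →L[ℝ] ℝ :=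
  (FF (Polynomial.C 200 * (Polynomial.X ^ 2 * (p - Polynomial.derivative p))) g q +
    FF (Polynomial.C (-400) * (Polynomial.X * p)) (fun v => v * deriv g v) q) •
      ContinuousLinearMap.fst ℝ ℝ ℝ +
  FF (Polynomial.C 40000 * (Polynomial.X ^ 2 * p)) (deriv g) q • ContinuousLinearMap.snd ℝ ℝ ℝ

private lemma FF_zero (p : Polynomial ℝ) (g : ℝ → ℝ) {q : ℝ × ℝ} (h : q.1 = 0) : FF p g q = 0 := by
  unfold FF
  rw [h, fp_zero, zero_mul]

private lemma FF_hasFDerivAt (p : Polynomial ℝ) {g : ℝ → ℝ} (hg : Cl g) (q : ℝ × ℝ) :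
    HasFDerivAt (FF p g) (FD p g q) q := by
  obtain ⟨hs, ⟨B, hB⟩, -⟩ := hg
  have hf : HasFDerivAt (fun q : ℝ × ℝ => fp p q.1)
      (fp (Polynomial.C 200 * (Polynomial.X ^ 2 * (p - Polynomial.derivative p))) q.1 •
        ContinuousLinearMap.fst ℝ ℝ ℝ) q :=
    (fp_deriv p q.1).comp_hasFDerivAt q hasFDerivAt_fst
  by_cases h0 : q.1 = 0
  · have hD : FD p g q = 0 := by
      unfold FD
      rw [FF_zero _ _ h0, FF_zero _ _ h0, FF_zero _ _ h0]
      simp
    rw [hD]
    rw [h0, fp_zero, zero_smul] at hf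
    have hl := hf.isLittleO
    refine HasFDerivAt.of_isLittleO ?_
    refine Asymptotics.IsBigO.trans_isLittleO (g := fun q' : ℝ × ℝ => fp p q'.1 - fp p q.1 -
      (0 : ℝ × ℝ →L[ℝ] ℝ) (q' - q)) ?_ hl
    refine Asymptotics.IsBigO.of_bound B (Eventually.of_forall fun q' => ?_)
    rw [FF_zero p g h0, h0, fp_zero]
    simp only [ContinuousLinearMap.zero_apply, sub_zero]
    unfold FF
    rw [norm_mul, mul_comm]
    exact mul_le_mul_of_nonneg_right (hB _) (norm_nonneg _)
  · have hw : HasDerivAt (fun r : ℝ => (r⁻¹) ^ 2) (-2 * (q.1⁻¹) ^ 3) q.1 := by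
      have h1 := (hasDerivAt_inv h0).pow 2
      refine h1.congr_deriv ?_
      rw [← inv_pow]
      push_cast
      ring
    have hw2 : HasFDerivAt (fun q : ℝ × ℝ => (q.1⁻¹) ^ 2)
        ((-2 * (q.1⁻¹) ^ 3) • ContinuousLinearMap.fst ℝ ℝ ℝ) q :=
      hw.comp_hasFDerivAt q hasFDerivAt_fst
    have hv := (hasFDerivAt_snd (𝕜 := ℝ) (E := ℝ) (F := ℝ) (p := q)).mul hw2
    have hgd : HasDerivAt g (deriv g (q.2 * (q.1⁻¹) ^ 2)) (q.2 * (q.1⁻¹) ^ 2) :=
      ((hs.differentiable (by simp)) _).hasDerivAt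
    have hgc := hgd.comp_hasFDerivAt q hv
    have hF := hf.mul hgc
    refine hF.congr_fderiv ?_
    have hj : (q.1)⁻¹ = 200 * (200 * q.1)⁻¹ := by
      rw [mul_inv]
      ring
    have he : (g ∘ (Prod.snd * fun q : ℝ × ℝ => (q.1⁻¹) ^ 2)) q = g (q.2 * (q.1⁻¹) ^ 2) := rfl
    rw [he]
    ext <;>
    · simp only [FD, FF, fp, Function.comp_apply, ContinuousLinearMap.comp_apply,
        ContinuousLinearMap.add_apply, ContinuousLinearMap.smul_apply, ContinuousLinearMap.inl_apply,
        ContinuousLinearMap.inr_apply, ContinuousLinearMap.coe_fst', ContinuousLinearMap.coe_snd',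
        smul_eq_mul, Polynomial.eval_mul, Polynomial.eval_C, Polynomial.eval_X, Polynomial.eval_pow]
      rw [hj]
      ring

private lemma FF_contDiff (n : ℕ) : ∀ (p : Polynomial ℝ) (g : ℝ → ℝ), Cl g → ContDiff ℝ n (FF p g) := by
  induction n with
  | zero =>
    intro p g hg
    have hc : Continuous (FF p g) :=
      continuous_iff_continuousAt.2 fun q => (FF_hasFDerivAt p hg q).continuousAt
    exact_mod_cast contDiff_zero.2 hc
  | succ n ih =>
    intro p g hg
    rw [Nat.cast_succ, contDiff_succ_iff_hasFDerivAt]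
    refine ⟨FD p g, ?_, FF_hasFDerivAt p hg⟩
    have h1 := ih (Polynomial.C 200 * (Polynomial.X ^ 2 * (p - Polynomial.derivative p))) g hg
    have h2 := ih (Polynomial.C (-400) * (Polynomial.X * p)) _ hg.mul_deriv
    have h3 := ih (Polynomial.C 40000 * (Polynomial.X ^ 2 * p)) _ hg.deriv
    exact ((h1.add h2).smul contDiff_const).add (h3.smul contDiff_const)

private lemma cut_Cl : Cl cut := by
  refine ⟨?_, ⟨1, fun x => ?_⟩, 1, fun x hx => ?_⟩
  · unfold cut
    exact contDiff_const.sub (Real.smoothTransition.contDiff.comp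
      (((contDiff_const.mul contDiff_id).sub contDiff_const).div_const 3))
  · unfold cut
    have h1 := Real.smoothTransition.nonneg ((4 * x - 1) / 3)
    have h2 := Real.smoothTransition.le_one ((4 * x - 1) / 3)
    rw [abs_le]
    constructor <;> linarith
  · rcases lt_abs.1 hx with h | h
    · have h1 : cut =ᶠ[𝓝 x] fun _ => (0 : ℝ) := by
        filter_upwards [lt_mem_nhds h] with y hy
        unfold cut
        rw [Real.smoothTransition.one_of_one_le (by linarith), sub_self]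
      rw [h1.deriv_eq, deriv_const]
    · have h1 : cut =ᶠ[𝓝 x] fun _ => (1 : ℝ) := by
        filter_upwards [gt_mem_nhds (by linarith : x < -1)] with y hy
        unfold cut
        rw [Real.smoothTransition.zero_of_nonpos (by linarith), sub_zero]
      rw [h1.deriv_eq, deriv_const]

theorem amp_contDiff : ContDiff ℝ ∞ (fun p : ℝ × ℝ => amp p.1 p.2) := by
  have h : (fun p : ℝ × ℝ => amp p.1 p.2) = FF 1 cut := by
    funext q
    unfold amp FF fp
    rw [Polynomial.eval_one, one_mul, inv_pow, div_eq_mul_inv]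
  rw [h, contDiff_infty]
  exact fun n => FF_contDiff n 1 cut cut_Cl

end Pool.Agent.H20.VL
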