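import Pool.Agent.H20.VL.Defs

/-!
# Module AmpV: values of `amp`, windows (about 180 lines)

`cut` has values in `[0, 1]`, `cut v = 1` for `v ≤ 1/4`, `cut v = 0` for `v ≥ 1` (`Real.smoothTransition`). `0 ≤ expNegInvGlue ≤ 1`, `expNegInvGlue x = exp (-x⁻¹)` for `x > 0`.
Windows (`r = rr L = 1/(32 L)`): if `amp r (sin² πw) ≠ 0` then `|sin πw| < r` (`amp_zero`). Let `p` be an integer with `|w - p| ≤ 1/2`; `|sin πw| = |sin π(w-p)| ≥ 2|w-p|` (`Real.mul_le_sin` or
`Real.mul_abs_le_abs_sin`), so `|w - p| < r/2`. For `0 < k < 32 L` the number `v = w - p + k r` lies in `(r/2, 1 - r/2)`, and `sin πv ≥ 2 min(v, 1-v) ≥ r`: `amp r (sin² π(w + k r)) = 0`.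
For `cos`: `cos πw = sin π(w + 1/2)` and `1/2 = 16 L r`: apply the same argument to `w` and the shift `k + 16 L`. `amp_sin_cos`: window at `0`, `k ≠ 16 L`, `k < 32 L`: `k + 16 L` is not a multiple of `32 L`.
`amp_cos_sin`: `|cos πw| < r`, i.e. `w + 1/2` is close to an integer; `sin² πw` is the value for the shift `16 L`; `amp_cos_cos`: the shift `0 < k < 32 L`.
-/

set_option autoImplicit false

open MeasureTheory Set Filter Topology ContDiff
open Pool.Agent.H14.Lyap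

namespace Pool.Agent.H20.VL

lemma amp_nonneg (r u : ℝ) : 0 ≤ amp r u := by
  unfold amp cut
  refine mul_nonneg (expNegInvGlue.nonneg _) ?_
  linarith [Real.smoothTransition.le_one ((4 * (u / r ^ 2) - 1) / 3)]

private lemma glue_le_one (x : ℝ) : expNegInvGlue x ≤ 1 := by
  rcases le_or_gt x 0 with h | h
  · rw [expNegInvGlue.zero_of_nonpos h]; norm_num
  · unfold expNegInvGlue
    rw [if_neg (not_le.mpr h), Real.exp_le_one_iff]
    have := inv_pos.mpr h
    linarith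

lemma amp_le_one (r u : ℝ) : amp r u ≤ 1 := by
  unfold amp cut
  have h1 := glue_le_one (200 * r)
  have h2 := expNegInvGlue.nonneg (200 * r)
  have h3 := Real.smoothTransition.le_one ((4 * (u / r ^ 2) - 1) / 3)
  have h4 := Real.smoothTransition.nonneg ((4 * (u / r ^ 2) - 1) / 3)
  nlinarith

lemma amp_zero {r u : ℝ} (hr : 0 < r) (hu : r ^ 2 ≤ u) : amp r u = 0 := by
  unfold amp cut
  have h1 : 1 ≤ u / r ^ 2 := by rwa [le_div_iff₀ (by positivity), one_mul]
  rw [Real.smoothTransition.one_of_one_le (by linarith)]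
  ring

lemma amp_val {r u : ℝ} (hr : 0 < r) (hu : u ≤ r ^ 2 / 4) : amp r u = Real.exp (-(1 / (200 * r))) := by
  unfold amp cut
  have h1 : u / r ^ 2 ≤ 1 / 4 := by
    rw [div_le_iff₀ (by positivity)]; linarith
  rw [Real.smoothTransition.zero_of_nonpos (by linarith)]
  unfold expNegInvGlue
  rw [if_neg (not_le.mpr (by positivity)), one_div]
  ring

/-- close to an integer -/
private def Nr (r w : ℝ) : Prop := ∃ p : ℤ, |w - p| < r / 2

private lemma near_sin {r w : ℝ} (hr : 0 < r) (h : amp r (Real.sin (Real.pi * w) ^ 2) ≠ 0) : Nr r w := by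
  have h1 : Real.sin (Real.pi * w) ^ 2 < r ^ 2 := by
    by_contra hc
    exact h (amp_zero hr (not_lt.mp hc))
  have h2 : |Real.sin (Real.pi * w)| < r := abs_lt_of_sq_lt_sq h1 hr.le
  refine ⟨round w, ?_⟩
  have h3 : |w - round w| ≤ 1 / 2 := abs_sub_round w
  have hpi := Real.pi_pos
  have h4 : |Real.pi * (w - round w)| ≤ Real.pi / 2 := by
    rw [abs_mul, abs_of_pos hpi]
    nlinarith
  have h5 := Real.mul_abs_le_abs_sin h4
  have h6 : |Real.sin (Real.pi * (w - round w))| = |Real.sin (Real.pi * w)| := by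
    have e : Real.pi * (w - round w) = Real.pi * w - (round w : ℤ) * Real.pi := by ring
    rw [e, Real.sin_sub_int_mul_pi, abs_mul, abs_zpow, abs_neg, abs_one, one_zpow, one_mul]
  have h7 : 2 / Real.pi * |Real.pi * (w - round w)| = 2 * |w - round w| := by
    rw [abs_mul, abs_of_pos hpi]
    field_simp
  rw [h6, h7] at h5
  linarith

private lemma near_cos {r w : ℝ} (hr : 0 < r) (h : amp r (Real.cos (Real.pi * w) ^ 2) ≠ 0) :
    Nr r (w + 1 / 2) := by
  apply near_sin hr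
  have e : Real.pi * (w + 1 / 2) = Real.pi * w + Real.pi / 2 := by ring
  rw [e, Real.sin_add_pi_div_two]
  exact h

private lemma near_dvd {L : ℕ} (hL : 1 ≤ L) {w : ℝ} {k : ℕ} (h1 : Nr (rr L) w)
    (h2 : Nr (rr L) (w + k * rr L)) : 32 * L ∣ k := by
  obtain ⟨p, hp⟩ := h1
  obtain ⟨q, hq⟩ := h2
  have hLr : (0 : ℝ) < L := by exact_mod_cast hL
  have hr : rr L = 1 / (32 * L) := rfl
  have h3 : |(k : ℝ) * rr L - (q - p : ℤ)| < rr L := by
    push_cast
    have e : (k : ℝ) * rr L - (q - p) = (w + k * rr L - q) - (w - p) := by ring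
    rw [e]
    calc |(w + k * rr L - q) - (w - p)| ≤ |w + k * rr L - q| + |w - p| := abs_sub _ _
      _ < rr L := by linarith
  have h4 : |(k : ℝ) - (q - p : ℤ) * (32 * L)| < 1 := by
    have e : (k : ℝ) - (q - p : ℤ) * (32 * L) = (32 * L) * ((k : ℝ) * rr L - (q - p : ℤ)) := by
      rw [hr]; field_simp
    rw [e, abs_mul, abs_of_pos (by positivity)]
    calc (32 * (L : ℝ)) * |(k : ℝ) * rr L - (q - p : ℤ)| < (32 * L) * rr L :=
          mul_lt_mul_of_pos_left h3 (by positivity)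
      _ = 1 := by rw [hr]; field_simp
  have h5 : |((k : ℤ) - (q - p) * (32 * (L : ℤ)) : ℤ)| < 1 := by
    have h6 : ((|((k : ℤ) - (q - p) * (32 * (L : ℤ)) : ℤ)| : ℤ) : ℝ) < 1 := by
      push_cast
      push_cast at h4
      exact h4
    exact_mod_cast h6
  have h7 : (k : ℤ) = (32 * (L : ℤ)) * (q - p) := by
    have := abs_lt.mp h5
    have e : (q - p) * (32 * (L : ℤ)) = (32 * (L : ℤ)) * (q - p) := by ring
    omega
  have h8 : ((32 * L : ℕ) : ℤ) ∣ (k : ℤ) := ⟨q - p, by push_cast; exact h7⟩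
  exact_mod_cast h8

private lemma rr_pos {L : ℕ} (hL : 1 ≤ L) : 0 < rr L := by
  have hLr : (0 : ℝ) < L := by exact_mod_cast hL
  unfold rr
  positivity

private lemma half_eq {L : ℕ} (hL : 1 ≤ L) : (1 : ℝ) / 2 = (16 * L : ℕ) * rr L := by
  have hLr : (0 : ℝ) < L := by exact_mod_cast hL
  unfold rr
  push_cast
  field_simp
  norm_num

lemma amp_sin_sin {L : ℕ} (hL : 1 ≤ L) {w : ℝ} (hw : amp (rr L) (Real.sin (Real.pi * w) ^ 2) ≠ 0) {k : ℕ}
    (h0 : 0 < k) (hk : k < 32 * L) : amp (rr L) (Real.sin (Real.pi * (w + k * rr L)) ^ 2) = 0 := by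
  by_contra hc
  have h := near_dvd hL (near_sin (rr_pos hL) hw) (near_sin (rr_pos hL) hc)
  exact absurd (Nat.le_of_dvd h0 h) (by omega)

lemma amp_sin_cos {L : ℕ} (hL : 1 ≤ L) {w : ℝ} (hw : amp (rr L) (Real.sin (Real.pi * w) ^ 2) ≠ 0) {k : ℕ}
    (hk : k < 32 * L) (h : k ≠ 16 * L) : amp (rr L) (Real.cos (Real.pi * (w + k * rr L)) ^ 2) = 0 := by
  by_contra hc
  have h1 := near_cos (rr_pos hL) hc
  have e : w + k * rr L + 1 / 2 = w + ((k + 16 * L : ℕ) : ℝ) * rr L := by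
    rw [half_eq hL]; push_cast; ring
  rw [e] at h1
  obtain ⟨j, hj⟩ := near_dvd hL (near_sin (rr_pos hL) hw) h1
  rcases j with _ | _ | j
  · omega
  · omega
  · have : 32 * L * 2 ≤ 32 * L * (j + 1 + 1) := Nat.mul_le_mul_left _ (by omega)
    omega

lemma amp_cos_sin {L : ℕ} (hL : 1 ≤ L) {w : ℝ} (hw : amp (rr L) (Real.cos (Real.pi * w) ^ 2) ≠ 0) :
    amp (rr L) (Real.sin (Real.pi * w) ^ 2) = 0 := by
  by_contra hc
  have h1 := near_cos (rr_pos hL) hw
  rw [half_eq hL] at h1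
  have h := near_dvd hL (near_sin (rr_pos hL) hc) h1
  exact absurd (Nat.le_of_dvd (by omega) h) (by omega)

lemma amp_cos_cos {L : ℕ} (hL : 1 ≤ L) {w : ℝ} (hw : amp (rr L) (Real.cos (Real.pi * w) ^ 2) ≠ 0) {k : ℕ}
    (h0 : 0 < k) (hk : k < 32 * L) : amp (rr L) (Real.cos (Real.pi * (w + k * rr L)) ^ 2) = 0 := by
  by_contra hc
  have h1 := near_cos (rr_pos hL) hw
  have h2 := near_cos (rr_pos hL) hc
  have e : w + k * rr L + 1 / 2 = (w + 1 / 2) + k * rr L := by ring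
  rw [e] at h2
  have h := near_dvd hL h1 h2
  exact absurd (Nat.le_of_dvd h0 h) (by omega)

end Pool.Agent.H20.VL
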