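import Pool.Agent.H20.VL.Defs

/-!
# Module AsyM: the final inequality fails for large `L` (about 120 lines, real numbers only)

`Λ = gg²`, `μ = ν² ≥ 10`, `e^(4/25) ≤ gg^(1/2)` (i.e. `e^(8/25) ≤ 8/5 < gg`; `8/25 = 0.32 < log 1.6 = 0.47`), so `β = e^(-4L/25) ≥ gg^(-L/2)`, `β⁴ ≥ gg^(-2L)`, `β⁻¹ ≤ gg^(L/2)`; avoid square roots: `β^2 ≥ gg^(-L)`, `(β⁻¹)^2 ≤ gg^L`.
Left side `≥ c₀ μ^(-64 L) gg^(-2L) gg^(-4L)/L`. Right side: `(L h)^(2m)`, `h = (Λ^L 4Kβ)⁻¹`, `h² ≤ gg^(-4L) gg^L = gg^(-3L)` (`4K ≥ 1`), so `(L h)^(2m) ≤ L^(2m) gg^(-3Lm)`. `hm : μ^64 gg^8 ≤ gg^m`, so `gg^(-3Lm) ≤ gg^(-Lm) ≤ μ^(-64 L) gg^(-8L)`.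
`μ^(-128 L) = μ^(-64L) μ^(-64L) ≤ μ^(-64L) gg^(-8L)` (`μ ≥ 10 ≥ gg`). So the inequality implies `c₀ ≤ L (C₁ L^(2m) + C₂) gg^(-2L)` for all `L = 2^(j²)`, whose right side tends to `0`
(`tendsto_pow_const_mul_const_pow_of_abs_lt_one`; `2^(j²) ≥ j`): contradiction.
-/

set_option autoImplicit false

open MeasureTheory Set Filter Topology ContDiff
open Pool.Agent.H14.Lyap

namespace Pool.Agent.H20.VL

private lemma asy_exp (L : ℕ) : 1 ≤ Real.exp (-(4 * L / 25)) ^ 2 * gg ^ L := by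
  have h1 : Real.exp (8 / 25) ≤ gg := by
    have h2 := Real.add_one_le_exp (-(8 / 25 : ℝ))
    have h3 : Real.exp (8 / 25) * Real.exp (-(8 / 25 : ℝ)) = 1 := by
      rw [← Real.exp_add]
      simp
    have h4 := Real.exp_pos (8 / 25 : ℝ)
    have h5 := gg_gt
    nlinarith
  have h2 : Real.exp (8 / 25) ^ L ≤ gg ^ L := pow_le_pow_left₀ (Real.exp_pos _).le h1 L
  have h3 : Real.exp (-(4 * L / 25)) ^ 2 * Real.exp (8 / 25) ^ L = 1 := by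
    rw [← Real.exp_nat_mul, ← Real.exp_nat_mul, ← Real.exp_add]
    have : ((2 : ℕ) : ℝ) * (-(4 * L / 25)) + (L : ℝ) * (8 / 25) = 0 := by
      push_cast
      ring
    rw [this, Real.exp_zero]
  calc (1 : ℝ) = Real.exp (-(4 * L / 25)) ^ 2 * Real.exp (8 / 25) ^ L := h3.symm
    _ ≤ _ := mul_le_mul_of_nonneg_left h2 (by positivity)

private lemma asy_abs {G M b c₀ C₁ C₂ l k : ℝ} {m : ℕ} (hG : 1 ≤ G) (hM : 0 < M) (hb : 0 < b)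
    (hbG : 1 ≤ b ^ 2 * G) (hl : 0 < l) (hk : 1 ≤ k) (hc : 0 < c₀) (h8 : G ^ 8 ≤ M) (hm : M * G ^ 8 ≤ G ^ m)
    (h : c₀ * (M⁻¹ * b ^ 4 * (1 / l) * ((G ^ 2)⁻¹) ^ 2) ≤
      C₁ * (l * ((G ^ 2) * (4 * k * b))⁻¹) ^ (2 * m) + C₂ * M⁻¹ ^ 2) :
    c₀ ≤ |C₁| * (l ^ (2 * m + 1) * (G ^ 2)⁻¹) + |C₂| * (l * (G ^ 2)⁻¹) := by
  have hG0 : 0 < G := by linarith
  have hGm : 1 ≤ G ^ m := one_le_pow₀ hG
  have hG2 : 1 ≤ b ^ 4 * G ^ 2 := by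
    have := mul_le_mul hbG hbG zero_le_one (by positivity)
    calc (1 : ℝ) = 1 * 1 := by ring
      _ ≤ b ^ 2 * G * (b ^ 2 * G) := this
      _ = _ := by ring
  have e1 : c₀ * (M⁻¹ * (G ^ 2)⁻¹ * (1 / l) * ((G ^ 2)⁻¹) ^ 2) ≤
      c₀ * (M⁻¹ * b ^ 4 * (1 / l) * ((G ^ 2)⁻¹) ^ 2) := by
    have h2 : (G ^ 2)⁻¹ ≤ b ^ 4 := by
      rw [inv_le_iff_one_le_mul₀ (by positivity)]
      exact hG2
    gcongr
  have e2 : (l * ((G ^ 2) * (4 * k * b))⁻¹) ^ (2 * m) ≤ l ^ (2 * m) * (M * G ^ 8)⁻¹ := by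
    have h2 : (((G ^ 2) * (4 * k * b))⁻¹) ^ 2 ≤ (G ^ 3)⁻¹ := by
      rw [inv_pow]
      refine inv_anti₀ (by positivity) ?_
      have h3 : 1 ≤ (4 * k) ^ 2 := by nlinarith
      calc G ^ 3 = G ^ 3 * 1 * 1 := by ring
        _ ≤ G ^ 3 * (b ^ 2 * G) * (4 * k) ^ 2 := by gcongr
        _ = ((G ^ 2) * (4 * k * b)) ^ 2 := by ring
    rw [mul_pow, pow_mul (((G ^ 2) * (4 * k * b))⁻¹)]
    refine mul_le_mul_of_nonneg_left ?_ (by positivity)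
    calc ((((G ^ 2) * (4 * k * b))⁻¹) ^ 2) ^ m ≤ ((G ^ 3)⁻¹) ^ m := by
          gcongr
      _ = ((G ^ m) ^ 3)⁻¹ := by
          rw [inv_pow, ← pow_mul, ← pow_mul, mul_comm]
      _ ≤ (G ^ m)⁻¹ := by
          refine inv_anti₀ (by positivity) ?_
          calc G ^ m = (G ^ m) ^ 1 := (pow_one _).symm
            _ ≤ (G ^ m) ^ 3 := pow_le_pow_right₀ hGm (by norm_num)
      _ ≤ (M * G ^ 8)⁻¹ := inv_anti₀ (by positivity) hm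
  have e3 : M⁻¹ ^ 2 ≤ (M * G ^ 8)⁻¹ := by
    rw [inv_pow]
    refine inv_anti₀ (by positivity) ?_
    calc M * G ^ 8 ≤ M * M := by gcongr
      _ = M ^ 2 := by ring
  have e4 : C₁ * (l * ((G ^ 2) * (4 * k * b))⁻¹) ^ (2 * m) ≤ |C₁| * (l ^ (2 * m) * (M * G ^ 8)⁻¹) := by
    have h2 : 0 ≤ (l * ((G ^ 2) * (4 * k * b))⁻¹) ^ (2 * m) := by positivity
    calc C₁ * (l * ((G ^ 2) * (4 * k * b))⁻¹) ^ (2 * m) ≤
        |C₁| * (l * ((G ^ 2) * (4 * k * b))⁻¹) ^ (2 * m) := mul_le_mul_of_nonneg_right (le_abs_self _) h2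
      _ ≤ _ := mul_le_mul_of_nonneg_left e2 (abs_nonneg _)
  have e5 : C₂ * M⁻¹ ^ 2 ≤ |C₂| * (M * G ^ 8)⁻¹ := by
    have h2 : 0 ≤ M⁻¹ ^ 2 := by positivity
    calc C₂ * M⁻¹ ^ 2 ≤ |C₂| * M⁻¹ ^ 2 := mul_le_mul_of_nonneg_right (le_abs_self _) h2
      _ ≤ _ := mul_le_mul_of_nonneg_left e3 (abs_nonneg _)
  have e6 : c₀ * (M⁻¹ * (G ^ 2)⁻¹ * (1 / l) * ((G ^ 2)⁻¹) ^ 2) ≤
      |C₁| * (l ^ (2 * m) * (M * G ^ 8)⁻¹) + |C₂| * (M * G ^ 8)⁻¹ := by linarith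
  have e7 := mul_le_mul_of_nonneg_left e6 (by positivity : 0 ≤ l * M * G ^ 6)
  have e8 : l * M * G ^ 6 * (c₀ * (M⁻¹ * (G ^ 2)⁻¹ * (1 / l) * ((G ^ 2)⁻¹) ^ 2)) = c₀ := by
    field_simp
  have e9 : l * M * G ^ 6 * (|C₁| * (l ^ (2 * m) * (M * G ^ 8)⁻¹) + |C₂| * (M * G ^ 8)⁻¹) =
      |C₁| * (l ^ (2 * m + 1) * (G ^ 2)⁻¹) + |C₂| * (l * (G ^ 2)⁻¹) := by
    field_simp
    ring
  rw [e8, e9] at e7
  exact e7

theorem asy {μ c₀ C₁ C₂ : ℝ} {K m : ℕ} (hμ : 10 ≤ μ) (hc : 0 < c₀) (hK : 1 ≤ K) (hm : μ ^ 64 * gg ^ 8 ≤ gg ^ m)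
    (h : ∀ j : ℕ, 1 ≤ j → ∀ L : ℕ, L = 2 ^ (j ^ 2) →
      c₀ * (μ⁻¹ ^ (64 * L) * Real.exp (-(4 * L / 25)) ^ 4 * (1 / L) * (((gg ^ 2) ^ L)⁻¹) ^ 2) ≤
        C₁ * (L * (((gg ^ 2) ^ L * (4 * K * Real.exp (-(4 * L / 25))))⁻¹)) ^ (2 * m) + C₂ * μ⁻¹ ^ (128 * L)) :
    False := by
  have hg1 : 1 < gg := by linarith [gg_gt]
  have hg0 := gg_pos
  have hμ0 : 0 < μ := by linarith
  have key : ∀ j : ℕ, 1 ≤ j → c₀ ≤ |C₁| * (((2 ^ (j ^ 2) : ℕ) : ℝ) ^ (2 * m + 1) * ((gg ^ 2)⁻¹) ^ (2 ^ (j ^ 2))) +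
      |C₂| * (((2 ^ (j ^ 2) : ℕ) : ℝ) ^ 1 * ((gg ^ 2)⁻¹) ^ (2 ^ (j ^ 2))) := by
    intro j hj
    have h1 := h j hj (2 ^ (j ^ 2)) rfl
    have hL : 0 < 2 ^ (j ^ 2) := by positivity
    generalize 2 ^ (j ^ 2) = L at h1 hL ⊢
    have hl : (0 : ℝ) < L := by exact_mod_cast hL
    have hk : (1 : ℝ) ≤ K := by exact_mod_cast hK
    have hG : 1 ≤ gg ^ L := one_le_pow₀ hg1.le
    have h8 : (gg ^ L) ^ 8 ≤ μ ^ (64 * L) := by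
      rw [← pow_mul, mul_comm L 8, pow_mul, pow_mul]
      refine pow_le_pow_left₀ (by positivity) ?_ L
      calc gg ^ 8 ≤ μ ^ 8 := pow_le_pow_left₀ hg0.le (by linarith [gg_lt]) 8
        _ ≤ μ ^ 64 := pow_le_pow_right₀ (by linarith) (by norm_num)
    have hm' : μ ^ (64 * L) * (gg ^ L) ^ 8 ≤ (gg ^ L) ^ m := by
      have h2 := pow_le_pow_left₀ (by positivity) hm L
      rw [mul_pow, ← pow_mul, ← pow_mul, ← pow_mul] at h2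
      rw [← pow_mul, ← pow_mul, mul_comm L 8, mul_comm L m]
      exact h2
    have h2 := asy_abs (G := gg ^ L) (M := μ ^ (64 * L)) (b := Real.exp (-(4 * L / 25))) (c₀ := c₀) (C₁ := C₁)
      (C₂ := C₂) (l := L) (k := K) (m := m) hG (by positivity) (Real.exp_pos _) (asy_exp L) hl hk hc h8 hm' (by
        have e1 : ((gg ^ L) ^ 2) = (gg ^ 2) ^ L := by rw [← pow_mul, ← pow_mul, mul_comm]
        have e2 : (μ ^ (64 * L))⁻¹ = μ⁻¹ ^ (64 * L) := (inv_pow _ _).symm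
        have e3 : (μ⁻¹ ^ (64 * L)) ^ 2 = μ⁻¹ ^ (128 * L) := by
          rw [← pow_mul]
          congr 1
          ring
        rw [e1, e2, e3]
        exact h1)
    have e1 : ((gg ^ L) ^ 2)⁻¹ = ((gg ^ 2)⁻¹) ^ L := by
      rw [inv_pow, ← pow_mul, ← pow_mul, mul_comm]
    rw [e1] at h2
    rw [pow_one]
    exact h2
  have hr : |(gg ^ 2)⁻¹| < 1 := by
    rw [abs_of_nonneg (by positivity)]
    refine inv_lt_one_of_one_lt₀ ?_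
    exact one_lt_pow₀ hg1 (by norm_num)
  have hL : Tendsto (fun j : ℕ => 2 ^ (j ^ 2)) atTop atTop := by
    refine tendsto_atTop_mono (fun j => ?_) tendsto_id
    have h1 : j ^ 2 < 2 ^ (j ^ 2) := Nat.lt_two_pow_self
    show j ≤ 2 ^ (j ^ 2)
    nlinarith
  have t1 := (tendsto_pow_const_mul_const_pow_of_abs_lt_one (2 * m + 1) hr).comp hL
  have t2 := (tendsto_pow_const_mul_const_pow_of_abs_lt_one 1 hr).comp hL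
  have t3 := (t1.const_mul |C₁|).add (t2.const_mul |C₂|)
  rw [mul_zero, mul_zero, add_zero] at t3
  have h4 : c₀ ≤ 0 := by
    refine ge_of_tendsto t3 ?_
    filter_upwards [eventually_ge_atTop 1] with j hj
    exact key j hj
  linarith

end Pool.Agent.H20.VL
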