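import Pool.Agent.H20.VL.Defs

/-!
# Module Box: boxes in the torus (about 60 lines)

`B = Set.pi univ fun i => closedBall (c i : UnitAddCircle) (ρ i)`; `AddCircle.volume_closedBall` (volume `min 1 (2 ρ)`), `volume_pi_pi`. A point of `closedBall (c : UnitAddCircle) ρ` has a representative `x` with `|x - c| ≤ ρ`
(`θ - c` has norm `≤ ρ`; the norm in `AddCircle` is attained: `AddCircle.norm_eq`, `|y - round y|`).
-/

set_option autoImplicit false

open MeasureTheory Set Filter Topology ContDiff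
open Pool.Agent.H14.Lyap

namespace Pool.Agent.H20.VL

theorem exists_rep (θ : UnitAddCircle) (c ρ : ℝ)
    (h : θ ∈ Metric.closedBall (c : UnitAddCircle) ρ) :
    ∃ x : ℝ, (x : UnitAddCircle) = θ ∧ |x - c| ≤ ρ := by
  obtain ⟨y, rfl⟩ := QuotientAddGroup.mk_surjective θ
  rw [Metric.mem_closedBall, dist_eq_norm] at h
  have h2 : ‖((y - c : ℝ) : UnitAddCircle)‖ ≤ ρ := h
  rw [UnitAddCircle.norm_eq] at h2
  refine ⟨y - round (y - c), ?_, ?_⟩
  · have h3 : (((round (y - c) : ℤ) : ℝ) : UnitAddCircle) = 0 := by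
      rw [AddCircle.coe_eq_zero_iff]
      exact ⟨round (y - c), by simp⟩
    rw [AddCircle.coe_sub, h3, sub_zero]
  · have h4 : y - round (y - c) - c = y - c - round (y - c) := by ring
    rw [h4]
    exact h2

theorem exists_box (c ρ : Fin 6 → ℝ) (h0 : ∀ i, 0 ≤ ρ i) (h1 : ∀ i, ρ i ≤ 1 / 2) :
    ∃ B : Set (Torus 6), MeasurableSet B ∧ (volume : Measure (Torus 6)).real B = ∏ i, (2 * ρ i) ∧
      ∀ θ ∈ B, ∃ x : Euc 6, proj x = θ ∧ ∀ i, |x i - c i| ≤ ρ i := by
  refine ⟨Set.pi univ fun i => Metric.closedBall (c i : UnitAddCircle) (ρ i), ?_, ?_, ?_⟩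
  · exact MeasurableSet.univ_pi fun i => Metric.isClosed_closedBall.measurableSet
  · rw [Measure.real, volume_pi_pi]
    rw [ENNReal.toReal_prod]
    refine Finset.prod_congr rfl fun i _ => ?_
    have h2 : min 1 (2 * ρ i) = 2 * ρ i := min_eq_right (by linarith [h1 i])
    rw [AddCircle.volume_closedBall, h2, ENNReal.toReal_ofReal (by linarith [h0 i])]
  · intro θ hθ
    have h2 : ∀ i, ∃ x : ℝ, (x : UnitAddCircle) = θ i ∧ |x - c i| ≤ ρ i := fun i =>
      exists_rep (θ i) (c i) (ρ i) (hθ i (mem_univ i))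
    choose x hx hx2 using h2
    refine ⟨WithLp.toLp 2 x, ?_, fun i => hx2 i⟩
    funext i
    exact hx i

end Pool.Agent.H20.VL
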