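import Pool.Agent.H20.VL.Defs

/-!
# Module CorrM: iterated differences of a correlation function (about 80 lines)

`DD φ h R x = R x - R (φ h x)`. Let `c_R(t) = ∫ R(x) R(φ_t x) dμ`. Invariance gives `∫ R(φ_s x) R(φ_t x) dμ = c_R(t - s)` (substitute `φ_s x`, `φ_t = φ_{t-s} φ_s`), so `c_{DD R}(t) = c_R(t) - c_R(t+h) - c_R(t-h) + c_R(t) = dd h c_R t`.
`DD R` is again measurable and bounded. Induction: `(dd h)^[m] c_R = c_{(DD φ h)^[m] R}`; at `t = 0`, `φ_0 = id`. Everything is integrable (bounded measurable, probability measure).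
-/

set_option autoImplicit false

open MeasureTheory Set Filter Topology ContDiff
open Pool.Agent.H14.Lyap

namespace Pool.Agent.H20.VL

/-- difference along the shift -/
def DD {X : Type*} (φ : ℝ → X → X) (h : ℝ) (R : X → ℝ) (x : X) : ℝ := R x - R (φ h x)

private lemma intg {X : Type*} [MeasurableSpace X] {μ : Measure X} [IsProbabilityMeasure μ]
    {f g : X → ℝ} (hf : Measurable f) (hg : Measurable g) {B : ℝ} (hB : ∀ x, |f x| ≤ B)
    (hB' : ∀ x, |g x| ≤ B) : Integrable (fun x => f x * g x) μ := by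
  refine Integrable.of_bound (hf.mul hg).aestronglyMeasurable (B * B) (ae_of_all _ fun x => ?_)
  rw [Real.norm_eq_abs, abs_mul]
  exact mul_le_mul (hB x) (hB' x) (abs_nonneg _) ((abs_nonneg _).trans (hB x))

private lemma int_shift {X : Type*} [MeasurableSpace X] {μ : Measure X}
    {φ : X → X} (hφ : MeasurePreserving φ μ μ) {f : X → ℝ} (hf : Measurable f) :
    ∫ x, f (φ x) ∂μ = ∫ x, f x ∂μ := by
  have h := integral_map (μ := μ) hφ.measurable.aemeasurable (f := f)
    hf.aestronglyMeasurable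
  rw [hφ.map_eq] at h
  exact h.symm

private lemma DD_meas {X : Type*} [MeasurableSpace X] {φ : ℝ → X → X} {h : ℝ}
    (hφ : Measurable (φ h)) {R : X → ℝ} (hR : Measurable R) : Measurable (DD φ h R) :=
  hR.sub (hR.comp hφ)

private lemma DD_bound {X : Type*} {φ : ℝ → X → X} {h : ℝ} {R : X → ℝ} {B : ℝ}
    (hB : ∀ x, |R x| ≤ B) (x : X) : |DD φ h R x| ≤ B + B := by
  unfold DD
  have h1 := abs_sub (R x) (R (φ h x))
  have h2 := hB x
  have h3 := hB (φ h x)
  linarith

private lemma dd_step {X : Type*} [MeasurableSpace X] {μ : Measure X} [IsProbabilityMeasure μ]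
    {φ : ℝ → X → X} (hφ : ∀ t, MeasurePreserving (φ t) μ μ)
    (hadd : ∀ s t x, φ s (φ t x) = φ (s + t) x)
    {R : X → ℝ} (hR : Measurable R) {B : ℝ} (hB : ∀ x, |R x| ≤ B) (h : ℝ) :
    dd h (fun t => ∫ x, R x * R (φ t x) ∂μ)
      = fun t => ∫ x, DD φ h R x * DD φ h R (φ t x) ∂μ := by
  funext t
  have hRc : ∀ s, Measurable fun x => R (φ s x) := fun s => hR.comp (hφ s).measurable
  have e : ∀ x, DD φ h R x * DD φ h R (φ t x)
      = (R x * R (φ t x) - R x * R (φ (t + h) x)) - (R (φ h x) * R (φ t x)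
        - R (φ h x) * R (φ (t + h) x)) := by
    intro x
    unfold DD
    rw [hadd, add_comm h t]
    ring
  have i1 : Integrable (fun x => R x * R (φ t x)) μ := intg hR (hRc t) hB (fun x => hB _)
  have i2 : Integrable (fun x => R x * R (φ (t + h) x)) μ := intg hR (hRc _) hB (fun x => hB _)
  have i3 : Integrable (fun x => R (φ h x) * R (φ t x)) μ :=
    intg (hRc h) (hRc t) (fun x => hB _) (fun x => hB _)
  have i4 : Integrable (fun x => R (φ h x) * R (φ (t + h) x)) μ :=
    intg (hRc h) (hRc _) (fun x => hB _) (fun x => hB _)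
  have s3 : ∫ x, R (φ h x) * R (φ t x) ∂μ = ∫ x, R x * R (φ (t - h) x) ∂μ := by
    have hm : Measurable fun x => R x * R (φ (t - h) x) := hR.mul (hRc (t - h))
    rw [← int_shift (hφ h) hm]
    refine integral_congr_ae (ae_of_all _ fun x => ?_)
    simp only []
    rw [hadd, sub_add_cancel]
  have s4 : ∫ x, R (φ h x) * R (φ (t + h) x) ∂μ = ∫ x, R x * R (φ t x) ∂μ := by
    have hm : Measurable fun x => R x * R (φ t x) := hR.mul (hRc t)
    rw [← int_shift (hφ h) hm]
    refine integral_congr_ae (ae_of_all _ fun x => ?_)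
    simp only []
    rw [hadd]
  have s0 : ∫ x, DD φ h R x * DD φ h R (φ t x) ∂μ
      = (∫ x, R x * R (φ t x) ∂μ - ∫ x, R x * R (φ (t + h) x) ∂μ)
        - (∫ x, R (φ h x) * R (φ t x) ∂μ - ∫ x, R (φ h x) * R (φ (t + h) x) ∂μ) := by
    have j1 : Integrable (fun x => R x * R (φ t x) - R x * R (φ (t + h) x)) μ := i1.sub i2
    have j2 : Integrable (fun x => R (φ h x) * R (φ t x) - R (φ h x) * R (φ (t + h) x)) μ := i3.sub i4
    rw [← integral_sub i1 i2, ← integral_sub i3 i4, ← integral_sub j1 j2]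
    exact integral_congr_ae (ae_of_all _ e)
  rw [s0, s3, s4]
  unfold dd
  ring

theorem dd_corr {X : Type*} [MeasurableSpace X] {μ : Measure X} [IsProbabilityMeasure μ] {φ : ℝ → X → X}
    (hφ : ∀ t, MeasurePreserving (φ t) μ μ) (hadd : ∀ s t x, φ s (φ t x) = φ (s + t) x) (h0 : ∀ x, φ 0 x = x)
    {R : X → ℝ} (hR : Measurable R) {B : ℝ} (hB : ∀ x, |R x| ≤ B) (h : ℝ) (m : ℕ) :
    (dd h)^[m] (fun t => ∫ x, R x * R (φ t x) ∂μ) 0 = ∫ x, ((DD φ h)^[m] R x) ^ 2 ∂μ := by
  induction m generalizing R B with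
  | zero =>
    simp only [Function.iterate_zero, id_eq]
    refine integral_congr_ae (ae_of_all _ fun x => ?_)
    simp only [h0]
    ring
  | succ m ih =>
    rw [Function.iterate_succ_apply, Function.iterate_succ_apply, dd_step hφ hadd hR hB h]
    exact ih (DD_meas (hφ h).measurable hR) (DD_bound hB)

/-- alternating values -/
theorem DD_alt {X : Type*} {φ : ℝ → X → X} (hadd : ∀ s t x, φ s (φ t x) = φ (s + t) x) (h0 : ∀ x, φ 0 x = x)
    {R : X → ℝ} {h : ℝ} {x : X} {m : ℕ} (hm : 1 ≤ m) {a b : ℝ}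
    (he : ∀ j ≤ m, Even j → R (φ (j * h) x) = a) (ho : ∀ j ≤ m, ¬ Even j → R (φ (j * h) x) = b) :
    (DD φ h)^[m] R x = 2 ^ (m - 1) * (a - b) := by
  induction m, hm using Nat.le_induction generalizing x a b with
  | base =>
    have e0 := he 0 (by norm_num) (by simp)
    have e1 := ho 1 le_rfl (by simp)
    rw [Nat.cast_zero, zero_mul, h0] at e0
    rw [Nat.cast_one, one_mul] at e1
    simp only [Function.iterate_one, DD]
    rw [e0, e1]
    simp
  | succ m hm ih =>
    rw [Function.iterate_succ_apply']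
    have h1 : (DD φ h)^[m] R x = 2 ^ (m - 1) * (a - b) :=
      ih (fun j hj => he j (by omega)) (fun j hj => ho j (by omega))
    have hs : ∀ j : ℕ, R (φ (j * h) (φ h x)) = R (φ (((j + 1 : ℕ) : ℝ) * h) x) := by
      intro j
      rw [hadd]
      congr 2
      push_cast
      ring
    have h2 : (DD φ h)^[m] R (φ h x) = 2 ^ (m - 1) * (b - a) := by
      refine ih (fun j hj hje => ?_) (fun j hj hjo => ?_)
      · rw [hs]
        exact ho (j + 1) (by omega) (by rw [Nat.even_add_one]; exact fun hh => hh hje)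
      · rw [hs]
        exact he (j + 1) (by omega) (by rw [Nat.even_add_one]; exact hjo)
    unfold DD
    change (DD φ h)^[m] R x - (DD φ h)^[m] R (φ h x) = _
    rw [h1, h2]
    obtain ⟨l, rfl⟩ : ∃ l, m = l + 1 := ⟨m - 1, by omega⟩
    simp only [Nat.add_sub_cancel, pow_succ]
    ring

end Pool.Agent.H20.VL
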