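import Pool.Agent.H20.VL.Defs

/-!
# Module DDM: iterated differences (about 100 lines)

`dd h K t = 2 K t - K (t+h) - K (t-h)` (H14/LyapKernel). `smooth_dd_bound'`: as `smooth_dd_bound` in H14/LyapDiff (bump `⟨3/4, 7/8⟩` and `dd_local`, `dd_iter_le` at a general `t`). The others: induction on `l`
(`Function.iterate_succ_apply'` and `dd` of the function of `t`); in `dd_abs` the bound of `E` is only used on `[t - l h, t + l h]`.
-/

set_option autoImplicit false

open MeasureTheory Set Filter Topology ContDiff
open Pool.Agent.H14.Lyap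

namespace Pool.Agent.H20.VL

theorem smooth_dd_bound' {G : ℝ → ℝ} (hG : ContDiffOn ℝ ∞ G (Ioo (-1) 1)) (l : ℕ) :
    ∃ C : ℝ, ∀ h t : ℝ, 0 ≤ h → |t| + l * h ≤ 3 / 4 → |(dd h)^[l] G t| ≤ C * h ^ (2 * l) := by
  let f : ContDiffBump (0 : ℝ) := ⟨3 / 4, 7 / 8, by norm_num, by norm_num⟩
  let Gt : ℝ → ℝ := fun t => f t * G t
  have hGt : ContDiff ℝ ∞ Gt := by
    rw [contDiff_iff_contDiffAt]
    intro x
    by_cases hx : x ∈ Ioo (-1 : ℝ) 1
    · exact f.contDiff.contDiffAt.mul (hG.contDiffAt (isOpen_Ioo.mem_nhds hx))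
    · have hev : Gt =ᶠ[𝓝 x] fun _ => 0 := by
        have hx2 : x ∈ (Metric.closedBall (0:ℝ) (7 / 8))ᶜ := by
          simp only [mem_compl_iff, Metric.mem_closedBall, dist_zero_right, Real.norm_eq_abs, not_le]
          simp only [mem_Ioo, not_and_or, not_lt] at hx
          rcases hx with hx | hx
          · rw [abs_of_neg (by linarith)]; linarith
          · rw [abs_of_pos (by linarith)]; linarith
        filter_upwards [Metric.isClosed_closedBall.isOpen_compl.mem_nhds hx2] with y hy
        have : f y = 0 := by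
          apply f.zero_of_le_dist
          simp only [mem_compl_iff, Metric.mem_closedBall, not_le] at hy
          exact hy.le
        simp [Gt, this]
      exact contDiffAt_const.congr_of_eventuallyEq hev
  have hcs : HasCompactSupport Gt := f.hasCompactSupport.mul_right
  obtain ⟨C, hC⟩ : ∃ C, ∀ t, |iteratedDeriv (2 * l) Gt t| ≤ C := by
    have hcs2 : HasCompactSupport (iteratedDeriv (2 * l) Gt) := by
      have : ∀ m, HasCompactSupport (iteratedDeriv m Gt) := by
        intro m
        induction m with
        | zero => simpa using hcs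
        | succ m ih => rw [iteratedDeriv_succ]; exact ih.deriv
      exact this _
    have hcont : Continuous (iteratedDeriv (2 * l) Gt) :=
      hGt.continuous_iteratedDeriv (2 * l) (WithTop.coe_le_coe.2 le_top)
    obtain ⟨C, hC⟩ := hcs2.exists_bound_of_continuous hcont
    exact ⟨C, fun t => by simpa using hC t⟩
  refine ⟨C, fun h t hh hl => ?_⟩
  have heq : ∀ t, |t| ≤ 3 / 4 → G t = Gt t := by
    intro t ht
    have : f t = 1 := f.one_of_mem_closedBall (by
      rw [mem_closedBall_zero_iff, Real.norm_eq_abs]; exact ht)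
    simp [Gt, this]
  rw [dd_local hh l heq t hl]
  exact dd_iter_le l hGt hC hh t

theorem dd_affine (G : ℝ → ℝ) (a b h : ℝ) (l : ℕ) (t : ℝ) :
    (dd h)^[l] (fun s => G (a * s + b)) t = (dd (a * h))^[l] G (a * t + b) := by
  induction l generalizing t with
  | zero => rfl
  | succ l ih =>
    simp only [Function.iterate_succ_apply', dd]
    rw [ih t, ih (t + h), ih (t - h)]
    have e1 : a * (t + h) + b = a * t + b + a * h := by ring
    have e2 : a * (t - h) + b = a * t + b - a * h := by ring
    rw [e1, e2]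

theorem dd_const_add (c : ℝ) (G : ℝ → ℝ) (h : ℝ) {l : ℕ} (hl : 1 ≤ l) (t : ℝ) :
    (dd h)^[l] (fun s => c + G s) t = (dd h)^[l] G t := by
  obtain ⟨m, rfl⟩ : ∃ m, l = m + 1 := ⟨l - 1, by omega⟩
  have e : dd h (fun s => c + G s) = dd h G := by
    funext s
    simp only [dd]
    ring
  rw [Function.iterate_succ_apply, Function.iterate_succ_apply, e]

theorem dd_smul (c : ℝ) (G : ℝ → ℝ) (h : ℝ) (l : ℕ) (t : ℝ) :
    (dd h)^[l] (fun s => c * G s) t = c * (dd h)^[l] G t := by
  rw [dd_iter_smul h c l G]

/-- two functions which are close on the interval have close differences -/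
theorem dd_close {G K : ℝ → ℝ} {h B t : ℝ} (hh : 0 ≤ h) (l : ℕ) (hB : ∀ s, |s - t| ≤ l * h → |G s - K s| ≤ B) :
    |(dd h)^[l] G t - (dd h)^[l] K t| ≤ 4 ^ l * B := by
  induction l generalizing t with
  | zero =>
    simpa using hB t (by simp)
  | succ l ih =>
    simp only [Function.iterate_succ_apply', dd]
    push_cast at hB
    have key : ∀ u, |u - t| ≤ h → |(dd h)^[l] G u - (dd h)^[l] K u| ≤ 4 ^ l * B := by
      intro u hu
      refine ih (t := u) (fun s hs => hB s ?_)
      have h1 : s - t = (s - u) + (u - t) := by ring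
      rw [h1]
      have h2 := abs_add_le (s - u) (u - t)
      linarith
    have k0 := key t (by simpa using hh)
    have k1 := key (t + h) (by rw [add_sub_cancel_left, abs_of_nonneg hh])
    have k2 := key (t - h) (by
      have : t - h - t = -h := by ring
      rw [this, abs_neg, abs_of_nonneg hh])
    rw [abs_le] at k0 k1 k2 ⊢
    have e4 : (4 : ℝ) ^ (l + 1) * B = 4 * (4 ^ l * B) := by ring
    rw [e4]
    constructor <;> linarith [k0.1, k0.2, k1.1, k1.2, k2.1, k2.2]

end Pool.Agent.H20.VL
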