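import Pool.Agent.H14.LyapLift
import Pool.Agent.H14.LyapDet
import Pool.Agent.H14.LyapDiff

/-!
# Volume preserving example (MP_a275d8_an): definitions

Coordinates of `T^6`: `w = x 0` (clock), `θ = x 1` (time of the flow), `(x, z) = (x 2, x 3)` (plane), `y = (x 4, x 5)` (fibre).

One step: `Pt` (shear `y₂ += dl ε sin(2π y₁)/(2π)` with `ε = amp r (sin² πw) sin(2πK x)`, nonzero only for `w` near `0`), then `QA`:
shift of `(x, z)` by `t amp r (cos² πw) (1, gg)` (nonzero only for `w` near `1/2`), then `θ' = θ - c sin(2πw + πr)`, transition `Tr θ θ'` of `(x, z)`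
along the suspension flow of the two alternating shears `Sx`, `Sz`, then `w' = w + r`, `y' = A y`, `A = (n²+1, n; n, 1)`.

In the windows of the parameter: `r = rr L = 1/(32 L)`, `c = cc L = L sin(π/(32 L))`, period of the clock `N = 32 L`.
-/

set_option autoImplicit false

open MeasureTheory Set Filter Topology ContDiff
open Pool.Agent.H14.Lyap

namespace Pool.Agent.H20.VL

noncomputable section

/-- the golden ratio -/
def gg : ℝ := (1 + Real.sqrt 5) / 2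

lemma gg_sq : gg ^ 2 = gg + 1 := by
  have h : Real.sqrt 5 ^ 2 = 5 := Real.sq_sqrt (by norm_num)
  unfold gg
  nlinarith

lemma gg_gt : 8 / 5 < gg := by
  have h : (11 / 5 : ℝ) < Real.sqrt 5 := by
    rw [Real.lt_sqrt (by norm_num)]; norm_num
  unfold gg
  linarith

lemma gg_lt : gg < 17 / 10 := by
  have h : Real.sqrt 5 < (12 / 5 : ℝ) := by
    rw [Real.sqrt_lt' (by norm_num)]; norm_num
  unfold gg
  linarith

lemma gg_pos : 0 < gg := by linarith [gg_gt]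

/-- cut-off: `1` for `v ≤ 1/4`, `0` for `v ≥ 1` -/
def cut (v : ℝ) : ℝ := 1 - Real.smoothTransition ((4 * v - 1) / 3)

/-- `exp(-1/(200 r)) cut(u/r²)` for `r > 0`, `0` for `r ≤ 0` -/
def amp (r u : ℝ) : ℝ := expNegInvGlue (200 * r) * cut (u / r ^ 2)

/-- staircase: smooth, `W (θ+1) = W θ + 1`, constant outside `(1/10, 4/10) + ℤ` -/
def W (θ : ℝ) : ℝ := ⌊θ⌋ + Real.smoothTransition ((10 * Int.fract θ - 1) / 3)

/-- smooth, `1`-periodic, `Fz z = z` for `|z| ≤ 1/8` -/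
def Fz (z : ℝ) : ℝ := (1 - Real.smoothTransition (4 * Real.sin (2 * Real.pi * z) ^ 2 - 2)) *
  Real.arcsin (Real.sin (2 * Real.pi * z)) / (2 * Real.pi)

/-- shear in the first coordinate -/
def Sx (a : ℝ) : Equiv.Perm (ℝ × ℝ) where
  toFun q := (q.1 + a * Fz q.2, q.2)
  invFun q := (q.1 - a * Fz q.2, q.2)
  left_inv q := by simp
  right_inv q := by simp

/-- shear in the second coordinate -/
def Sz (a : ℝ) : Equiv.Perm (ℝ × ℝ) where
  toFun q := (q.1, q.2 + a * Fz q.1)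
  invFun q := (q.1, q.2 - a * Fz q.1)
  left_inv q := by simp
  right_inv q := by simp

lemma Sx_apply (a : ℝ) (q : ℝ × ℝ) : Sx a q = (q.1 + a * Fz q.2, q.2) := rfl
lemma Sz_apply (a : ℝ) (q : ℝ × ℝ) : Sz a q = (q.1, q.2 + a * Fz q.1) := rfl
lemma Sx_symm_apply (a : ℝ) (q : ℝ × ℝ) : (Sx a).symm q = (q.1 - a * Fz q.2, q.2) := rfl
lemma Sz_symm_apply (a : ℝ) (q : ℝ × ℝ) : (Sz a).symm q = (q.1, q.2 - a * Fz q.1) := rfl

/-- transition from time `θ` to time `θ'`, `|θ' - θ| ≤ 1/10` -/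
def Tr (θ θ' : ℝ) : Equiv.Perm (ℝ × ℝ) := Sz (W (θ' - 1 / 2) - W (θ - 1 / 2)) * Sx (W θ' - W θ)

/-- one full turn -/
def S1 : Equiv.Perm (ℝ × ℝ) := Sz 1 * Sx 1

/-- transition from time `0` to time `θ` -/
def Q (θ : ℝ) : Equiv.Perm (ℝ × ℝ) :=
  Sz (W (θ - 1 / 2) - ⌊θ⌋) * Sx (W θ - ⌊θ⌋) * S1 ^ ⌊θ⌋

/-- the vector with given coordinates -/
def v6 (a b c d e f : ℝ) : Euc 6 := WithLp.toLp 2 ![a, b, c, d, e, f]

@[simp] lemma v6_0 (a b c d e f : ℝ) : v6 a b c d e f 0 = a := rfl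
@[simp] lemma v6_1 (a b c d e f : ℝ) : v6 a b c d e f 1 = b := rfl
@[simp] lemma v6_2 (a b c d e f : ℝ) : v6 a b c d e f 2 = c := rfl
@[simp] lemma v6_3 (a b c d e f : ℝ) : v6 a b c d e f 3 = d := rfl
@[simp] lemma v6_4 (a b c d e f : ℝ) : v6 a b c d e f 4 = e := rfl
@[simp] lemma v6_5 (a b c d e f : ℝ) : v6 a b c d e f 5 = f := rfl

lemma ext6 {x y : Euc 6} (h0 : x 0 = y 0) (h1 : x 1 = y 1) (h2 : x 2 = y 2) (h3 : x 3 = y 3)
    (h4 : x 4 = y 4) (h5 : x 5 = y 5) : x = y := by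
  ext i
  fin_cases i
  · exact h0
  · exact h1
  · exact h2
  · exact h3
  · exact h4
  · exact h5

/-- the length of the shift of `(x, z)` -/
def sh (r t w : ℝ) : ℝ := t * amp r (Real.cos (Real.pi * w) ^ 2)

/-- the new time of the flow -/
def th (r c w θ : ℝ) : ℝ := θ - c * Real.sin (2 * Real.pi * w + Real.pi * r)

/-- the new point of the plane -/
def qn (r c t : ℝ) (x : Euc 6) : ℝ × ℝ :=
  Tr (x 1) (th r c (x 0) (x 1)) (x 2 + sh r t (x 0), x 3 + sh r t (x 0) * gg)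

/-- the second half of the step -/
def QA (n : ℕ) (r c t : ℝ) (x : Euc 6) : Euc 6 :=
  v6 (x 0 + r) (th r c (x 0) (x 1)) (qn r c t x).1 (qn r c t x).2
    (((n : ℝ) ^ 2 + 1) * x 4 + n * x 5) (n * x 4 + x 5)

/-- the old time of the flow -/
def ti (r c : ℝ) (x : Euc 6) : ℝ :=
  x 1 + c * Real.sin (2 * Real.pi * (x 0 - r) + Real.pi * r)

/-- the old point of the plane, before the shift is undone -/
def qi (r c : ℝ) (x : Euc 6) : ℝ × ℝ := (Tr (ti r c x) (x 1)).symm (x 2, x 3)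

/-- the inverse of `QA` -/
def QI (n : ℕ) (r c t : ℝ) (x : Euc 6) : Euc 6 :=
  v6 (x 0 - r) (ti r c x) ((qi r c x).1 - sh r t (x 0 - r)) ((qi r c x).2 - sh r t (x 0 - r) * gg)
    (x 4 - n * x 5) (-(n * x 4) + ((n : ℝ) ^ 2 + 1) * x 5)

/-- the base part of the inverse -/
def Rm (r c t : ℝ) (x : Euc 6) : Euc 6 :=
  v6 (x 0 - r) (ti r c x) ((qi r c x).1 - sh r t (x 0 - r)) ((qi r c x).2 - sh r t (x 0 - r) * gg) 0 0

/-- the profile of the fibre perturbation -/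
def xi (K : ℕ) (r : ℝ) (x : Euc 6) : ℝ :=
  amp r (Real.sin (Real.pi * x 0) ^ 2) * Real.sin (2 * Real.pi * K * x 2) *
    Real.sin (2 * Real.pi * x 4) / (2 * Real.pi)

/-- the fibre perturbation -/
def Pt (K : ℕ) (dl r : ℝ) (x : Euc 6) : Euc 6 :=
  v6 (x 0) (x 1) (x 2) (x 3) (x 4) (x 5 + dl * xi K r x)

/-- its inverse -/
def PI (K : ℕ) (dl r : ℝ) (x : Euc 6) : Euc 6 :=
  v6 (x 0) (x 1) (x 2) (x 3) (x 4) (x 5 - dl * xi K r x)

/-- one step -/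
def Fs (n K : ℕ) (dl r c t : ℝ) (x : Euc 6) : Euc 6 := QA n r c t (Pt K dl r x)

/-- its inverse -/
def Gs (n K : ℕ) (dl r c t : ℝ) (x : Euc 6) : Euc 6 := PI K dl r (QI n r c t x)

/-- rotation number in the window -/
def rr (L : ℕ) : ℝ := 1 / (32 * L)

/-- speed in the window -/
def cc (L : ℕ) : ℝ := L * Real.sin (Real.pi / (32 * L))

/-- one step in the window -/
def FL (n K L : ℕ) (dl t : ℝ) (x : Euc 6) : Euc 6 := Fs n K dl (rr L) (cc L) t x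

/-- the strength of the fibre perturbation at a point -/
def ep0 (K L : ℕ) (dl : ℝ) (x : Euc 6) : ℝ :=
  dl * (amp (rr L) (Real.sin (Real.pi * x 0) ^ 2) * Real.sin (2 * Real.pi * K * x 2))

/-- the strength of the perturbation seen from the middle (`w` near `1/2`) -/
def EE (K L : ℕ) (dl : ℝ) (x : Euc 6) : ℝ :=
  dl * (amp (rr L) (Real.cos (Real.pi * x 0) ^ 2) *
    Real.sin (2 * Real.pi * K * (Q (x 1 - L * Real.cos (2 * Real.pi * x 0)) ((Q (x 1)).symm (x 2, x 3))).1))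

/-- the shift -/
def sht (L : ℕ) (t : ℝ) (x : Euc 6) : Euc 6 :=
  v6 (x 0) (x 1) (x 2 + sh (rr L) t (x 0)) (x 3 + sh (rr L) t (x 0) * gg) (x 4) (x 5)

/-- the functions whose average over `y` is `Ph` -/
def gam (al ε y : ℝ) : ℝ := ε * Real.cos (2 * Real.pi * y) / (1 + al * (ε * Real.cos (2 * Real.pi * y)))

/-- the average -/
def Ph (al ε : ℝ) : ℝ := ∫ y in (0 : ℝ)..1, gam al ε y

/-- the parameters of the family -/
structure Path where
  r : ℝ → ℝ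
  c : ℝ → ℝ
  t : ℝ → ℝ
  hr : ContDiff ℝ ∞ r
  hc : ContDiff ℝ ∞ c
  ht : ContDiff ℝ ∞ t
  win : ∀ j : ℕ, 1 ≤ j → ∀ τ : ℝ, |2 ^ j * τ - 5 / 4| ≤ 1 / 4 →
    r τ = rr (2 ^ (j ^ 2)) ∧ c τ = cc (2 ^ (j ^ 2)) ∧ t τ = (2 ^ j * τ - 5 / 4) / 2 ^ (j ^ 2)

/-- expanded covector -/
def pc (ν : ℝ) : Euc 6 →L[ℝ] ℝ := ν • EuclideanSpace.proj 4 + EuclideanSpace.proj 5
/-- contracted covector -/
def wc (ν : ℝ) : Euc 6 →L[ℝ] ℝ := -EuclideanSpace.proj 4 + ν • EuclideanSpace.proj 5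

lemma pc_apply (ν : ℝ) (x : Euc 6) : pc ν x = ν * x 4 + x 5 := by simp [pc]
lemma wc_apply (ν : ℝ) (x : Euc 6) : wc ν x = -x 4 + ν * x 5 := by simp [wc]

def epv (ν : ℝ) : Euc 6 := v6 0 0 0 0 (ν / (ν ^ 2 + 1)) (1 / (ν ^ 2 + 1))
def ewv (ν : ℝ) : Euc 6 := v6 0 0 0 0 (-1 / (ν ^ 2 + 1)) (ν / (ν ^ 2 + 1))

/-- a lift with the data of the window -/
structure WD (ν : ℝ) (n K L : ℕ) (dl t : ℝ) where
  D : Lift 6
  hν : ν ^ 2 = n * ν + 1
  hν1 : 1 ≤ ν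
  hμ10 : 10 ≤ ν ^ 2
  hdl : 0 < dl
  hdl2 : dl ≤ 1 / 10
  F_eq : D.F = FL n K L dl t
  μ_eq : D.μ = ν ^ 2
  dl_eq : D.dl = dl
  ξp_eq : D.ξp = xi K (rr L)
  ξw_eq : D.ξw = fun x => ν * xi K (rr L) x
  ep_eq : D.ep = epv ν
  ew_eq : D.ew = ewv ν

end

end Pool.Agent.H20.VL
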