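import Pool.Agent.H20.VL.URel

/-!
# Module ErrM: `log m` up to an error `μ^(-4N)` (about 200 lines)

`μ = ν² ≥ 10`, `κ = μ⁻²`, `N = 32 L`, `x_k = (FL ..)^[k] x`, `c_k = c0 x_k`, `u_k = u(proj x_k)`, `|u_k| ≤ 1/2` (`S.hu`), `|c_k| ≤ dl ≤ 1/10` (`ep0_abs`), `al ≤ 1/2`, `0 ≤ ga, be ≤ 1`.
* If `c_k = 0` then `u_k = κ u_{k+1}` and `μ m = 1` (`rel`).
* If `amp(rr L)(sin² π x 0) = 0` then `c_0 = 0`, `gam .. 0 = 0`, `log m = -log μ`: the difference is `0`.
* Otherwise `c_k = 0` for `0 < k < N` (`amp_sin_sin`, `FL_iter_0`), so `u_1 = κ^(N-1) u_N`, `U := κ u_1 = κ^N u_N`, `|U| ≤ κ^N/2`. `w_N = x 0 + 1` so `amp(rr L)(sin² π w_N) ≠ 0` too, and in the same way `|U_N| := |κ u_{N+1}| ≤ κ^N/2`.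
  `rel` at `x_N`: `u_N - be c_N/(1 + al c_N) = U_N/((1 + al c_N - ga c_N U_N)(1 + al c_N))` (cross-multiply: `(1 - al c)(1 + al c) + ga be c² = 1`), absolute value `≤ 2 |U_N| ≤ κ^N`.
  `rel` at `x`: `log m = -log μ - log(1 + al c - ga c U) = -log μ - log(1 + al c) - log(1 - X)`, `X = ga c U/(1 + al c)`, `|X| ≤ κ^N/10`; `|-log(1 - X) - X| ≤ X²` (`|X| ≤ 1/2`; `Real.abs_log_sub_add_sum_range_le` or `one_sub_inv_le_log`, `log_le_sub_one`) `≤ κ^(2N)`.
  `X = (ga c/(1 + al c)) κ^N u_N`, replace `u_N` by `be c_N/(1 + al c_N)`: error `≤ κ^N κ^N`, and `ga be = al²`. Total `≤ 2 κ^(2N) = 2 μ^(-4N)`.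
-/

set_option autoImplicit false

open MeasureTheory Set Filter Topology ContDiff
open Pool.Agent.H14.Lyap

namespace Pool.Agent.H20.VL

variable {ν : ℝ} {n K L : ℕ} {dl t : ℝ}

private theorem log_err {X : ℝ} (h : |X| ≤ 1 / 2) : |-Real.log (1 - X) - X| ≤ 2 * X ^ 2 := by
  have hX := abs_le.1 h
  have h1 : 0 < 1 - X := by linarith
  have h2 : Real.log (1 - X) ≤ -X := by
    have := Real.log_le_sub_one_of_pos h1
    linarith
  have h3 : 1 - (1 - X)⁻¹ ≤ Real.log (1 - X) := Real.one_sub_inv_le_log_of_pos h1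
  have h4 : (1 - X)⁻¹ - 1 - X = X ^ 2 * (1 - X)⁻¹ := by
    field_simp
    ring
  have h5 : (1 - X)⁻¹ ≤ 2 := by
    rw [inv_le_comm₀ h1 (by norm_num)]
    linarith
  have h6 : X ^ 2 * (1 - X)⁻¹ ≤ X ^ 2 * 2 := mul_le_mul_of_nonneg_left h5 (sq_nonneg X)
  rw [abs_le]
  constructor
  · nlinarith [sq_nonneg X]
  · linarith

private theorem core {a g b μ m c cN U UN uN q : ℝ} (ha : 0 ≤ a) (ha2 : a ≤ 1 / 2) (hg : 0 ≤ g) (hg1 : g ≤ 1)
    (hgb : g * b = a ^ 2) (hc : |c| ≤ 1 / 10) (hcN : |cN| ≤ 1 / 10) (hq : 0 ≤ q) (hq1 : q ≤ 1) (hU : U = q * uN)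
    (huN : |uN| ≤ 1 / 2) (hUN : |UN| ≤ q / 2) (h1 : uN * (1 + a * cN - g * (cN * UN)) = UN * (1 - a * cN) + b * cN)
    (h2 : μ * m * (1 + a * c - g * (c * U)) = 1) (hμ : 0 < μ) :
    |Real.log m - (-Real.log μ - Real.log (1 + a * c) + a ^ 2 * q * (c / (1 + a * c) * (cN / (1 + a * cN))))| ≤
      2 * q ^ 2 := by
  have small : ∀ x : ℝ, |x| ≤ 1 / 10 → |a * x| ≤ 1 / 20 := by
    intro x hx
    rw [abs_mul, abs_of_nonneg ha]
    nlinarith [abs_nonneg x]
  have hac := abs_le.1 (small c hc)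
  have hacN := abs_le.1 (small cN hcN)
  have hU' : |U| ≤ q / 2 := by
    rw [hU, abs_mul, abs_of_nonneg hq]
    nlinarith
  have gsm : ∀ x y : ℝ, |x| ≤ 1 / 10 → |y| ≤ q / 2 → |g * (x * y)| ≤ q / 20 := by
    intro x y hx hy
    rw [abs_mul, abs_mul, abs_of_nonneg hg]
    have h3 : |x| * |y| ≤ 1 / 10 * (q / 2) := mul_le_mul hx hy (abs_nonneg _) (by norm_num)
    have h4 : 0 ≤ |x| * |y| := by positivity
    nlinarith
  have hgc := abs_le.1 (gsm c U hc hU')
  have hgN := abs_le.1 (gsm cN UN hcN hUN)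
  have p1 : 0 < 1 + a * c := by linarith
  have p2 : 0 < 1 + a * cN := by linarith
  have p3 : 9 / 10 ≤ 1 + a * cN - g * (cN * UN) := by linarith
  -- `uN` up to `q`
  have e1 : uN - b * cN / (1 + a * cN) = UN / ((1 + a * cN - g * (cN * UN)) * (1 + a * cN)) := by
    have p3' : (1 + a * cN - g * (cN * UN)) ≠ 0 := by linarith
    have h3 : b * cN * (g * (cN * UN)) = a ^ 2 * cN ^ 2 * UN := by rw [← hgb]; ring
    have h4 : b * cN / (1 + a * cN) * (1 + a * cN) = b * cN := div_mul_cancel₀ _ p2.ne'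
    rw [eq_div_iff (mul_ne_zero p3' p2.ne')]
    linear_combination (1 + a * cN) * h1 + h3 - (1 + a * cN - g * (cN * UN)) * h4
  have e2 : |uN - b * cN / (1 + a * cN)| ≤ q := by
    rw [e1, abs_div, abs_of_pos (mul_pos (by linarith) p2), div_le_iff₀ (mul_pos (by linarith) p2)]
    have h3 : (1 / 2 : ℝ) ≤ (1 + a * cN - g * (cN * UN)) * (1 + a * cN) := by nlinarith
    nlinarith
  -- `X`
  set X := g * (c * U) / (1 + a * c) with hX
  have hXabs : |X| ≤ q / 10 := by
    rw [hX, abs_div, abs_of_pos p1, div_le_iff₀ p1]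
    have h3 := gsm c U hc hU'
    nlinarith
  have hX2 : |X| ≤ 1 / 2 := by linarith
  have hX1 : 0 < 1 - X := by
    have := (abs_le.1 hX2).2
    linarith
  have e3 : 1 + a * c - g * (c * U) = (1 + a * c) * (1 - X) := by
    rw [hX]
    field_simp
  have e4 : Real.log m = -Real.log μ - Real.log (1 + a * c) - Real.log (1 - X) := by
    rw [e3] at h2
    have hm : m = μ⁻¹ * ((1 + a * c)⁻¹ * (1 - X)⁻¹) := by
      field_simp
      linarith
    rw [hm, Real.log_mul (by positivity) (by positivity), Real.log_mul (by positivity) (by positivity), Real.log_inv,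
      Real.log_inv, Real.log_inv]
    ring
  have e5 : X - a ^ 2 * q * (c / (1 + a * c) * (cN / (1 + a * cN))) =
      g * (c / (1 + a * c)) * q * (uN - b * cN / (1 + a * cN)) := by
    rw [hX, hU, ← hgb]
    field_simp
  have e6 : |X - a ^ 2 * q * (c / (1 + a * c) * (cN / (1 + a * cN)))| ≤ q ^ 2 := by
    rw [e5, abs_mul, abs_mul, abs_mul, abs_of_nonneg hg, abs_of_nonneg hq]
    have h3 : |c / (1 + a * c)| ≤ 1 := by
      rw [abs_div, abs_of_pos p1, div_le_one p1]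
      linarith
    have h4 : g * |c / (1 + a * c)| ≤ 1 := by
      have := abs_nonneg (c / (1 + a * c))
      nlinarith
    have h5 : g * |c / (1 + a * c)| * q ≤ q := by nlinarith
    calc g * |c / (1 + a * c)| * q * |uN - b * cN / (1 + a * cN)| ≤ q * q :=
          mul_le_mul h5 e2 (abs_nonneg _) hq
      _ = q ^ 2 := by ring
  have e7 := log_err hX2
  have e8 : X ^ 2 ≤ q ^ 2 / 100 := by
    have h3 : X ^ 2 = |X| ^ 2 := (sq_abs X).symm
    rw [h3]
    have := abs_nonneg X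
    nlinarith
  have e9 : Real.log m - (-Real.log μ - Real.log (1 + a * c) + a ^ 2 * q * (c / (1 + a * c) * (cN / (1 + a * cN)))) =
      (-Real.log (1 - X) - X) + (X - a ^ 2 * q * (c / (1 + a * c) * (cN / (1 + a * cN)))) := by
    rw [e4]
    ring
  rw [e9]
  refine (abs_add_le _ _).trans ?_
  have h3 : (0 : ℝ) ≤ q ^ 2 := sq_nonneg q
  linarith

theorem log_m (E : WD ν n K L dl t) (hL : 1 ≤ L) (x : Euc 6) :
    |Real.log (E.D.S.m (proj x)) - (-Real.log (ν ^ 2) - Real.log (1 + al ν * c0 K L dl x) +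
      al ν ^ 2 * ((ν ^ 2)⁻¹) ^ (64 * L) * (gam (al ν) (ep0 K L dl x) (x 4) *
        gam (al ν) (ep0 K L dl ((FL n K L dl t)^[32 * L] x)) (((FL n K L dl t)^[32 * L] x) 4)))| ≤
      10 * ((ν ^ 2)⁻¹) ^ (128 * L) := by
  have hν0 : 0 ≤ ν := by linarith [E.hν1]
  have hμ : 0 < ν ^ 2 := by linarith [E.hμ10]
  have hdl := E.hdl.le
  set a := al ν with ha
  set b := be ν with hb
  set g := ga ν with hg
  have ha0 : 0 ≤ a := al_nonneg hν0
  have ha2 : a ≤ 1 / 2 := al_le ν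
  have hg0 : 0 ≤ g := by
    rw [hg]
    unfold ga
    positivity
  have hg1 : g ≤ 1 := by
    rw [hg]
    unfold ga
    rw [div_le_one (by positivity)]
    linarith
  have hgb : g * b = a ^ 2 := by
    rw [hg, hb, ha]
    unfold ga be al
    rw [div_mul_div_comm, div_pow]
    ring
  set κ : ℝ := ((ν ^ 2)⁻¹) ^ 2 with hκ
  have hinv0 : 0 ≤ (ν ^ 2)⁻¹ := by positivity
  have hinv1 : (ν ^ 2)⁻¹ ≤ 1 := inv_le_one_of_one_le₀ (by linarith [E.hμ10])
  have hκ0 : 0 ≤ κ := by positivity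
  have hκ1 : κ ≤ 1 := pow_le_one₀ hinv0 hinv1
  have hq64 : ((ν ^ 2)⁻¹) ^ (64 * L) = κ ^ (32 * L) := by
    rw [hκ, ← pow_mul]
    congr 1
    ring
  have hq128 : ((ν ^ 2)⁻¹) ^ (128 * L) = (κ ^ (32 * L)) ^ 2 := by
    rw [hκ, ← pow_mul, ← pow_mul]
    congr 1
    ring
  set q : ℝ := κ ^ (32 * L) with hq
  have hq0 : 0 ≤ q := by positivity
  have hq1 : q ≤ 1 := pow_le_one₀ hκ0 hκ1
  have hcabs : ∀ y : Euc 6, |c0 K L dl y| ≤ 1 / 10 := by
    intro y
    unfold c0
    rw [abs_mul]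
    have h1 := ep0_abs (K := K) (L := L) hdl y
    have h2 := Real.abs_cos_le_one (2 * Real.pi * y 4)
    have h3 := abs_nonneg (ep0 K L dl y)
    have h4 := E.hdl2
    nlinarith [abs_nonneg (Real.cos (2 * Real.pi * y 4))]
  have hrel := fun y : Euc 6 => rel E y
  have hub : ∀ y : Euc 6, |E.D.S.u (proj y)| ≤ 1 / 2 := fun y => E.D.S.hu _
  rw [hq64, hq128]
  by_cases h0 : amp (rr L) (Real.sin (Real.pi * x 0) ^ 2) = 0
  · -- no perturbation
    have he : ep0 K L dl x = 0 := by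
      unfold ep0
      rw [h0, zero_mul, mul_zero]
    have hc : c0 K L dl x = 0 := by
      unfold c0
      rw [he, zero_mul]
    have h2 := (hrel x).2
    rw [hc, zero_mul, mul_zero, mul_zero, add_zero, sub_zero, mul_one] at h2
    have hm : E.D.S.m (proj x) = (ν ^ 2)⁻¹ := eq_inv_of_mul_eq_one_right h2
    have hgam : gam a (ep0 K L dl x) (x 4) = 0 := by
      unfold gam
      rw [he, zero_mul, zero_div]
    rw [hm, hc, hgam, zero_mul, mul_zero, mul_zero, add_zero, add_zero, Real.log_one, sub_zero, Real.log_inv,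
      sub_self, abs_zero]
    positivity
  · set F := FL n K L dl t with hF
    -- free steps
    have free : ∀ y : Euc 6, amp (rr L) (Real.sin (Real.pi * y 0) ^ 2) ≠ 0 → ∀ j : ℕ, j + 1 ≤ 32 * L →
        κ * E.D.S.u (proj (F y)) = κ ^ (j + 1) * E.D.S.u (proj (F^[j + 1] y)) := by
      intro y hy j
      induction j with
      | zero =>
        intro _
        rw [zero_add, pow_one]
        rfl
      | succ j ih =>
        intro hj
        rw [ih (by omega)]
        have hz : amp (rr L) (Real.sin (Real.pi * (F^[j + 1] y) 0) ^ 2) = 0 := by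
          rw [hF, FL_iter_0]
          exact amp_sin_sin hL hy (by omega) (by omega)
        have hc : c0 K L dl (F^[j + 1] y) = 0 := by
          unfold c0 ep0
          rw [hz, zero_mul, mul_zero, zero_mul]
        have h1 := (hrel (F^[j + 1] y)).1
        rw [hc, zero_mul, mul_zero, mul_zero, mul_zero, add_zero, sub_zero, mul_one, mul_one, add_zero] at h1
        have h2 : F^[j + 1 + 1] y = F (F^[j + 1] y) := Function.iterate_succ_apply' F (j + 1) y
        rw [h1, h2, pow_succ]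
        ring
    have hL32 : ((32 * L : ℕ) : ℝ) * rr L = 1 := by
      have hL0 : (0 : ℝ) < L := by exact_mod_cast hL
      unfold rr
      push_cast
      field_simp
    set xN := F^[32 * L] x with hxN
    have hxN0 : xN 0 = x 0 + 1 := by
      rw [hxN, hF, FL_iter_0, hL32]
    have hN0 : amp (rr L) (Real.sin (Real.pi * xN 0) ^ 2) ≠ 0 := by
      rw [hxN0, mul_add, mul_one, Real.sin_add_pi, neg_sq]
      exact h0
    have hexp : 32 * L - 1 + 1 = 32 * L := by omega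
    have hU : κ * E.D.S.u (proj (F x)) = q * E.D.S.u (proj xN) := by
      have := free x h0 (32 * L - 1) (by omega)
      rw [hexp] at this
      exact this
    have hUN : |κ * E.D.S.u (proj (F xN))| ≤ q / 2 := by
      have h1 := free xN hN0 (32 * L - 1) (by omega)
      rw [hexp] at h1
      rw [h1, abs_mul, abs_of_nonneg (by positivity)]
      have := hub (F^[32 * L] xN)
      have h2 : κ ^ (32 * L) = q := rfl
      rw [h2]
      nlinarith
    have hr1 := (hrel xN).1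
    have hr2 := (hrel x).2
    have key := core ha0 ha2 hg0 hg1 hgb (hcabs x) (hcabs xN) hq0 hq1 hU (hub xN) hUN hr1 hr2 hμ
    have g1 : gam a (ep0 K L dl x) (x 4) = c0 K L dl x / (1 + a * c0 K L dl x) := rfl
    have g2 : gam a (ep0 K L dl xN) (xN 4) = c0 K L dl xN / (1 + a * c0 K L dl xN) := rfl
    rw [g1, g2]
    refine key.trans ?_
    have : 0 ≤ q ^ 2 := sq_nonneg q
    linarith

end Pool.Agent.H20.VL
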