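import Pool.Agent.H20.VL.Defs

/-!
# Module FzM: the profile `Fz` of the shears (about 60 lines)

`Fz z = χ(sin 2πz) arcsin(sin 2πz)/(2π)`, `χ(s) = 1 - Real.smoothTransition (4 s² - 2)`: `χ = 1` for `s² ≤ 1/2`, `χ = 0` for `s² ≥ 3/4`.
Smooth: `s ↦ χ(s) arcsin s` is smooth: at `s ≠ ±1` by `Real.contDiffAt_arcsin`, at `s = ±1` it is locally `0`. `Fz_lin`: `|z| ≤ 1/8`: `|2πz| ≤ π/4`, `sin² ≤ 1/2`, `Real.arcsin_sin`.
-/

set_option autoImplicit false

open MeasureTheory Set Filter Topology ContDiff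
open Pool.Agent.H14.Lyap

namespace Pool.Agent.H20.VL

private lemma GG_contDiff : ContDiff ℝ ∞ (fun s : ℝ => (1 - Real.smoothTransition (4 * s ^ 2 - 2)) * Real.arcsin s) := by
  rw [contDiff_iff_contDiffAt]
  intro s
  by_cases hs : 3 / 4 < s ^ 2
  · have h1 : ∀ᶠ u in 𝓝 s, (3 / 4 : ℝ) < u ^ 2 :=
      (continuous_pow 2).continuousAt.eventually (lt_mem_nhds hs)
    refine (contDiffAt_const (c := (0 : ℝ))).congr_of_eventuallyEq ?_
    filter_upwards [h1] with u hu
    have h2 : (1 : ℝ) ≤ 4 * u ^ 2 - 2 := by linarith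
    rw [Real.smoothTransition.one_of_one_le h2, sub_self, zero_mul]
  · have h1 : s ≠ -1 := by
      rintro rfl
      norm_num at hs
    have h2 : s ≠ 1 := by
      rintro rfl
      norm_num at hs
    have h3 : ContDiff ℝ ∞ (fun s : ℝ => 1 - Real.smoothTransition (4 * s ^ 2 - 2)) := by
      refine contDiff_const.sub (Real.smoothTransition.contDiff.comp ?_)
      fun_prop
    exact h3.contDiffAt.mul (Real.contDiffAt_arcsin h1 h2)

lemma Fz_contDiff : ContDiff ℝ ∞ Fz := by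
  have h1 : ContDiff ℝ ∞ (fun z : ℝ => Real.sin (2 * Real.pi * z)) :=
    Real.contDiff_sin.comp (contDiff_const.mul contDiff_id)
  exact (GG_contDiff.comp h1).div_const (2 * Real.pi)

lemma Fz_add_int (z : ℝ) (k : ℤ) : Fz (z + k) = Fz z := by
  have h1 : Real.sin (2 * Real.pi * (z + k)) = Real.sin (2 * Real.pi * z) := by
    have h2 : 2 * Real.pi * (z + k) = 2 * Real.pi * z + k * (2 * Real.pi) := by ring
    rw [h2, Real.sin_add_int_mul_two_pi]
  unfold Fz
  rw [h1]

lemma Fz_lin {z : ℝ} (hz : |z| ≤ 1 / 8) : Fz z = z := by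
  have hp := Real.pi_pos
  have h0 := abs_le.1 hz
  have h1 : |2 * Real.pi * z| ≤ Real.pi / 4 := by
    rw [abs_mul, abs_of_pos (by positivity : (0 : ℝ) < 2 * Real.pi)]
    nlinarith
  have h2 : Real.arcsin (Real.sin (2 * Real.pi * z)) = 2 * Real.pi * z := by
    have h3 := abs_le.1 h1
    exact Real.arcsin_sin (by linarith [h3.1]) (by linarith [h3.2])
  have h3 : Real.sin (2 * Real.pi * z) ^ 2 ≤ 1 / 2 := by
    have h4 : 0 ≤ Real.cos (2 * (2 * Real.pi * z)) := by
      refine Real.cos_nonneg_of_mem_Icc ?_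
      have h5 := abs_le.1 h1
      constructor
      · linarith [h5.1]
      · linarith [h5.2]
    rw [Real.cos_two_mul, Real.cos_sq'] at h4
    linarith
  have h4 : 4 * Real.sin (2 * Real.pi * z) ^ 2 - 2 ≤ 0 := by linarith
  unfold Fz
  rw [h2, Real.smoothTransition.zero_of_nonpos h4, sub_zero, one_mul]
  field_simp

end Pool.Agent.H20.VL
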