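import Pool.Agent.H20.VL.Defs

/-!
# Module Stair: the staircase `W` (about 80 lines)

`W θ = ⌊θ⌋ + s((10 fract θ - 1)/3)`, `s = Real.smoothTransition` (`s = 0` on `(-∞, 0]`, `s = 1` on `[1, ∞)`, smooth).
For `k - 3/5 < θ < k + 1`: `W θ = k + s((10 (θ - k) - 1)/3)`: if `θ ≥ k` then `⌊θ⌋ = k`; if `θ < k` then `⌊θ⌋ = k - 1`, `fract θ = θ - k + 1 > 2/5`, so `W θ = k - 1 + 1 = k`, and `s` of a negative number is `0`.
So `W` is smooth near every point (`contDiff_iff_contDiffAt`, `k = ⌊θ₀⌋`, `ContDiffAt.congr_of_eventuallyEq`). `W_zone`: `k - 3/5 ≤ θ ≤ k + 1/10` (boundary points by direct computation).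
-/

set_option autoImplicit false

open MeasureTheory Set Filter Topology ContDiff
open Pool.Agent.H14.Lyap

namespace Pool.Agent.H20.VL

private lemma stair_eq {θ : ℝ} (k : ℤ) (h1 : (k : ℝ) - 3 / 5 ≤ θ) (h2 : θ < k + 1) :
    W θ = k + Real.smoothTransition ((10 * (θ - k) - 1) / 3) := by
  unfold W
  rcases le_or_gt (k : ℝ) θ with h | h
  · have hf : ⌊θ⌋ = k := Int.floor_eq_iff.2 ⟨h, h2⟩
    rw [Int.fract, hf]
  · have hf : ⌊θ⌋ = k - 1 := Int.floor_eq_iff.2 ⟨by push_cast; linarith, by push_cast; linarith⟩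
    rw [Int.fract, hf, Real.smoothTransition.one_of_one_le (by push_cast; linarith),
      Real.smoothTransition.zero_of_nonpos (by linarith)]
    push_cast
    ring

lemma W_contDiff : ContDiff ℝ ∞ W := by
  rw [contDiff_iff_contDiffAt]
  intro θ₀
  have h1 : ContDiffAt ℝ ∞ (fun θ : ℝ => (⌊θ₀⌋ : ℝ) +
      Real.smoothTransition ((10 * (θ - ⌊θ₀⌋) - 1) / 3)) θ₀ := by
    have h2 : ContDiff ℝ ∞ (fun θ : ℝ => (10 * (θ - ⌊θ₀⌋) - 1) / 3) := by fun_prop
    exact (contDiff_const.add (Real.smoothTransition.contDiff.comp h2)).contDiffAt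
  refine h1.congr_of_eventuallyEq ?_
  have h3 : Ioo ((⌊θ₀⌋ : ℝ) - 3 / 5) (⌊θ₀⌋ + 1) ∈ 𝓝 θ₀ :=
    Ioo_mem_nhds (by linarith [Int.floor_le θ₀]) (Int.lt_floor_add_one θ₀)
  filter_upwards [h3] with θ hθ
  exact stair_eq _ hθ.1.le hθ.2

lemma W_add_int (θ : ℝ) (k : ℤ) : W (θ + k) = W θ + k := by
  unfold W
  rw [Int.floor_add_intCast, Int.fract_add_intCast]
  push_cast
  ring

lemma W_zone {θ : ℝ} (k : ℤ) (h1 : (k : ℝ) - 3 / 5 ≤ θ) (h2 : θ ≤ k + 1 / 10) : W θ = k := by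
  rw [stair_eq k h1 (by linarith), Real.smoothTransition.zero_of_nonpos (by linarith), add_zero]

end Pool.Agent.H20.VL
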