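import Pool.Agent.H20.VL.MeasA
import Pool.Agent.H20.VL.AmpS
import Pool.Agent.H20.VL.Stair
import Pool.Agent.H20.VL.FzM

/-!
# Module MeasB: one step preserves volume (about 200 lines)

`Fs n K dl r c t` is the composition of coordinate shears `x ↦ x + g(x) e_i` (`shear_preserves`, `torusMap_comp`), in this order:
`e₅ : dl xi`; `e₅ : n x₄`; `e₄ : n x₅` (together `y ↦ (n y₁ + n... )`: `(y₁, y₂) ↦ (y₁, n y₁ + y₂) ↦ ((n²+1) y₁ + n y₂, n y₁ + y₂)`); `e₂ : sh r t x₀`; `e₃ : sh r t x₀ gg`; `e₂ : (W θ' - W x₁) Fz x₃`; `e₃ : (W(θ' - 1/2) - W(x₁ - 1/2)) Fz x₂`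
with `θ' = th r c x₀ x₁`; `e₁ : - c sin(2π x₀ + π r)`; `e₀ : r`. Every `g` is continuous, independent of `x_i`, and changes by an integer under `zvec k` (`W_add_int`, `Fz_add_int`, periodicity of `sin`, `sin²`, `cos²`;
`W (θ' + k) - W (θ + k) = W θ' - W θ`; for `n x₄`: `l = n k₄`). Continuity: `amp_contDiff`, `W_contDiff`, `Fz_contDiff`.
-/

set_option autoImplicit false

open MeasureTheory Set Filter Topology ContDiff
open Pool.Agent.H14.Lyap

namespace Pool.Agent.H20.VL

/-- compatible with the lattice and volume preserving -/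
private def SP {d : ℕ} (F : Euc d → Euc d) : Prop :=
  (∀ x k, ∃ l, F (x + zvec k) = F x + zvec l) ∧
    MeasurePreserving (torusMap F) (volume : Measure (Torus d)) volume

private lemma SP.comp {d : ℕ} {F G : Euc d → Euc d} (hF : SP F) (hG : SP G) : SP (fun x => F (G x)) := by
  refine ⟨fun x k => ?_, ?_⟩
  · obtain ⟨l, hl⟩ := hG.1 x k
    obtain ⟨l', hl'⟩ := hF.1 (G x) l
    refine ⟨l', ?_⟩
    show F (G (x + zvec k)) = F (G x) + zvec l'
    rw [hl, hl']
  · rw [torusMap_comp hF.1]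
    exact hF.2.comp hG.2

private lemma SP.congr {d : ℕ} {F G : Euc d → Euc d} (hF : SP F) (h : ∀ x, G x = F x) : SP G := by
  have e : G = F := funext h
  rw [e]
  exact hF

private lemma sp_shear {d : ℕ} (i : Fin d) {g : Euc d → ℝ} (hg : Continuous g)
    (hi : ∀ (x : Euc d) (s : ℝ), g (x + s • EuclideanSpace.single i (1 : ℝ)) = g x)
    (hk : ∀ (x : Euc d) (k : Fin d → ℤ), ∃ l : ℤ, g (x + zvec k) = g x + l) :
    SP (fun x => x + g x • EuclideanSpace.single i (1 : ℝ)) := by
  refine ⟨fun x k => ?_, shear_preserves i hg hi hk⟩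
  obtain ⟨l, hl⟩ := hk x k
  refine ⟨k + Pi.single i l, ?_⟩
  ext j
  simp only [hl, PiLp.add_apply, PiLp.smul_apply, zvec_apply, smul_eq_mul, Pi.add_apply]
  by_cases hj : j = i
  · subst hj
    simp
    ring
  · simp [hj]

private lemma sgl {i j : Fin 6} (h : j ≠ i) (x : Euc 6) (s : ℝ) :
    (x + s • EuclideanSpace.single i (1 : ℝ)) j = x j := by
  simp [h]

private lemma sgl' (i : Fin 6) (x : Euc 6) (s : ℝ) :
    (x + s • EuclideanSpace.single i (1 : ℝ)) i = x i + s := by
  simp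

private lemma zv (x : Euc 6) (k : Fin 6 → ℤ) (j : Fin 6) : (x + zvec k) j = x j + k j := rfl

private lemma sin_int (a b : ℝ) (k : ℤ) (h : b = a + k * (2 * Real.pi)) : Real.sin b = Real.sin a := by
  rw [h, Real.sin_add_int_mul_two_pi]

private lemma sin_sq_int (w : ℝ) (k : ℤ) : Real.sin (Real.pi * (w + k)) ^ 2 = Real.sin (Real.pi * w) ^ 2 := by
  have h1 := Real.cos_sq (Real.pi * (w + k))
  have h2 := Real.cos_sq (Real.pi * w)
  have h3 : Real.cos (2 * (Real.pi * (w + k))) = Real.cos (2 * (Real.pi * w)) := by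
    rw [show 2 * (Real.pi * (w + k)) = 2 * (Real.pi * w) + k * (2 * Real.pi) by ring, Real.cos_add_int_mul_two_pi]
  rw [Real.sin_sq, Real.sin_sq, h1, h2, h3]

private lemma cos_sq_int (w : ℝ) (k : ℤ) : Real.cos (Real.pi * (w + k)) ^ 2 = Real.cos (Real.pi * w) ^ 2 := by
  rw [Real.cos_sq', Real.cos_sq', sin_sq_int]

private lemma amp_cont (r : ℝ) {u : Euc 6 → ℝ} (hu : Continuous u) : Continuous (fun x => amp r (u x)) :=
  amp_contDiff.continuous.comp (continuous_const.prodMk hu)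

private lemma co (j : Fin 6) : Continuous (fun x : Euc 6 => x j) := by fun_prop

private lemma sh_cont (r t : ℝ) : Continuous (fun x : Euc 6 => sh r t (x 0)) := by
  unfold sh
  exact continuous_const.mul (amp_cont r (by have := co 0; fun_prop))

private lemma sh_int (r t w : ℝ) (k : ℤ) : sh r t (w + k) = sh r t w := by
  unfold sh
  rw [cos_sq_int]

private lemma th_cont (r c : ℝ) : Continuous (fun x : Euc 6 => th r c (x 0) (x 1)) := by
  unfold th
  have := co 0
  have := co 1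
  fun_prop

private lemma th_int (r c w θ : ℝ) (k l : ℤ) : th r c (w + k) (θ + l) = th r c w θ + l := by
  unfold th
  rw [sin_int (2 * Real.pi * w + Real.pi * r) (2 * Real.pi * (w + k) + Real.pi * r) k (by ring)]
  ring

private lemma sp1 (K : ℕ) (dl r : ℝ) : SP (Pt K dl r) := by
  refine (sp_shear 5 (g := fun x => dl * xi K r x) ?_ ?_ ?_).congr ?_
  · have h0 := co 0
    have h2 := co 2
    have h4 := co 4
    have h5 : Continuous (fun x : Euc 6 => amp r (Real.sin (Real.pi * x 0) ^ 2)) := amp_cont r (by fun_prop)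
    unfold xi
    fun_prop
  · intro x s
    simp only [xi, sgl (show (0 : Fin 6) ≠ 5 by decide), sgl (show (2 : Fin 6) ≠ 5 by decide),
      sgl (show (4 : Fin 6) ≠ 5 by decide)]
  · intro x k
    refine ⟨0, ?_⟩
    simp only [xi, zv, sin_sq_int]
    rw [sin_int (2 * Real.pi * K * x 2) (2 * Real.pi * K * (x 2 + k 2)) (K * k 2) (by push_cast; ring),
      sin_int (2 * Real.pi * x 4) (2 * Real.pi * (x 4 + k 4)) (k 4) (by ring)]
    push_cast
    ring
  · intro x
    apply ext6
    · rw [sgl (by decide)]; rfl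
    · rw [sgl (by decide)]; rfl
    · rw [sgl (by decide)]; rfl
    · rw [sgl (by decide)]; rfl
    · rw [sgl (by decide)]; rfl
    · rw [sgl']; rfl

private lemma sp2 (n : ℕ) : SP (fun x : Euc 6 => v6 (x 0) (x 1) (x 2) (x 3) (x 4) (x 5 + n * x 4)) := by
  refine (sp_shear 5 (g := fun x => n * x 4) ?_ ?_ ?_).congr ?_
  · have := co 4
    fun_prop
  · intro x s
    simp only [sgl (show (4 : Fin 6) ≠ 5 by decide)]
  · intro x k
    refine ⟨n * k 4, ?_⟩
    simp only [zv]
    push_cast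
    ring
  · intro x
    apply ext6
    · rw [sgl (by decide)]; rfl
    · rw [sgl (by decide)]; rfl
    · rw [sgl (by decide)]; rfl
    · rw [sgl (by decide)]; rfl
    · rw [sgl (by decide)]; rfl
    · rw [sgl']; rfl

private lemma sp3 (n : ℕ) : SP (fun x : Euc 6 => v6 (x 0) (x 1) (x 2) (x 3) (x 4 + n * x 5) (x 5)) := by
  refine (sp_shear 4 (g := fun x => n * x 5) ?_ ?_ ?_).congr ?_
  · have := co 5
    fun_prop
  · intro x s
    simp only [sgl (show (5 : Fin 6) ≠ 4 by decide)]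
  · intro x k
    refine ⟨n * k 5, ?_⟩
    simp only [zv]
    push_cast
    ring
  · intro x
    apply ext6
    · rw [sgl (by decide)]; rfl
    · rw [sgl (by decide)]; rfl
    · rw [sgl (by decide)]; rfl
    · rw [sgl (by decide)]; rfl
    · rw [sgl']; rfl
    · rw [sgl (by decide)]; rfl

private lemma sp4 (r t : ℝ) : SP (fun x : Euc 6 => v6 (x 0) (x 1) (x 2 + sh r t (x 0)) (x 3) (x 4) (x 5)) := by
  refine (sp_shear 2 (g := fun x => sh r t (x 0)) (sh_cont r t) ?_ ?_).congr ?_
  · intro x s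
    simp only [sgl (show (0 : Fin 6) ≠ 2 by decide)]
  · intro x k
    refine ⟨0, ?_⟩
    simp only [zv, sh_int]
    simp
  · intro x
    apply ext6
    · rw [sgl (by decide)]; rfl
    · rw [sgl (by decide)]; rfl
    · rw [sgl']; rfl
    · rw [sgl (by decide)]; rfl
    · rw [sgl (by decide)]; rfl
    · rw [sgl (by decide)]; rfl

private lemma sp5 (r t : ℝ) : SP (fun x : Euc 6 => v6 (x 0) (x 1) (x 2) (x 3 + sh r t (x 0) * gg) (x 4) (x 5)) := by
  refine (sp_shear 3 (g := fun x => sh r t (x 0) * gg) ((sh_cont r t).mul continuous_const) ?_ ?_).congr ?_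
  · intro x s
    simp only [sgl (show (0 : Fin 6) ≠ 3 by decide)]
  · intro x k
    refine ⟨0, ?_⟩
    simp only [zv, sh_int]
    simp
  · intro x
    apply ext6
    · rw [sgl (by decide)]; rfl
    · rw [sgl (by decide)]; rfl
    · rw [sgl (by decide)]; rfl
    · rw [sgl']; rfl
    · rw [sgl (by decide)]; rfl
    · rw [sgl (by decide)]; rfl

private lemma sp6 (r c : ℝ) : SP (fun x : Euc 6 =>
    v6 (x 0) (x 1) (x 2 + (W (th r c (x 0) (x 1)) - W (x 1)) * Fz (x 3)) (x 3) (x 4) (x 5)) := by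
  refine (sp_shear 2 (g := fun x => (W (th r c (x 0) (x 1)) - W (x 1)) * Fz (x 3)) ?_ ?_ ?_).congr ?_
  · exact ((W_contDiff.continuous.comp (th_cont r c)).sub (W_contDiff.continuous.comp (co 1))).mul
      (Fz_contDiff.continuous.comp (co 3))
  · intro x s
    simp only [sgl (show (0 : Fin 6) ≠ 2 by decide), sgl (show (1 : Fin 6) ≠ 2 by decide), sgl (show (3 : Fin 6) ≠ 2 by decide)]
  · intro x k
    refine ⟨0, ?_⟩
    simp only [zv, th_int, W_add_int, Fz_add_int]
    push_cast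
    ring
  · intro x
    apply ext6
    · rw [sgl (by decide)]; rfl
    · rw [sgl (by decide)]; rfl
    · rw [sgl']; rfl
    · rw [sgl (by decide)]; rfl
    · rw [sgl (by decide)]; rfl
    · rw [sgl (by decide)]; rfl

private lemma sp7 (r c : ℝ) : SP (fun x : Euc 6 =>
    v6 (x 0) (x 1) (x 2) (x 3 + (W (th r c (x 0) (x 1) - 1 / 2) - W (x 1 - 1 / 2)) * Fz (x 2)) (x 4) (x 5)) := by
  refine (sp_shear 3 (g := fun x => (W (th r c (x 0) (x 1) - 1 / 2) - W (x 1 - 1 / 2)) * Fz (x 2)) ?_ ?_ ?_).congr ?_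
  · exact ((W_contDiff.continuous.comp ((th_cont r c).sub continuous_const)).sub
      (W_contDiff.continuous.comp ((co 1).sub continuous_const))).mul (Fz_contDiff.continuous.comp (co 2))
  · intro x s
    simp only [sgl (show (0 : Fin 6) ≠ 3 by decide), sgl (show (1 : Fin 6) ≠ 3 by decide), sgl (show (2 : Fin 6) ≠ 3 by decide)]
  · intro x k
    refine ⟨0, ?_⟩
    simp only [zv, th_int, Fz_add_int]
    rw [show th r c (x 0) (x 1) + (k 1 : ℝ) - 1 / 2 = th r c (x 0) (x 1) - 1 / 2 + (k 1 : ℝ) by ring,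
      show x 1 + (k 1 : ℝ) - 1 / 2 = x 1 - 1 / 2 + (k 1 : ℝ) by ring, W_add_int, W_add_int]
    push_cast
    ring
  · intro x
    apply ext6
    · rw [sgl (by decide)]; rfl
    · rw [sgl (by decide)]; rfl
    · rw [sgl (by decide)]; rfl
    · rw [sgl']; rfl
    · rw [sgl (by decide)]; rfl
    · rw [sgl (by decide)]; rfl

private lemma sp8 (r c : ℝ) : SP (fun x : Euc 6 => v6 (x 0) (th r c (x 0) (x 1)) (x 2) (x 3) (x 4) (x 5)) := by
  refine (sp_shear 1 (g := fun x => -(c * Real.sin (2 * Real.pi * x 0 + Real.pi * r))) ?_ ?_ ?_).congr ?_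
  · have := co 0
    fun_prop
  · intro x s
    simp only [sgl (show (0 : Fin 6) ≠ 1 by decide)]
  · intro x k
    refine ⟨0, ?_⟩
    simp only [zv]
    rw [sin_int (2 * Real.pi * x 0 + Real.pi * r) (2 * Real.pi * (x 0 + k 0) + Real.pi * r) (k 0) (by ring)]
    simp
  · intro x
    apply ext6
    · rw [sgl (by decide)]; rfl
    · rw [sgl']; exact sub_eq_add_neg _ _
    · rw [sgl (by decide)]; rfl
    · rw [sgl (by decide)]; rfl
    · rw [sgl (by decide)]; rfl
    · rw [sgl (by decide)]; rfl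

private lemma sp9 (r : ℝ) : SP (fun x : Euc 6 => v6 (x 0 + r) (x 1) (x 2) (x 3) (x 4) (x 5)) := by
  refine (sp_shear 0 (g := fun _ => r) continuous_const (fun _ _ => rfl) (fun x k => ⟨0, by simp⟩)).congr ?_
  intro x
  apply ext6
  · rw [sgl']; rfl
  · rw [sgl (by decide)]; rfl
  · rw [sgl (by decide)]; rfl
  · rw [sgl (by decide)]; rfl
  · rw [sgl (by decide)]; rfl
  · rw [sgl (by decide)]; rfl

private lemma sp_Fs (n K : ℕ) (dl r c t : ℝ) : SP (Fs n K dl r c t) := by
  refine ((sp9 r).comp ((sp8 r c).comp ((sp7 r c).comp ((sp6 r c).comp ((sp5 r t).comp ((sp4 r t).comp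
    ((sp3 n).comp ((sp2 n).comp (sp1 K dl r))))))))).congr ?_
  intro x
  apply ext6
  · simp only [Fs, QA, Pt, v6_0]
  · simp only [Fs, QA, Pt, v6_0, v6_1]
  · simp only [Fs, QA, qn, Tr, Pt, v6_0, v6_1, v6_2, v6_3, Equiv.Perm.mul_apply, Sx_apply, Sz_apply]
  · simp only [Fs, QA, qn, Tr, Pt, v6_0, v6_1, v6_2, v6_3, Equiv.Perm.mul_apply, Sx_apply, Sz_apply]
  · simp only [Fs, QA, Pt, v6_4, v6_5]
    ring
  · simp only [Fs, QA, Pt, v6_4, v6_5]
    ring

theorem Fs_preserves (n K : ℕ) (dl r c t : ℝ) :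
    MeasurePreserving (torusMap (Fs n K dl r c t)) (volume : Measure (Torus 6)) volume := (sp_Fs n K dl r c t).2

private lemma sp_sht (L : ℕ) (t : ℝ) : SP (sht L t) :=
  ((sp5 (rr L) t).comp (sp4 (rr L) t)).congr fun _ => rfl

/-- the shift preserves volume -/
theorem sht_preserves (L : ℕ) (t : ℝ) :
    MeasurePreserving (torusMap (sht L t)) (volume : Measure (Torus 6)) volume := (sp_sht L t).2

/-- the shift is a one-parameter group -/
theorem sht_add (L : ℕ) (s t : ℝ) (θ : Torus 6) :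
    torusMap (sht L s) (torusMap (sht L t) θ) = torusMap (sht L (s + t)) θ := by
  have h1 := congrFun (torusMap_comp (G := sht L t) (sp_sht L s).1) θ
  rw [← h1]
  have h2 : (fun x => sht L s (sht L t x)) = sht L (s + t) := by
    funext x
    apply ext6
    · rfl
    · rfl
    · simp only [sht, v6_0, v6_2, sh]
      ring
    · simp only [sht, v6_0, v6_3, sh]
      ring
    · rfl
    · rfl
  rw [h2]

end Pool.Agent.H20.VL
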