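import Pool.Agent.H20.VL.Defs

/-!
# Module Tel: the orbits of the clock and of the time of the flow (about 100 lines)

`(FL x) 0 = x 0 + rr L`, `(FL x) 1 = x 1 - cc L sin(2π x 0 + π rr L)`. Telescoping: `2 sin(π r) sin(2πw + πr) = cos(2πw) - cos(2π(w + r))`, and `cc L = L sin(π/(32 L)) = L sin(π rr L)` (`π rr L = π/(32 L)`), so
`cc L sin(2πw + πr) = (L/2) (cos 2πw - cos 2π(w + r))` (no division is needed). Induction (`Function.iterate_succ_apply'`). `step_small`: `|cc L| ≤ L π/(32 L) = π/32 ≤ 1/10`. `L ≥ 1` only here and for `rr`.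
-/

set_option autoImplicit false

open MeasureTheory Set Filter Topology ContDiff
open Pool.Agent.H14.Lyap

namespace Pool.Agent.H20.VL

variable {n K L : ℕ} {dl t : ℝ}

private lemma FL_0 (x : Euc 6) : (FL n K L dl t x) 0 = x 0 + rr L := rfl

private lemma FL_1 (x : Euc 6) : (FL n K L dl t x) 1 =
    x 1 - cc L * Real.sin (2 * Real.pi * x 0 + Real.pi * rr L) := rfl

private lemma pi_rr (L : ℕ) : Real.pi / (32 * L) = Real.pi * rr L := by
  unfold rr
  rw [mul_one_div]

private lemma tele (L : ℕ) (w : ℝ) : cc L * Real.sin (2 * Real.pi * w + Real.pi * rr L) =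
    L / 2 * (Real.cos (2 * Real.pi * w) - Real.cos (2 * Real.pi * (w + rr L))) := by
  rw [Real.cos_sub_cos]
  have e1 : (2 * Real.pi * w + 2 * Real.pi * (w + rr L)) / 2 = 2 * Real.pi * w + Real.pi * rr L := by
    ring
  have e2 : (2 * Real.pi * w - 2 * Real.pi * (w + rr L)) / 2 = -(Real.pi * rr L) := by ring
  rw [e1, e2, Real.sin_neg]
  unfold cc
  rw [pi_rr]
  ring

theorem FL_iter_0 (x : Euc 6) (k : ℕ) : ((FL n K L dl t)^[k] x) 0 = x 0 + k * rr L := by
  induction k with
  | zero => simp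
  | succ k ih =>
    rw [Function.iterate_succ_apply', FL_0, ih]
    push_cast
    ring

theorem FL_iter_1 (hL : 1 ≤ L) (x : Euc 6) (k : ℕ) : ((FL n K L dl t)^[k] x) 1 =
    x 1 - L / 2 * (Real.cos (2 * Real.pi * x 0) - Real.cos (2 * Real.pi * (x 0 + k * rr L))) := by
  induction k with
  | zero => simp
  | succ k ih =>
    rw [Function.iterate_succ_apply', FL_1, ih, FL_iter_0, tele]
    have e : x 0 + ((k + 1 : ℕ) : ℝ) * rr L = x 0 + k * rr L + rr L := by
      push_cast
      ring
    rw [e]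
    ring

lemma step_small (hL : 1 ≤ L) (w θ : ℝ) : |th (rr L) (cc L) w θ - θ| ≤ 1 / 10 := by
  have hL' : (1 : ℝ) ≤ L := by exact_mod_cast hL
  have hLp : (0 : ℝ) < L := by linarith
  have h1 : th (rr L) (cc L) w θ - θ = -(cc L * Real.sin (2 * Real.pi * w + Real.pi * rr L)) := by
    unfold th
    ring
  have h2 : |cc L| ≤ Real.pi / 32 := by
    unfold cc
    rw [abs_mul, abs_of_pos hLp]
    have hx : 0 ≤ Real.pi / (32 * L) := by positivity
    have h3 : |Real.sin (Real.pi / (32 * L))| ≤ Real.pi / (32 * L) := by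
      rw [abs_le]
      refine ⟨?_, Real.sin_le hx⟩
      have hxp : Real.pi / (32 * L) ≤ Real.pi := by
        apply div_le_self Real.pi_pos.le
        linarith
      have := Real.sin_nonneg_of_nonneg_of_le_pi hx hxp
      linarith
    calc (L : ℝ) * |Real.sin (Real.pi / (32 * L))| ≤ L * (Real.pi / (32 * L)) :=
          mul_le_mul_of_nonneg_left h3 hLp.le
      _ = Real.pi / 32 := by field_simp
  rw [h1, abs_neg, abs_mul]
  have h4 : |Real.sin (2 * Real.pi * w + Real.pi * rr L)| ≤ 1 := Real.abs_sin_le_one _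
  have h5 := Real.pi_lt_d2
  have h6 : |cc L| * |Real.sin (2 * Real.pi * w + Real.pi * rr L)| ≤ |cc L| * 1 :=
    mul_le_mul_of_nonneg_left h4 (abs_nonneg _)
  norm_num at h5
  linarith

/-- half of the period -/
lemma half_rr (hL : 1 ≤ L) : ((16 * L : ℕ) : ℝ) * rr L = 1 / 2 := by
  have hL' : (1 : ℝ) ≤ L := by exact_mod_cast hL
  have hLp : (L : ℝ) ≠ 0 := by linarith
  unfold rr
  push_cast
  field_simp
  norm_num

end Pool.Agent.H20.VL
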