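import Pool.Agent.H20.VL.AmpV
import Pool.Agent.H20.VL.Tel

/-!
# Module YOrb: the orbit of the fibre
-/

set_option autoImplicit false

open MeasureTheory Set Filter Topology ContDiff
open Pool.Agent.H14.Lyap

namespace Pool.Agent.H20.VL

variable {n K L : ℕ} {dl t : ℝ}

private lemma FL_0 (x : Euc 6) : (FL n K L dl t x) 0 = x 0 + rr L := rfl
private lemma FL_1 (x : Euc 6) : (FL n K L dl t x) 1 = th (rr L) (cc L) (x 0) (x 1) := rfl
private lemma FL_2 (x : Euc 6) : (FL n K L dl t x) 2 = (Tr (x 1) (th (rr L) (cc L) (x 0) (x 1))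
  (x 2 + sh (rr L) t (x 0), x 3 + sh (rr L) t (x 0) * gg)).1 := rfl
private lemma FL_3 (x : Euc 6) : (FL n K L dl t x) 3 = (Tr (x 1) (th (rr L) (cc L) (x 0) (x 1))
  (x 2 + sh (rr L) t (x 0), x 3 + sh (rr L) t (x 0) * gg)).2 := rfl
private lemma FL_4 (x : Euc 6) : (FL n K L dl t x) 4 =
  ((n : ℝ) ^ 2 + 1) * x 4 + n * (x 5 + dl * xi K (rr L) x) := rfl
private lemma FL_5 (x : Euc 6) : (FL n K L dl t x) 5 =
  n * x 4 + (x 5 + dl * xi K (rr L) x) := rfl

theorem FL_iter_base {x x' : Euc 6} (h0 : x' 0 = x 0) (h1 : x' 1 = x 1) (h2 : x' 2 = x 2) (h3 : x' 3 = x 3) (k : ℕ) :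
    ((FL n K L dl t)^[k] x') 0 = ((FL n K L dl t)^[k] x) 0 ∧ ((FL n K L dl t)^[k] x') 1 = ((FL n K L dl t)^[k] x) 1 ∧
    ((FL n K L dl t)^[k] x') 2 = ((FL n K L dl t)^[k] x) 2 ∧ ((FL n K L dl t)^[k] x') 3 = ((FL n K L dl t)^[k] x) 3 := by
  induction k with
  | zero => exact ⟨h0, h1, h2, h3⟩
  | succ k ih =>
    obtain ⟨a0, a1, a2, a3⟩ := ih
    simp only [Function.iterate_succ_apply', FL_0, FL_1, FL_2, FL_3, a0, a1, a2, a3, and_self]

private lemma y_aux (hn : 1 ≤ n) (hL : 1 ≤ L) {x : Euc 6} (hw : amp (rr L) (Real.sin (Real.pi * x 0) ^ 2) ≠ 0)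
    (k : ℕ) (hk : k + 1 ≤ 32 * L) :
    ∃ a b : ℕ, 0 < a ∧ ∀ s : ℝ,
      ((FL n K L dl t)^[k + 1] (x + s • EuclideanSpace.single 5 (1 : ℝ))) 4 =
        ((FL n K L dl t)^[k + 1] x) 4 + a * s ∧
      ((FL n K L dl t)^[k + 1] (x + s • EuclideanSpace.single 5 (1 : ℝ))) 5 =
        ((FL n K L dl t)^[k + 1] x) 5 + b * s := by
  induction k with
  | zero =>
    refine ⟨n, 1, by omega, fun s => ?_⟩
    have e0 : (x + s • EuclideanSpace.single 5 (1 : ℝ) : Euc 6) 0 = x 0 := by simp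
    have e2 : (x + s • EuclideanSpace.single 5 (1 : ℝ) : Euc 6) 2 = x 2 := by simp
    have e4 : (x + s • EuclideanSpace.single 5 (1 : ℝ) : Euc 6) 4 = x 4 := by simp
    have e5 : (x + s • EuclideanSpace.single 5 (1 : ℝ) : Euc 6) 5 = x 5 + s := by simp
    have ex : xi K (rr L) (x + s • EuclideanSpace.single 5 (1 : ℝ)) = xi K (rr L) x := by
      unfold xi
      rw [e0, e2, e4]
    simp only [zero_add, Function.iterate_one, FL_4, FL_5, e4, e5, ex]
    constructor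
    · ring
    · push_cast; ring
  | succ k ih =>
    obtain ⟨a, b, ha, h⟩ := ih (by omega)
    refine ⟨(n ^ 2 + 1) * a + n * b, n * a + b, by positivity, fun s => ?_⟩
    obtain ⟨h4, h5⟩ := h s
    have hz : ∀ y : Euc 6, y 0 = x 0 + (k + 1 : ℕ) * rr L → xi K (rr L) y = 0 := by
      intro y hy
      unfold xi
      rw [hy, amp_sin_sin hL hw (by omega) (by omega)]
      ring
    have z1 : xi K (rr L) ((FL n K L dl t)^[k + 1] x) = 0 := hz _ (FL_iter_0 x (k + 1))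
    have z2 : xi K (rr L) ((FL n K L dl t)^[k + 1] (x + s • EuclideanSpace.single 5 (1 : ℝ))) = 0 := by
      apply hz
      rw [FL_iter_0]
      simp
    rw [Function.iterate_succ_apply' _ (k + 1), Function.iterate_succ_apply' _ (k + 1)]
    simp only [FL_4, FL_5, z1, z2, h4, h5]
    constructor
    · push_cast; ring
    · push_cast; ring

theorem y_shift (hn : 1 ≤ n) (hL : 1 ≤ L) {x : Euc 6} (hw : amp (rr L) (Real.sin (Real.pi * x 0) ^ 2) ≠ 0) :
    ∃ a : ℕ, 0 < a ∧ ∀ s : ℝ, ((FL n K L dl t)^[32 * L] (x + s • EuclideanSpace.single 5 (1 : ℝ))) 4 =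
      ((FL n K L dl t)^[32 * L] x) 4 + a * s := by
  obtain ⟨a, b, ha, h⟩ := y_aux (K := K) (dl := dl) (t := t) hn hL hw (32 * L - 1) (by omega)
  rw [show 32 * L - 1 + 1 = 32 * L by omega] at h
  exact ⟨a, ha, fun s => (h s).1⟩

end Pool.Agent.H20.VL
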