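import Pool.Agent.H20.VL.TDefs
import Pool.Agent.H20.VL.YOrb

/-!
# Module YAv: averages over the fibre (about 200 lines)

`N = 32 L`, `f = E.D.f`. All functions are continuous on the torus. For `s ∈ ℝ` let `τ_i^s θ = θ + Pi.single i (s : UnitAddCircle)`; it preserves volume, and `τ_i^s (proj x) = proj (x + s • single i 1)`.
* Step 1: `∫ gT θ gT(f^N θ) = ∫ gT θ pT(f^N θ)`. Left side `= ∫₀¹ ∫ gT(τ_5^s θ) gT(f^N τ_5^s θ) dθ ds` (translation invariance) `= ∫ gT θ ∫₀¹ gT(f^N τ_5^s θ) ds dθ` (`gT` does not depend on `x 5`; Fubini: `integral_integral_swap`, everything is continuous and bounded; `(s, θ) ↦ gT (f^N (τ_5^s θ))`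
  is continuous). Pointwise (`θ = proj x`): if `amp(rr L)(sin² π x 0) = 0` then `ep0 = 0` and `gT θ = 0`: both sides `0`. Otherwise `y_shift`: the point `x_N(s) = FL^[N](x + s e₅)` has `(x_N(s)) 4 = (x_N) 4 + a s`, and `ep0 (x_N(s)) = ep0 (x_N)` (`FL_iter_base`: `ep0` depends only on the coordinates `0`, `2`),
  so `∫₀¹ gT(f^N τ_5^s θ) ds = ∫₀¹ gam al ε (y + a s) ds = Ph al ε = pT(f^N θ)` (`gam_int`).
* Step 2: `∫ gT θ pT(f^N θ) = ∫ pT θ pT(f^N θ)`: same with `i = 4`: `pT(f^N τ_4^s θ) = pT(f^N θ)` (`FL_iter_base`), `∫₀¹ gT(τ_4^s θ) ds = ∫₀¹ gam al ε (y + s) ds = pT θ` (`gam_int`, `a = 1`).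
-/

set_option autoImplicit false

open MeasureTheory Set Filter Topology ContDiff
open Pool.Agent.H14.Lyap

namespace Pool.Agent.H20.VL

variable {ν : ℝ} {n K L : ℕ} {dl t : ℝ}

private lemma avg (i : Fin 6) {F : Torus 6 → ℝ} (hF : Continuous F) :
    ∫ θ : Torus 6, F θ =
      ∫ θ : Torus 6, ∫ s in (0 : ℝ)..1, F (θ + Pi.single i (s : UnitAddCircle)) := by
  have hc : Continuous (fun z : Torus 6 × ℝ => F (z.1 + Pi.single i ((z.2 : ℝ) : UnitAddCircle))) := by
    refine hF.comp (continuous_fst.add ?_)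
    refine (continuous_single i).comp ?_
    exact (AddCircle.continuous_mk' 1).comp continuous_snd
  obtain ⟨C, hC⟩ := (isCompact_univ (X := Torus 6)).exists_bound_of_continuousOn hF.continuousOn
  have hsw : ∫ θ : Torus 6, ∫ s in (0 : ℝ)..1, F (θ + Pi.single i (s : UnitAddCircle)) =
      ∫ s in (0 : ℝ)..1, ∫ θ : Torus 6, F (θ + Pi.single i (s : UnitAddCircle)) := by
    simp only [intervalIntegral.integral_of_le (zero_le_one (α := ℝ))]
    have hI : Integrable (Function.uncurry fun (θ : Torus 6) (s : ℝ) => F (θ + Pi.single i (s : UnitAddCircle)))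
        ((volume : Measure (Torus 6)).prod (volume.restrict (Ioc (0 : ℝ) 1))) := by
      refine Integrable.of_bound hc.aestronglyMeasurable C ?_
      exact Eventually.of_forall fun z => hC _ (mem_univ _)
    exact integral_integral_swap hI
  rw [hsw]
  have h1 : ∀ s : ℝ, ∫ θ : Torus 6, F (θ + Pi.single i (s : UnitAddCircle)) = ∫ θ : Torus 6, F θ :=
    fun s => integral_add_right_eq_self F _
  simp only [h1]
  simp

private lemma proj_shift (i : Fin 6) (x : Euc 6) (s : ℝ) :
    proj x + Pi.single i (s : UnitAddCircle) = proj (x + s • EuclideanSpace.single i (1 : ℝ)) := by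
  funext j
  by_cases hj : j = i
  · subst hj
    simp [proj]
  · simp [proj, hj]

private lemma ep0_congr {K L : ℕ} {dl : ℝ} {x y : Euc 6} (h0 : x 0 = y 0) (h2 : x 2 = y 2) :
    ep0 K L dl x = ep0 K L dl y := by
  simp only [ep0, h0, h2]

private lemma sh_ne {i j : Fin 6} (hj : j ≠ i) (x : Euc 6) (s : ℝ) :
    (x + s • EuclideanSpace.single i (1 : ℝ)) j = x j := by
  simp [hj]

private lemma sh_eq (i : Fin 6) (x : Euc 6) (s : ℝ) :
    (x + s • EuclideanSpace.single i (1 : ℝ)) i = x i + s := by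
  simp

theorem y_average (E : WD ν n K L dl t) (hn : 1 ≤ n) (hL : 1 ≤ L) :
    ∫ θ : Torus 6, gT ν K L dl θ * gT ν K L dl (E.D.f^[32 * L] θ) =
      ∫ θ : Torus 6, pT ν K L dl θ * pT ν K L dl (E.D.f^[32 * L] θ) := by
  have hν : 0 ≤ ν := le_trans zero_le_one E.hν1
  have h0 : 0 ≤ dl := E.hdl.le
  have h1 : dl ≤ 1 / 10 := E.hdl2
  have hg : Continuous (gT ν K L dl) := gT_cont hν h0 h1
  have hp : Continuous (pT ν K L dl) := pT_cont hν h0 h1
  have hf : Continuous (E.D.f^[32 * L]) := E.D.f.continuous.iterate _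
  have hal0 : 0 ≤ al ν := al_nonneg hν
  have hal1 : al ν ≤ 1 / 2 := al_le ν
  have hab : ∀ x : Euc 6, |ep0 K L dl x| ≤ 1 / 10 := fun x => (ep0_abs h0 x).trans h1
  -- Step 1
  have step1 : ∫ θ : Torus 6, gT ν K L dl θ * gT ν K L dl (E.D.f^[32 * L] θ) =
      ∫ θ : Torus 6, gT ν K L dl θ * pT ν K L dl (E.D.f^[32 * L] θ) := by
    rw [avg 5 (F := fun θ : Torus 6 => gT ν K L dl θ * gT ν K L dl (E.D.f^[32 * L] θ)) (hg.mul (hg.comp hf))]
    refine integral_congr_ae (Eventually.of_forall fun θ => ?_)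
    obtain ⟨x, rfl⟩ := proj_surjective θ
    have hgs : ∀ s : ℝ, gT ν K L dl (proj (x + s • EuclideanSpace.single 5 (1 : ℝ))) =
        gT ν K L dl (proj x) := by
      intro s
      rw [gT_proj, gT_proj, sh_ne (by decide), ep0_congr (sh_ne (by decide) x s) (sh_ne (by decide) x s)]
    have hL1 : ∀ s : ℝ, gT ν K L dl (proj x + Pi.single 5 (s : UnitAddCircle)) *
        gT ν K L dl (E.D.f^[32 * L] (proj x + Pi.single 5 (s : UnitAddCircle))) =
        gT ν K L dl (proj x) * gam (al ν) (ep0 K L dl ((FL n K L dl t)^[32 * L] (x + s • EuclideanSpace.single 5 (1 : ℝ))))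
          (((FL n K L dl t)^[32 * L] (x + s • EuclideanSpace.single 5 (1 : ℝ))) 4) := by
      intro s
      rw [proj_shift, hgs, f_iter, gT_proj (x := (FL n K L dl t)^[32 * L] _)]
    simp only [hL1]
    rw [intervalIntegral.integral_const_mul]
    by_cases hw : amp (rr L) (Real.sin (Real.pi * x 0) ^ 2) = 0
    · have hz : gT ν K L dl (proj x) = 0 := by
        rw [gT_proj]
        simp [ep0, hw, gam]
      rw [hz, zero_mul, zero_mul]
    · obtain ⟨a, ha, hs⟩ := y_shift (n := n) (K := K) (L := L) (dl := dl) (t := t) hn hL hw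
      congr 1
      have hpt : ∀ s : ℝ, gam (al ν) (ep0 K L dl ((FL n K L dl t)^[32 * L] (x + s • EuclideanSpace.single 5 (1 : ℝ))))
          (((FL n K L dl t)^[32 * L] (x + s • EuclideanSpace.single 5 (1 : ℝ))) 4) =
          gam (al ν) (ep0 K L dl ((FL n K L dl t)^[32 * L] x)) (((FL n K L dl t)^[32 * L] x) 4 + a * s) := by
        intro s
        obtain ⟨e0, -, e2, -⟩ := FL_iter_base (n := n) (K := K) (L := L) (dl := dl) (t := t)
          (x := x) (x' := x + s • EuclideanSpace.single 5 (1 : ℝ)) (sh_ne (by decide) x s) (sh_ne (by decide) x s)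
          (sh_ne (by decide) x s) (sh_ne (by decide) x s) (32 * L)
        rw [hs s, ep0_congr e0 e2]
      simp only [hpt]
      rw [gam_int hal0 hal1 (hab _) _ ha, f_iter, pT_proj]
  -- Step 2
  have step2 : ∫ θ : Torus 6, gT ν K L dl θ * pT ν K L dl (E.D.f^[32 * L] θ) =
      ∫ θ : Torus 6, pT ν K L dl θ * pT ν K L dl (E.D.f^[32 * L] θ) := by
    rw [avg 4 (F := fun θ : Torus 6 => gT ν K L dl θ * pT ν K L dl (E.D.f^[32 * L] θ)) (hg.mul (hp.comp hf))]
    refine integral_congr_ae (Eventually.of_forall fun θ => ?_)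
    obtain ⟨x, rfl⟩ := proj_surjective θ
    have hL1 : ∀ s : ℝ, gT ν K L dl (proj x + Pi.single 4 (s : UnitAddCircle)) *
        pT ν K L dl (E.D.f^[32 * L] (proj x + Pi.single 4 (s : UnitAddCircle))) =
        gam (al ν) (ep0 K L dl x) (x 4 + (1 : ℕ) * s) * pT ν K L dl (E.D.f^[32 * L] (proj x)) := by
      intro s
      obtain ⟨e0, -, e2, -⟩ := FL_iter_base (n := n) (K := K) (L := L) (dl := dl) (t := t)
          (x := x) (x' := x + s • EuclideanSpace.single 4 (1 : ℝ)) (sh_ne (by decide) x s) (sh_ne (by decide) x s)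
          (sh_ne (by decide) x s) (sh_ne (by decide) x s) (32 * L)
      rw [proj_shift, f_iter, f_iter, pT_proj, pT_proj, gT_proj, sh_eq, ep0_congr e0 e2,
        ep0_congr (sh_ne (by decide) x s) (sh_ne (by decide) x s)]
      simp
    simp only [hL1]
    rw [intervalIntegral.integral_mul_const, gam_int hal0 hal1 (hab _) _ one_pos, pT_proj (x := x)]
  rw [step1, step2]

end Pool.Agent.H20.VL
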