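import Pool.Agent.H20.VL.ErrM
import Pool.Agent.H20.VL.YAv
import Pool.Agent.H20.VL.MeasB

/-!
# Module ExpErr: the exponent up to an error (about 120 lines)

`f = E.D.f`, `f θ = torusMap E.D.F θ` (`Lift.f_eq`), `E.D.F = FL .. = Fs ..`: `f` preserves volume (`Fs_preserves`), hence so does `f^[16 L]`.
Integrate `log_m` (every `θ` is `proj x`): `|∫ log m - (-log ν² - ∫ lT + al² μ^(-2N) ∫ gT θ gT(f^[32 L] θ))| ≤ 10 μ^(-4N)` (all functions continuous, volume is a probability measure).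
`y_average`. `pT θ = RT (f^[16 L] θ)` (`ep0_eq`, `f_iter`), `pT (f^[32 L] θ) = pT (f^[16 L] (f^[16 L] θ)) = RT (torusMap (sht L t) (f^[16 L] θ))` (`ep0_eq'`, `sht_proj`). So `∫ pT θ pT(f^[32 L] θ) = ∫ RT θ RT(torusMap (sht L t) θ)` (substitute `f^[16 L]`).
-/

set_option autoImplicit false

open MeasureTheory Set Filter Topology ContDiff
open Pool.Agent.H14.Lyap

namespace Pool.Agent.H20.VL

variable {ν : ℝ} {n K L : ℕ} {dl t : ℝ}

theorem f_preserves (E : WD ν n K L dl t) : MeasurePreserving E.D.f (volume : Measure (Torus 6)) volume := by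
  have h1 : (E.D.f : Torus 6 → Torus 6) = torusMap (Fs n K dl (rr L) (cc L) t) := by
    funext θ
    rw [E.D.f_eq, E.F_eq]
    rfl
  rw [h1]
  exact Fs_preserves n K dl (rr L) (cc L) t

private theorem prob6 : IsProbabilityMeasure (volume : Measure (Torus 6)) := by
  have : IsProbabilityMeasure (volume : Measure UnitAddCircle) := ⟨UnitAddCircle.measure_univ⟩
  change IsProbabilityMeasure (Measure.pi fun _ : Fin 6 => (volume : Measure UnitAddCircle))
  infer_instance

private theorem integrable_cont' {f : Torus 6 → ℝ} (hf : Continuous f) :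
    Integrable f (volume : Measure (Torus 6)) := by
  obtain ⟨C, hC⟩ := (isCompact_univ (X := Torus 6)).exists_bound_of_continuousOn hf.continuousOn
  exact Integrable.of_bound hf.aestronglyMeasurable C (Eventually.of_forall fun x => hC x (mem_univ x))

private theorem pT_RT (E : WD ν n K L dl t) (hL : 1 ≤ L) (θ : Torus 6) :
    pT ν K L dl θ = RT ν K L dl (E.D.f^[16 * L] θ) := by
  obtain ⟨x, rfl⟩ := proj_surjective θ
  rw [pT_proj, f_iter, RT_proj, ← ep0_eq hL]

private theorem pT_RT' (E : WD ν n K L dl t) (hL : 1 ≤ L) (θ : Torus 6) :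
    pT ν K L dl (E.D.f^[16 * L] θ) = RT ν K L dl (torusMap (sht L t) θ) := by
  obtain ⟨x, rfl⟩ := proj_surjective θ
  rw [f_iter, pT_proj, sht_proj, RT_proj, ep0_eq' hL]

private theorem int_pT (E : WD ν n K L dl t) (hL : 1 ≤ L) :
    ∫ θ : Torus 6, pT ν K L dl θ * pT ν K L dl (E.D.f^[32 * L] θ) =
      ∫ θ : Torus 6, RT ν K L dl θ * RT ν K L dl (torusMap (sht L t) θ) := by
  have hmp : MeasurePreserving (E.D.f^[16 * L]) (volume : Measure (Torus 6)) volume :=
    (f_preserves E).iterate _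
  have hemb : ∀ k : ℕ, MeasurableEmbedding (E.D.f^[k]) := by
    intro k
    induction k with
    | zero => exact MeasurableEmbedding.id
    | succ k ih => exact ih.comp E.D.f.measurableEmbedding
  have h1 := hmp.integral_comp (hemb (16 * L))
    (fun θ => RT ν K L dl θ * RT ν K L dl (torusMap (sht L t) θ))
  rw [← h1]
  refine integral_congr_ae (Eventually.of_forall fun θ => ?_)
  have e1 : E.D.f^[32 * L] θ = E.D.f^[16 * L] (E.D.f^[16 * L] θ) := by
    rw [← Function.iterate_add_apply]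
    congr 1
    ring
  show pT ν K L dl θ * pT ν K L dl (E.D.f^[32 * L] θ) = _
  rw [e1, pT_RT' E hL, pT_RT E hL θ]

theorem exp_err (E : WD ν n K L dl t) (hn : 1 ≤ n) (hL : 1 ≤ L) :
    |(∫ θ : Torus 6, Real.log (E.D.S.m θ)) - (-Real.log (ν ^ 2) - (∫ θ : Torus 6, lT ν K L dl θ) +
      al ν ^ 2 * ((ν ^ 2)⁻¹) ^ (64 * L) * ∫ θ : Torus 6, RT ν K L dl θ * RT ν K L dl (torusMap (sht L t) θ))| ≤
      10 * ((ν ^ 2)⁻¹) ^ (128 * L) := by
  have := prob6
  have hν0 : 0 ≤ ν := by linarith [E.hν1]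
  have hdl0 : 0 ≤ dl := E.hdl.le
  have cm : Continuous fun θ : Torus 6 => Real.log (E.D.S.m θ) :=
    E.D.S.m_cont.log fun θ => (E.D.S.m_pos θ).ne'
  have cl : Continuous (lT ν K L dl) := lT_cont hν0 hdl0 E.hdl2
  have cg : Continuous (gT ν K L dl) := gT_cont hν0 hdl0 E.hdl2
  have cf : Continuous (E.D.f^[32 * L]) := E.D.f.continuous.iterate _
  have cG : Continuous fun θ : Torus 6 => gT ν K L dl θ * gT ν K L dl (E.D.f^[32 * L] θ) :=
    cg.mul (cg.comp cf)
  have i1 : Integrable (fun θ : Torus 6 => Real.log (E.D.S.m θ)) volume := integrable_cont' cm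
  have i2 : Integrable (lT ν K L dl) (volume : Measure (Torus 6)) := integrable_cont' cl
  have i3 : Integrable (fun θ : Torus 6 => gT ν K L dl θ * gT ν K L dl (E.D.f^[32 * L] θ)) volume :=
    integrable_cont' cG
  rw [← int_pT E hL, ← y_average E hn hL]
  set C := al ν ^ 2 * ((ν ^ 2)⁻¹) ^ (64 * L) with hC
  have key : ∀ θ : Torus 6, ‖Real.log (E.D.S.m θ) - (-Real.log (ν ^ 2) - lT ν K L dl θ +
      C * (gT ν K L dl θ * gT ν K L dl (E.D.f^[32 * L] θ)))‖ ≤ 10 * ((ν ^ 2)⁻¹) ^ (128 * L) := by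
    intro θ
    obtain ⟨x, rfl⟩ := proj_surjective θ
    rw [Real.norm_eq_abs, lT_proj, f_iter, gT_proj, gT_proj]
    exact log_m E hL x
  have h1 := norm_integral_le_of_norm_le_const (μ := (volume : Measure (Torus 6)))
    (Eventually.of_forall key)
  rw [probReal_univ, mul_one, Real.norm_eq_abs] at h1
  have h2 : ∫ θ : Torus 6, (Real.log (E.D.S.m θ) - (-Real.log (ν ^ 2) - lT ν K L dl θ +
      C * (gT ν K L dl θ * gT ν K L dl (E.D.f^[32 * L] θ)))) =
      (∫ θ : Torus 6, Real.log (E.D.S.m θ)) - (-Real.log (ν ^ 2) - (∫ θ : Torus 6, lT ν K L dl θ) +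
      C * ∫ θ : Torus 6, gT ν K L dl θ * gT ν K L dl (E.D.f^[32 * L] θ)) := by
    have i4 : Integrable (fun θ : Torus 6 => -Real.log (ν ^ 2) - lT ν K L dl θ) volume :=
      (integrable_const _).sub i2
    have i5 : Integrable (fun θ : Torus 6 => C * (gT ν K L dl θ * gT ν K L dl (E.D.f^[32 * L] θ)))
        volume := i3.const_mul C
    have i6 : Integrable (fun θ : Torus 6 => -Real.log (ν ^ 2) - lT ν K L dl θ +
        C * (gT ν K L dl θ * gT ν K L dl (E.D.f^[32 * L] θ))) volume := i4.add i5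
    rw [integral_sub i1 i6, integral_add i4 i5, integral_sub (integrable_const _) i2,
      integral_const_mul, integral_const, probReal_univ, one_smul]
  rw [h2] at h1
  exact h1

end Pool.Agent.H20.VL
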