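import Pool.Agent.H14.LyapLift
import Pool.Agent.H14.LyapDet

/-!
# The integrated exponent of a lift is the integral of `log m`
-/

set_option autoImplicit false

open MeasureTheory Set Filter Topology ContDiff
open Pool.Agent.H14.Lyap

namespace Pool.Agent.H20.VL

noncomputable section

variable {d : ℕ} (D : Lift d)

lemma range_P (θ : Torus d) :
    LinearMap.range (D.S.P θ : Euc d →ₗ[ℝ] Euc d) = Submodule.span ℝ {D.S.e θ} := by
  apply le_antisymm
  · rintro x ⟨y, rfl⟩
    rw [Submodule.mem_span_singleton]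
    exact ⟨_, (D.S.P_apply θ y).symm⟩
  · rw [Submodule.span_singleton_le_iff_mem]
    exact ⟨D.S.e θ, D.S.P_e θ⟩

lemma finrank_P (θ : Torus d) : Module.finrank ℝ (D.S.P θ).range = 1 := by
  have h : (D.S.P θ).range = Submodule.span ℝ {D.S.e θ} := range_P D θ
  rw [h]
  exact finrank_span_singleton (D.S.e_ne θ)

lemma log_absDet (θ : Torus d) :
    Real.log (absDetOn (fderiv ℝ D.F (rep θ)) (LinearMap.range (D.S.P θ : Euc d →ₗ[ℝ] Euc d))) =
    Real.log (D.S.m θ) + Real.log ‖D.S.e (D.f θ)‖ - Real.log ‖D.S.e θ‖ := by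
  rw [absDetOn_span _ _ (D.S.e_ne θ) (range_P D θ)]
  have h1 : fderiv ℝ D.F (rep θ) (D.S.e θ) = D.S.m θ • D.S.e (D.f θ) := D.S.A_e θ
  rw [h1, norm_smul, Real.norm_eq_abs, abs_of_pos (D.S.m_pos θ)]
  have n1 : 0 < ‖D.S.e θ‖ := norm_pos_iff.mpr (D.S.e_ne θ)
  have n2 : 0 < ‖D.S.e (D.f θ)‖ := norm_pos_iff.mpr (D.S.e_ne _)
  have n3 := D.S.m_pos θ
  rw [Real.log_div (by positivity) n1.ne', Real.log_mul n3.ne' n2.ne']

/-- the function `log m` -/
def logm : C(Torus d, ℝ) :=
  ⟨fun θ => Real.log (D.S.m θ), D.S.m_cont.log (fun θ => (D.S.m_pos θ).ne')⟩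

/-- the function `log ‖e‖` -/
def loge : C(Torus d, ℝ) :=
  ⟨fun θ => Real.log ‖D.S.e θ‖,
    D.S.e_cont.norm.log (fun θ => (norm_pos_iff.mpr (D.S.e_ne θ)).ne')⟩

lemma integrable_cont' {μ : Measure (Torus d)} [IsFiniteMeasure μ] {g : Torus d → ℝ}
    (hg : Continuous g) : Integrable g μ := by
  obtain ⟨C, hC⟩ := isCompact_univ.exists_bound_of_continuousOn hg.continuousOn
  exact Integrable.of_bound hg.aestronglyMeasurable C
    (Filter.Eventually.of_forall fun θ => hC θ (mem_univ _))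

lemma exponent_eq_integral {μ : Measure (Torus d)} [IsFiniteMeasure μ]
    (hμ : MeasurePreserving D.f μ μ) :
    integratedExponent rep μ D.F D.S.P = ∫ θ, Real.log (D.S.m θ) ∂μ := by
  unfold integratedExponent
  have h1 : (fun θ => Real.log (absDetOn (fderiv ℝ D.F (rep θ))
      (LinearMap.range (D.S.P θ : Euc d →ₗ[ℝ] Euc d)))) =
      fun θ => logm D θ + loge D (D.f θ) - loge D θ := by
    funext θ; exact log_absDet D θ
  rw [h1]
  have i1 : Integrable (fun θ => logm D θ) μ := integrable_cont' (logm D).continuous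
  have i2 : Integrable (fun θ => loge D (D.f θ)) μ :=
    integrable_cont' ((loge D).continuous.comp D.f.continuous)
  have i3 : Integrable (fun θ => loge D θ) μ := integrable_cont' (loge D).continuous
  have i12 : Integrable (fun θ => logm D θ + loge D (D.f θ)) μ := i1.add i2
  rw [integral_sub i12 i3, integral_add i1 i2]
  have h2 : ∫ θ, loge D (D.f θ) ∂μ = ∫ θ, loge D θ ∂μ :=
    hμ.integral_comp D.f.measurableEmbedding _
  rw [h2]
  change _ = ∫ θ, logm D θ ∂μ
  ring

end

end Pool.Agent.H20.VL
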