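import Pool.Agent.H20.VL.FzM

/-!
# Module LinM: the return map near the fixed point (about 100 lines)

`S1 (x, z) = (x + z, z + (x + z))` if `|z| ≤ 1/8` and `|x + z| ≤ 1/8` (`Fz_lin`). Put `p = x + gg z`, `w = z - gg x`, `Λ = gg²`, `gg² = gg + 1`. Then `p(S1 q) = Λ p(q)`, `w(S1 q) = Λ⁻¹ w(q)` (i.e. `Λ w(S1 q) = w(q)`), and
`x = (p - gg w)/(1 + gg²)`, `z = (gg p + w)/(1 + gg²)`, so `|x|, |z| ≤ gg (|p| + |w|)/(1 + gg²) ≤ (|p| + |w|)/2 · ...` (`gg/(1+gg²) < 0.448`): if `|p| ≤ 1/4` and `|w| ≤ 1/50` then `|x|, |z| ≤ 1/8`.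
Induction on `i ≤ L`: `p((S1^i) q) = Λ^i p(q)`, `w((S1^i) q) = Λ^(-i) w(q)`. For the step from `i` to `i + 1 ≤ L` one needs `|z_i| ≤ 1/8` and `|x_i + z_i| ≤ 1/8`, where `x_i + z_i` is the first coordinate of the linear image `B q_i`,
whose `p`, `w` are `Λ^(i+1) p(q)`, `Λ^(-i-1) w(q)`, again bounded by `1/4`, `1/50`.
-/

set_option autoImplicit false

open MeasureTheory Set Filter Topology ContDiff
open Pool.Agent.H14.Lyap

namespace Pool.Agent.H20.VL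

private lemma S1_apply' {x z : ℝ} (hz : |z| ≤ 1 / 8) (hx : |x + z| ≤ 1 / 8) :
    S1 (x, z) = (x + z, z + (x + z)) := by
  have h1 : S1 (x, z) = Sz 1 (Sx 1 (x, z)) := rfl
  rw [h1, Sx_apply, Sz_apply]
  simp only [one_mul]
  rw [Fz_lin hz, Fz_lin hx]

private lemma S1_lin_aux (L : ℕ) (q : ℝ × ℝ) (h1 : (gg ^ 2) ^ L * |q.1 + gg * q.2| ≤ 1 / 4)
    (h2 : |q.2 - gg * q.1| ≤ 1 / 50) (i : ℕ) (hi : i ≤ L) :
    ((S1 ^ i) q) = (((gg ^ 2) ^ i * (q.1 + gg * q.2) - gg * (((gg ^ 2) ^ i)⁻¹ * (q.2 - gg * q.1))) / (1 + gg ^ 2),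
      (gg * ((gg ^ 2) ^ i * (q.1 + gg * q.2)) + (((gg ^ 2) ^ i)⁻¹ * (q.2 - gg * q.1))) / (1 + gg ^ 2)) := by
  have hg := gg_pos
  have hg2 := gg_sq
  have hga := gg_gt
  have hgb := gg_lt
  have hL1 : 1 ≤ gg ^ 2 := by nlinarith
  have hL0 : 0 < gg ^ 2 := by positivity
  have hD : 0 < 1 + gg ^ 2 := by positivity
  induction i with
  | zero =>
    simp only [pow_zero, Equiv.Perm.coe_one, id_eq, one_mul, inv_one]
    refine Prod.ext ?_ ?_
    · show q.1 = _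
      rw [eq_div_iff hD.ne']
      ring
    · show q.2 = _
      rw [eq_div_iff hD.ne']
      ring
  | succ i ih =>
    have hi' : i ≤ L := by omega
    have ih' := ih hi'
    set P := q.1 + gg * q.2 with hP
    set V := q.2 - gg * q.1 with hV
    set A := (gg ^ 2) ^ i * P with hA
    set B := ((gg ^ 2) ^ i)⁻¹ * V with hB
    have hpi : 1 ≤ (gg ^ 2) ^ i := one_le_pow₀ hL1
    have hpi0 : 0 < (gg ^ 2) ^ i := by positivity
    have hBb : |B| ≤ 1 / 50 := by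
      rw [hB, abs_mul, abs_of_pos (inv_pos.2 hpi0)]
      have : ((gg ^ 2) ^ i)⁻¹ ≤ 1 := inv_le_one_of_one_le₀ hpi
      nlinarith [abs_nonneg V, inv_pos.2 hpi0]
    have hAb : gg ^ 2 * |A| ≤ 1 / 4 := by
      rw [hA, abs_mul, abs_of_pos hpi0]
      have e1 : gg ^ 2 * ((gg ^ 2) ^ i * |P|) = (gg ^ 2) ^ (i + 1) * |P| := by ring
      rw [e1]
      refine le_trans ?_ h1
      exact mul_le_mul_of_nonneg_right (pow_le_pow_right₀ hL1 hi) (abs_nonneg _)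
    have hgi : gg * gg⁻¹ = 1 := mul_inv_cancel₀ hg.ne'
    have hA' := abs_le.1 (le_refl |A|)
    have hB' := abs_le.1 hBb
    have hAb2 : |A| ≤ 1 / 10 := by nlinarith [abs_nonneg A]
    have hA2 := abs_le.1 hAb2
    have hAA : |gg ^ 2 * A| ≤ 1 / 4 := by
      rw [abs_mul, abs_of_pos hL0]; exact hAb
    have hAA' := abs_le.1 hAA
    have hz : |(gg * A + B) / (1 + gg ^ 2)| ≤ 1 / 8 := by
      rw [abs_div, abs_of_pos hD, div_le_iff₀ hD, abs_le]
      constructor <;> nlinarith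
    have hgB : |(1 - gg) * B| ≤ 1 / 50 := by
      rw [abs_mul, abs_of_neg (by linarith : 1 - gg < 0)]
      nlinarith [abs_nonneg B]
    have hgB' := abs_le.1 hgB
    have hxz : |(A - gg * B) / (1 + gg ^ 2) + (gg * A + B) / (1 + gg ^ 2)| ≤ 1 / 8 := by
      have e1 : (A - gg * B) / (1 + gg ^ 2) + (gg * A + B) / (1 + gg ^ 2) =
          (gg ^ 2 * A + (1 - gg) * B) / (1 + gg ^ 2) := by
        rw [← add_div]
        congr 1
        rw [hg2]; ring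
      rw [e1, abs_div, abs_of_pos hD, div_le_iff₀ hD, abs_le]
      constructor <;> nlinarith
    have hS : (S1 ^ (i + 1)) q = S1 ((S1 ^ i) q) := by
      rw [pow_succ']; rfl
    rw [hS, ih', S1_apply' hz hxz]
    have e2 : (gg ^ 2) ^ (i + 1) * P = gg ^ 2 * A := by rw [hA]; ring
    have e3 : ((gg ^ 2) ^ (i + 1))⁻¹ * V = (gg ^ 2)⁻¹ * B := by
      rw [hB, pow_succ, mul_inv]; ring
    rw [e2, e3]
    have e4 : gg * (gg ^ 2)⁻¹ = gg - 1 := by
      have : gg * (gg - 1) = 1 := by nlinarith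
      field_simp
      nlinarith
    have e5 : (gg ^ 2)⁻¹ = 2 - gg := by
      have h : gg ^ 2 * (2 - gg) = 1 := by
        have : gg ^ 2 * (2 - gg) = 2 * gg ^ 2 - gg * gg ^ 2 := by ring
        rw [this, hg2]
        have : gg * (gg + 1) = gg ^ 2 + gg := by ring
        rw [this, hg2]; ring
      exact inv_eq_of_mul_eq_one_right h
    refine Prod.ext ?_ ?_
    · show (A - gg * B) / (1 + gg ^ 2) + (gg * A + B) / (1 + gg ^ 2) =
        (gg ^ 2 * A - gg * ((gg ^ 2)⁻¹ * B)) / (1 + gg ^ 2)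
      rw [← add_div]
      congr 1
      have e6 : gg * ((gg ^ 2)⁻¹ * B) = (gg - 1) * B := by rw [← mul_assoc, e4]
      rw [e6, hg2]; ring
    · show (gg * A + B) / (1 + gg ^ 2) + ((A - gg * B) / (1 + gg ^ 2) + (gg * A + B) / (1 + gg ^ 2)) =
        (gg * (gg ^ 2 * A) + (gg ^ 2)⁻¹ * B) / (1 + gg ^ 2)
      rw [← add_div, ← add_div]
      congr 1
      have e7 : gg * (gg ^ 2 * A) = (2 * gg + 1) * A := by
        have : gg * (gg ^ 2 * A) = (gg * gg ^ 2) * A := by ring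
        rw [this, hg2]
        have : gg * (gg + 1) = gg ^ 2 + gg := by ring
        rw [this, hg2]; ring
      rw [e7, e5]; ring

theorem S1_lin (L : ℕ) (q : ℝ × ℝ) (h1 : (gg ^ 2) ^ L * |q.1 + gg * q.2| ≤ 1 / 4) (h2 : |q.2 - gg * q.1| ≤ 1 / 50) :
    ((S1 ^ L) q).1 = ((gg ^ 2) ^ L * (q.1 + gg * q.2) - gg * (((gg ^ 2) ^ L)⁻¹ * (q.2 - gg * q.1))) / (1 + gg ^ 2) := by
  rw [S1_lin_aux L q h1 h2 L le_rfl]

end Pool.Agent.H20.VL
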