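import Pool.Agent.H20.VL.TDefs
import Pool.Agent.H20.VL.CorrM
import Pool.Agent.H20.VL.LinM
import Pool.Agent.H20.VL.Box
import Pool.Agent.H20.VL.MeasB

/-!
# Module LowM: lower bound for the square of the iterated difference (about 250 lines)

`Λ = gg²`, `β = exp(-(4 L/25)) = exp(-1/(200 rr L))`, `h = (Λ^L 4 K β)⁻¹`, `δ = 1/(60 K)`, `φ_t = torusMap (sht L t)`. Box (`exists_box`): centre `(1/2, 3/80, 0, 0, 0, 0)`, radii `(1/(256 L), 1/80, δ Λ^(-L), δ Λ^(-L), 1/2, 1/2)`.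
`low_pt`: for `x` in the box: `cos² π x 0 = sin² π(x 0 - 1/2) ≤ (π/(256 L))² ≤ (rr L)²/4` so `amp = β` (`amp_val`). `x 1 ∈ [1/40, 1/20]`: `Q (x 1) = 1` (`Q_zone`, `k = 0`). `x 1 - L cos(2π x 0) = x 1 + L - L(1 - cos 2π(x 0 - 1/2)) ∈ [L, L + 1/20]` (`1 - cos y ≤ y²/2`,
`L (2π/(256 L))²/2 ≤ 1/40`): `Q = S1^L` (`Q_zone`, `zpow_natCast`). The point `sht L (jh) x` has the same `x 0`, `x 1` and `(x 2, x 3) + jhβ (1, gg)`. `S1_lin` for it (`j ≤ m`, `8m ≤ K`): `p = p₀ + jhβ(1 + gg²)`, `Λ^L |p| ≤ Λ^L |p₀| + (j/(4K)) (1 + gg²) ≤ (1 + gg) δ + 3.7/32 ≤ 1/4`, `|w| ≤ (1 + gg) δ ≤ 1/50`... (`w` unchanged).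
So `(S1^L (..)).1 = X + j/(4K)`, `X = (Λ^L p₀ - gg Λ^(-L) w)/(1+gg²)`, `|X| ≤ 2δ`, and `EE = dl β sin(2πK X + jπ/2)`. `RT (φ_{jh} (proj x)) = Ph al (dl β sin(2πK X + jπ/2))` (`RT_proj`, `sht_proj`, `sht_add` not needed here) depends only on the parity of `j` (`Ph_even`, `sin(y + π) = -sin y`).
`DD_alt`: `|(DD φ h)^[m] RT| = 2^(m-1) |Ph(dl β sin y) - Ph(dl β cos y)|`, `|y| = |2πK X| ≤ 4πKδ ≤ 1/4`: `≥ |Ph(dl β cos y)| - |Ph(dl β sin y)| ≥ al (dl β)² (2/5 cos² y - 3/5 sin² y) ≥ al (dl β)²/4` (`Ph_lower`, `Ph_upper`, `sin² y ≤ 1/16`).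
`low`: integrate the square over the box (`setIntegral_mono`, `integral_nonneg`); the function is measurable and bounded (`RT_cont` gives continuity of `RT`; `(DD φ h)^[m] RT` is measurable by induction, `φ_h` measurable by `sht_preserves`; bounded by `2^m`).
-/

set_option autoImplicit false

open MeasureTheory Set Filter Topology ContDiff
open Pool.Agent.H14.Lyap

namespace Pool.Agent.H20.VL

variable {ν : ℝ} {K L m : ℕ} {dl : ℝ}

private lemma LowM_sht_zero (x : Euc 6) : sht L 0 x = x := by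
  unfold sht sh
  refine ext6 ?_ ?_ ?_ ?_ ?_ ?_ <;> simp

private lemma LowM_map_zero (θ : Torus 6) : torusMap (sht L 0) θ = θ := by
  unfold Pool.Agent.H14.Lyap.torusMap
  rw [LowM_sht_zero, proj_rep]

private lemma LowM_amp (hL : 1 ≤ L) {w : ℝ} (hw : |w - 1 / 2| ≤ 1 / (256 * L)) :
    amp (rr L) (Real.cos (Real.pi * w) ^ 2) = Real.exp (-(4 * L / 25)) := by
  have hL0 : (0 : ℝ) < L := by exact_mod_cast hL
  have hr : 0 < rr L := by unfold rr; positivity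
  have h1 : Real.cos (Real.pi * w) = -Real.sin (Real.pi * (w - 1 / 2)) := by
    have : Real.pi * w = Real.pi * (w - 1 / 2) + Real.pi / 2 := by ring
    rw [this, Real.cos_add_pi_div_two]
  have h2 : |Real.sin (Real.pi * (w - 1 / 2))| ≤ rr L / 2 := by
    refine Real.abs_sin_le_abs.trans ?_
    rw [abs_mul, abs_of_pos Real.pi_pos]
    have h3 : Real.pi * |w - 1 / 2| ≤ 4 * (1 / (256 * L)) :=
      mul_le_mul Real.pi_le_four hw (abs_nonneg _) (by norm_num)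
    have h4 : rr L / 2 = 4 * (1 / (256 * L)) := by
      unfold rr
      field_simp
      norm_num
    rw [h4]
    exact h3
  have h3 : Real.cos (Real.pi * w) ^ 2 ≤ rr L ^ 2 / 4 := by
    rw [h1, neg_sq, ← sq_abs]
    have := pow_le_pow_left₀ (abs_nonneg _) h2 2
    calc |Real.sin (Real.pi * (w - 1 / 2))| ^ 2 ≤ (rr L / 2) ^ 2 := this
      _ = rr L ^ 2 / 4 := by ring
  rw [amp_val hr h3]
  congr 2
  unfold rr
  field_simp
  norm_num

private lemma LowM_time (hL : 1 ≤ L) {w s : ℝ} (hw : |w - 1 / 2| ≤ 1 / (256 * L))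
    (hs : |s - 3 / 80| ≤ 1 / 80) :
    ((L : ℤ) : ℝ) ≤ s - L * Real.cos (2 * Real.pi * w) ∧
      s - L * Real.cos (2 * Real.pi * w) ≤ ((L : ℤ) : ℝ) + 1 / 10 := by
  have hL0 : (0 : ℝ) < L := by exact_mod_cast hL
  have hL1 : (1 : ℝ) ≤ L := by exact_mod_cast hL
  have h1 : Real.cos (2 * Real.pi * w) = -Real.cos (2 * Real.pi * (w - 1 / 2)) := by
    have : 2 * Real.pi * w = 2 * Real.pi * (w - 1 / 2) + Real.pi := by ring
    rw [this, Real.cos_add_pi]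
  have h2 := Real.one_sub_sq_div_two_le_cos (x := 2 * Real.pi * (w - 1 / 2))
  have h3 := Real.cos_le_one (2 * Real.pi * (w - 1 / 2))
  obtain ⟨h4, h5⟩ := abs_le.1 hs
  have h6 : (2 * Real.pi * (w - 1 / 2)) ^ 2 ≤ (1 / (32 * L)) ^ 2 := by
    rw [← sq_abs]
    refine pow_le_pow_left₀ (abs_nonneg _) ?_ 2
    rw [abs_mul, abs_mul, abs_of_pos Real.pi_pos, abs_of_pos (by norm_num : (0 : ℝ) < 2)]
    have h7 : 2 * Real.pi * |w - 1 / 2| ≤ 2 * 4 * (1 / (256 * L)) :=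
      mul_le_mul (by linarith [Real.pi_le_four]) hw (abs_nonneg _) (by norm_num)
    have h8 : 2 * 4 * (1 / (256 * (L : ℝ))) = 1 / (32 * L) := by
      field_simp
      norm_num
    rw [← h8]
    exact h7
  have h9 : (L : ℝ) * ((2 * Real.pi * (w - 1 / 2)) ^ 2 / 2) ≤ 1 / 40 := by
    have h10 : (L : ℝ) * ((1 / (32 * L)) ^ 2 / 2) = 1 / (2048 * L) := by
      field_simp
      norm_num
    have h11 : (1 : ℝ) / (2048 * L) ≤ 1 / 40 := by
      apply one_div_le_one_div_of_le (by norm_num)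
      linarith
    have h12 := mul_le_mul_of_nonneg_left (div_le_div_of_nonneg_right h6 (by norm_num : (0 : ℝ) ≤ 2))
      hL0.le
    linarith
  have h13 : (L : ℝ) * (1 - (2 * Real.pi * (w - 1 / 2)) ^ 2 / 2) ≤
      L * Real.cos (2 * Real.pi * (w - 1 / 2)) := mul_le_mul_of_nonneg_left h2 hL0.le
  have h14 : (L : ℝ) * Real.cos (2 * Real.pi * (w - 1 / 2)) ≤ L * 1 :=
    mul_le_mul_of_nonneg_left h3 hL0.le
  have h15 : (((L : ℕ) : ℤ) : ℝ) = (L : ℝ) := by norm_cast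
  rw [h1, h15]
  constructor
  · linarith
  · linarith

/-- the value of `EE` at the shifted point -/
private lemma LowM_EE (hK : 8 * m ≤ K) (hm : 1 ≤ m) (hL : 1 ≤ L) {x : Euc 6}
    (h0 : |x 0 - 1 / 2| ≤ 1 / (256 * L)) (h1 : |x 1 - 3 / 80| ≤ 1 / 80)
    (h2 : |x 2| ≤ 1 / (60 * K) * ((gg ^ 2) ^ L)⁻¹) (h3 : |x 3| ≤ 1 / (60 * K) * ((gg ^ 2) ^ L)⁻¹) :
    ∃ y : ℝ, |y| ≤ 1 / 4 ∧ ∀ j ≤ m,
      EE K L dl (sht L (j * ((gg ^ 2) ^ L * (4 * K * Real.exp (-(4 * L / 25))))⁻¹) x) =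
        dl * Real.exp (-(4 * L / 25)) * Real.sin (y + j * (Real.pi / 2)) := by
  have hK8 : (8 : ℝ) ≤ K := by exact_mod_cast (by omega : 8 ≤ K)
  have hK0 : (0 : ℝ) < K := by linarith
  have hmK : 8 * (m : ℝ) ≤ K := by exact_mod_cast hK
  obtain ⟨g, hg⟩ : ∃ g, g = gg := ⟨_, rfl⟩
  have hg1 : 8 / 5 < g := hg ▸ gg_gt
  have hg2 : g < 17 / 10 := hg ▸ gg_lt
  have hgs : g ^ 2 = g + 1 := hg ▸ gg_sq
  have hg0 : 0 < g := by linarith
  obtain ⟨M, hM⟩ : ∃ M, M = (g ^ 2) ^ L := ⟨_, rfl⟩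
  have hM0 : 0 < M := by rw [hM]; positivity
  have hM1 : 1 ≤ M := by
    rw [hM]
    apply one_le_pow₀
    nlinarith
  have hMi : M⁻¹ ≤ 1 := inv_le_one_of_one_le₀ hM1
  have hMi0 : 0 < M⁻¹ := inv_pos.2 hM0
  obtain ⟨β, hβ⟩ : ∃ β, β = Real.exp (-(4 * (L : ℝ) / 25)) := ⟨_, rfl⟩
  have hβ0 : 0 < β := by rw [hβ]; exact Real.exp_pos _
  obtain ⟨D, hD⟩ : ∃ D : ℝ, D = 1 / (60 * K) := ⟨_, rfl⟩
  have hD0 : 0 < D := by rw [hD]; positivity
  have hDK : D * K = 1 / 60 := by rw [hD]; field_simp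
  have hD1 : D ≤ 1 / 480 := by nlinarith
  rw [← hg, ← hM, ← hD] at h2 h3
  rw [← hg, ← hM, ← hβ]
  -- the data of the point
  set P0 : ℝ := M * (x 2 + g * x 3) with hP0
  set w0 : ℝ := x 3 - g * x 2 with hw0
  have hMx2 : |M * x 2| ≤ D := by
    rw [abs_mul, abs_of_pos hM0]
    calc M * |x 2| ≤ M * (D * M⁻¹) := mul_le_mul_of_nonneg_left h2 hM0.le
      _ = D := by field_simp
  have hMx3 : |M * x 3| ≤ D := by
    rw [abs_mul, abs_of_pos hM0]
    calc M * |x 3| ≤ M * (D * M⁻¹) := mul_le_mul_of_nonneg_left h3 hM0.le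
      _ = D := by field_simp
  have hP0b : |P0| ≤ (1 + g) * D := by
    have e : P0 = M * x 2 + g * (M * x 3) := by rw [hP0]; ring
    rw [e]
    calc |M * x 2 + g * (M * x 3)| ≤ |M * x 2| + |g * (M * x 3)| := abs_add_le _ _
      _ ≤ D + g * D := by
        rw [abs_mul g, abs_of_pos hg0]
        gcongr
      _ = (1 + g) * D := by ring
  have hw0b : |w0| ≤ (1 + g) * (D * M⁻¹) := by
    rw [hw0]
    calc |x 3 - g * x 2| ≤ |x 3| + |g * x 2| := abs_sub _ _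
      _ ≤ D * M⁻¹ + g * (D * M⁻¹) := by
        rw [abs_mul g, abs_of_pos hg0]
        gcongr
      _ = (1 + g) * (D * M⁻¹) := by ring
  have hDM : D * M⁻¹ ≤ D := mul_le_of_le_one_right hD0.le hMi
  have hw0c : |w0| ≤ (1 + g) * D := hw0b.trans (mul_le_mul_of_nonneg_left hDM (by linarith))
  set X : ℝ := (P0 - g * (M⁻¹ * w0)) / (1 + g ^ 2) with hX
  have hXb : |X| ≤ 2 * D := by
    rw [hX, abs_div, abs_of_pos (by positivity : 0 < 1 + g ^ 2), div_le_iff₀ (by positivity)]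
    have e1 : |P0 - g * (M⁻¹ * w0)| ≤ (1 + g) * D + g * ((1 + g) * D) := by
      refine (abs_sub _ _).trans ?_
      rw [abs_mul g, abs_of_pos hg0, abs_mul M⁻¹, abs_of_pos hMi0]
      have e2 : M⁻¹ * |w0| ≤ 1 * ((1 + g) * D) := mul_le_mul hMi hw0c (abs_nonneg _) one_pos.le
      rw [one_mul] at e2
      exact add_le_add hP0b (mul_le_mul_of_nonneg_left e2 hg0.le)
    refine e1.trans ?_
    have e3 : (1 + g) * D + g * ((1 + g) * D) = (3 * g + 2) * D := by nlinarith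
    rw [e3]
    nlinarith
  refine ⟨2 * Real.pi * K * X, ?_, fun j hj => ?_⟩
  · rw [abs_mul, abs_mul, abs_mul, abs_of_pos Real.pi_pos, abs_of_pos hK0,
      abs_of_pos (by norm_num : (0 : ℝ) < 2)]
    have e1 : 2 * Real.pi * K * |X| ≤ 2 * Real.pi * K * (2 * D) :=
      mul_le_mul_of_nonneg_left hXb (by positivity)
    have e2 : 2 * Real.pi * K * (2 * D) = Real.pi * (4 * (D * K)) := by ring
    rw [e2, hDK] at e1
    have := Real.pi_lt_d2
    linarith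
  · have hjm : (j : ℝ) ≤ m := by exact_mod_cast hj
    have hj0 : (0 : ℝ) ≤ j := by positivity
    have hjK : (j : ℝ) / (4 * K) ≤ 1 / 32 := by
      rw [div_le_div_iff₀ (by positivity) (by norm_num)]
      linarith
    have hamp := LowM_amp hL h0
    rw [← hβ] at hamp
    obtain ⟨ht1, ht2⟩ := LowM_time hL h0 h1
    have hsh : sh (rr L) (j * (M * (4 * K * β))⁻¹) (x 0) = j / (4 * K) * M⁻¹ := by
      unfold sh
      rw [hamp]
      field_simp
    unfold EE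
    have hs0 : (sht L (j * (M * (4 * K * β))⁻¹) x) 0 = x 0 := rfl
    have hs1 : (sht L (j * (M * (4 * K * β))⁻¹) x) 1 = x 1 := rfl
    have hs2 : (sht L (j * (M * (4 * K * β))⁻¹) x) 2 = x 2 + j / (4 * K) * M⁻¹ := by
      show x 2 + sh (rr L) _ (x 0) = _
      rw [hsh]
    have hs3 : (sht L (j * (M * (4 * K * β))⁻¹) x) 3 = x 3 + j / (4 * K) * M⁻¹ * g := by
      show x 3 + sh (rr L) _ (x 0) * gg = _
      rw [hsh, hg]
    rw [hs0, hs1, hs2, hs3, hamp]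
    obtain ⟨h4, h5⟩ := abs_le.1 h1
    rw [Q_zone (θ := x 1) 0 (by push_cast; linarith) (by push_cast; linarith),
      Q_zone (θ := x 1 - L * Real.cos (2 * Real.pi * x 0)) (L : ℤ) ht1 ht2, zpow_zero,
      zpow_natCast]
    have hone : (1 : Equiv.Perm (ℝ × ℝ)).symm (x 2 + j / (4 * K) * M⁻¹,
        x 3 + j / (4 * K) * M⁻¹ * g) = (x 2 + j / (4 * K) * M⁻¹, x 3 + j / (4 * K) * M⁻¹ * g) := rfl
    rw [hone]
    have hp : M * ((x 2 + j / (4 * K) * M⁻¹) + g * (x 3 + j / (4 * K) * M⁻¹ * g)) =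
        P0 + j / (4 * K) * (1 + g ^ 2) := by
      rw [hP0]
      field_simp
      ring
    have hw : (x 3 + j / (4 * K) * M⁻¹ * g) - g * (x 2 + j / (4 * K) * M⁻¹) = w0 := by
      rw [hw0]
      ring
    have hlin := S1_lin L (x 2 + j / (4 * K) * M⁻¹, x 3 + j / (4 * K) * M⁻¹ * g) (by
      simp only
      rw [← hg, ← hM]
      have e1 : M * |(x 2 + j / (4 * K) * M⁻¹) + g * (x 3 + j / (4 * K) * M⁻¹ * g)| =
          |P0 + j / (4 * K) * (1 + g ^ 2)| := by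
        rw [← hp, abs_mul, abs_of_pos hM0]
      rw [e1]
      have e2 : |(j : ℝ) / (4 * K) * (1 + g ^ 2)| ≤ 1 / 32 * (1 + g ^ 2) := by
        rw [abs_of_nonneg (by positivity)]
        exact mul_le_mul_of_nonneg_right hjK (by positivity)
      refine (abs_add_le _ _).trans ?_
      nlinarith) (by
      simp only
      rw [← hg, hw]
      nlinarith)
    simp only at hlin
    rw [← hg, ← hM, hp, hw] at hlin
    rw [hlin]
    have hfin : (P0 + j / (4 * K) * (1 + g ^ 2) - g * (M⁻¹ * w0)) / (1 + g ^ 2) =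
        X + j / (4 * K) := by
      rw [hX]
      field_simp
      ring
    rw [hfin]
    have harg : 2 * Real.pi * K * (X + j / (4 * K)) = 2 * Real.pi * K * X + j * (Real.pi / 2) := by
      field_simp
      ring
    rw [harg]
    ring

private lemma LowM_even {j : ℕ} (hj : Even j) (y : ℝ) :
    Real.sin (y + j * (Real.pi / 2)) = Real.sin y ∨ Real.sin (y + j * (Real.pi / 2)) = -Real.sin y := by
  obtain ⟨k, rfl⟩ := hj
  have e : y + ((k + k : ℕ) : ℝ) * (Real.pi / 2) = y + k * Real.pi := by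
    push_cast
    ring
  rw [e, Real.sin_add_nat_mul_pi]
  rcases neg_one_pow_eq_or ℝ k with h | h
  · left; rw [h, one_mul]
  · right; rw [h, neg_one_mul]

private lemma LowM_odd {j : ℕ} (hj : ¬ Even j) (y : ℝ) :
    Real.sin (y + j * (Real.pi / 2)) = Real.cos y ∨ Real.sin (y + j * (Real.pi / 2)) = -Real.cos y := by
  obtain ⟨k, rfl⟩ := Nat.not_even_iff_odd.1 hj
  have e : y + ((2 * k + 1 : ℕ) : ℝ) * (Real.pi / 2) = (y + Real.pi / 2) + k * Real.pi := by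
    push_cast
    ring
  rw [e, Real.sin_add_nat_mul_pi, Real.sin_add_pi_div_two]
  rcases neg_one_pow_eq_or ℝ k with h | h
  · left; rw [h, one_mul]
  · right; rw [h, neg_one_mul]

private lemma LowM_meas {φ : ℝ → Torus 6 → Torus 6} {h : ℝ} (hφ : Measurable (φ h)) (m : ℕ) :
    ∀ {R : Torus 6 → ℝ} {B : ℝ}, Measurable R → (∀ θ, |R θ| ≤ B) →
      Measurable ((DD φ h)^[m] R) ∧ ∀ θ, |(DD φ h)^[m] R θ| ≤ 2 ^ m * B := by
  induction m with
  | zero =>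
    intro R B hR hB
    exact ⟨hR, fun θ => by simpa using hB θ⟩
  | succ m ih =>
    intro R B hR hB
    obtain ⟨h1, h2⟩ := ih hR hB
    rw [Function.iterate_succ_apply']
    refine ⟨h1.sub (h1.comp hφ), fun θ => ?_⟩
    show |(DD φ h)^[m] R θ - (DD φ h)^[m] R (φ h θ)| ≤ _
    have h3 := h2 θ
    have h4 := h2 (φ h θ)
    have h5 := abs_sub ((DD φ h)^[m] R θ) ((DD φ h)^[m] R (φ h θ))
    rw [pow_succ]
    linarith

theorem low_pt (hν : 0 ≤ ν) (hdl : 0 ≤ dl) (hdl1 : dl ≤ 1 / 10) (hm : 1 ≤ m) (hK : 8 * m ≤ K) (hL : 1 ≤ L) {x : Euc 6}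
    (h0 : |x 0 - 1 / 2| ≤ 1 / (256 * L)) (h1 : |x 1 - 3 / 80| ≤ 1 / 80)
    (h2 : |x 2| ≤ 1 / (60 * K) * ((gg ^ 2) ^ L)⁻¹) (h3 : |x 3| ≤ 1 / (60 * K) * ((gg ^ 2) ^ L)⁻¹) :
    al ν * (dl * Real.exp (-(4 * L / 25))) ^ 2 / 4 ≤
      |(DD (fun t => torusMap (sht L t)) (((gg ^ 2) ^ L * (4 * K * Real.exp (-(4 * L / 25))))⁻¹))^[m]
        (RT ν K L dl) (proj x)| := by
  obtain ⟨y, hy, hE⟩ := LowM_EE (dl := dl) hK hm hL h0 h1 h2 h3
  set β : ℝ := Real.exp (-(4 * L / 25)) with hβ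
  set h : ℝ := ((gg ^ 2) ^ L * (4 * K * β))⁻¹ with hh
  have hβ0 : 0 < β := Real.exp_pos _
  have hβ1 : β ≤ 1 := by
    rw [hβ]
    apply Real.exp_le_one_iff.2
    have : (0 : ℝ) ≤ 4 * L / 25 := by positivity
    linarith
  have hal0 := al_nonneg hν
  have hal1 := al_le ν
  have hval : ∀ j ≤ m, RT ν K L dl (torusMap (sht L (j * h)) (proj x)) =
      Ph (al ν) (dl * β * Real.sin (y + j * (Real.pi / 2))) := by
    intro j hj
    rw [sht_proj, RT_proj, hE j hj]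
  have halt := DD_alt (φ := fun t => torusMap (sht L t)) (fun s t θ => sht_add L s t θ)
    LowM_map_zero (R := RT ν K L dl) (h := h) (x := proj x) hm
    (a := Ph (al ν) (dl * β * Real.sin y)) (b := Ph (al ν) (dl * β * Real.cos y))
    (fun j hj hje => by
      show RT ν K L dl (torusMap (sht L (j * h)) (proj x)) = _
      rw [hval j hj]
      rcases LowM_even hje y with e | e
      · rw [e]
      · rw [e, mul_neg, Ph_even])
    (fun j hj hjo => by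
      show RT ν K L dl (torusMap (sht L (j * h)) (proj x)) = _
      rw [hval j hj]
      rcases LowM_odd hjo y with e | e
      · rw [e]
      · rw [e, mul_neg, Ph_even])
  rw [halt, abs_mul, abs_of_pos (by positivity : (0 : ℝ) < 2 ^ (m - 1))]
  have hdβ : dl * β ≤ 1 / 10 := by nlinarith
  have hdβ0 : 0 ≤ dl * β := by positivity
  have hsmall : ∀ z : ℝ, |z| ≤ 1 → |dl * β * z| ≤ 1 / 10 := by
    intro z hz
    rw [abs_mul, abs_of_nonneg hdβ0]
    calc dl * β * |z| ≤ dl * β * 1 := mul_le_mul_of_nonneg_left hz hdβ0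
      _ ≤ 1 / 10 := by linarith
  have hup := Ph_upper hal0 hal1 (hsmall _ (Real.abs_sin_le_one y))
  have hlo := Ph_lower hal0 hal1 (hsmall _ (Real.abs_cos_le_one y))
  have hsin : Real.sin y ^ 2 ≤ 1 / 16 := by
    rw [← sq_abs]
    calc |Real.sin y| ^ 2 ≤ (1 / 4) ^ 2 :=
          pow_le_pow_left₀ (abs_nonneg _) (Real.abs_sin_le_abs.trans hy) 2
      _ = 1 / 16 := by norm_num
  have hcos : Real.cos y ^ 2 = 1 - Real.sin y ^ 2 := by
    linarith [Real.sin_sq_add_cos_sq y]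
  have hA : 0 ≤ al ν * (dl * β) ^ 2 := by positivity
  have hdiff : al ν * (dl * β) ^ 2 / 4 ≤
      Ph (al ν) (dl * β * Real.sin y) - Ph (al ν) (dl * β * Real.cos y) := by
    have e1 : al ν * (dl * β * Real.cos y) ^ 2 = al ν * (dl * β) ^ 2 * (1 - Real.sin y ^ 2) := by
      rw [← hcos]; ring
    have e2 : al ν * (dl * β * Real.sin y) ^ 2 = al ν * (dl * β) ^ 2 * Real.sin y ^ 2 := by ring
    rw [e1] at hlo
    rw [e2] at hup
    have h5 := mul_le_mul_of_nonneg_left hsin hA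
    linarith
  have h6 : (1 : ℝ) ≤ 2 ^ (m - 1) := one_le_pow₀ (by norm_num)
  have h7 := le_abs_self (Ph (al ν) (dl * β * Real.sin y) - Ph (al ν) (dl * β * Real.cos y))
  have h8 := abs_nonneg (Ph (al ν) (dl * β * Real.sin y) - Ph (al ν) (dl * β * Real.cos y))
  nlinarith

theorem low (hν : 0 ≤ ν) (hdl : 0 ≤ dl) (hdl1 : dl ≤ 1 / 10) (hm : 1 ≤ m) (hK : 8 * m ≤ K) (hL : 1 ≤ L)
    (hc : Continuous (RT ν K L dl)) :
    (al ν * (dl * Real.exp (-(4 * L / 25))) ^ 2 / 4) ^ 2 *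
        (1 / (128 * L) * (1 / 40) * (1 / (30 * K) * ((gg ^ 2) ^ L)⁻¹) ^ 2) ≤
      ∫ θ : Torus 6, ((DD (fun t => torusMap (sht L t))
        (((gg ^ 2) ^ L * (4 * K * Real.exp (-(4 * L / 25))))⁻¹))^[m] (RT ν K L dl) θ) ^ 2 := by
  have hL0 : (0 : ℝ) < L := by exact_mod_cast hL
  have hL1 : (1 : ℝ) ≤ L := by exact_mod_cast hL
  have hK8 : (8 : ℝ) ≤ K := by exact_mod_cast (by omega : 8 ≤ K)
  have hK0 : (0 : ℝ) < K := by linarith
  have hM1 : 1 ≤ (gg ^ 2) ^ L := by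
    apply one_le_pow₀
    nlinarith [gg_gt]
  have hMi : ((gg ^ 2) ^ L)⁻¹ ≤ 1 := inv_le_one_of_one_le₀ hM1
  have hMi0 : 0 < ((gg ^ 2) ^ L)⁻¹ := inv_pos.2 (by linarith)
  obtain ⟨δ, hδ⟩ : ∃ δ, δ = 1 / (60 * (K : ℝ)) * ((gg ^ 2) ^ L)⁻¹ := ⟨_, rfl⟩
  have hδ0 : 0 ≤ δ := by rw [hδ]; positivity
  have hδ1 : δ ≤ 1 / 2 := by
    have h1 : 1 / (60 * (K : ℝ)) ≤ 1 / 2 := by
      apply one_div_le_one_div_of_le (by norm_num)
      linarith
    rw [hδ]
    calc 1 / (60 * (K : ℝ)) * ((gg ^ 2) ^ L)⁻¹ ≤ 1 / 2 * 1 :=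
          mul_le_mul h1 hMi hMi0.le (by norm_num)
      _ = 1 / 2 := by norm_num
  obtain ⟨B, hBm, hBv, hB⟩ := exists_box ![1 / 2, 3 / 80, 0, 0, 0, 0]
    ![1 / (256 * (L : ℝ)), 1 / 80, δ, δ, 1 / 2, 1 / 2]
    (by
      intro i
      fin_cases i
      · show (0 : ℝ) ≤ 1 / (256 * (L : ℝ)); positivity
      · show (0 : ℝ) ≤ 1 / 80; norm_num
      · exact hδ0
      · exact hδ0
      · show (0 : ℝ) ≤ 1 / 2; norm_num
      · show (0 : ℝ) ≤ 1 / 2; norm_num)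
    (by
      intro i
      fin_cases i
      · show 1 / (256 * (L : ℝ)) ≤ 1 / 2
        apply one_div_le_one_div_of_le (by norm_num)
        linarith
      · show (1 : ℝ) / 80 ≤ 1 / 2; norm_num
      · exact hδ1
      · exact hδ1
      · show (1 : ℝ) / 2 ≤ 1 / 2; norm_num
      · show (1 : ℝ) / 2 ≤ 1 / 2; norm_num)
  set h : ℝ := ((gg ^ 2) ^ L * (4 * K * Real.exp (-(4 * L / 25))))⁻¹ with hh
  set g : Torus 6 → ℝ := (DD (fun t => torusMap (sht L t)) h)^[m] (RT ν K L dl) with hg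
  set c₀ : ℝ := al ν * (dl * Real.exp (-(4 * L / 25))) ^ 2 / 4 with hc₀
  have hc₀0 : 0 ≤ c₀ := by
    have := al_nonneg hν
    positivity
  obtain ⟨C, hC⟩ := (isCompact_univ (X := Torus 6)).exists_bound_of_continuousOn hc.continuousOn
  obtain ⟨hgm, hgb⟩ := LowM_meas (φ := fun t => torusMap (sht L t)) (h := h)
    (sht_preserves L h).measurable m (R := RT ν K L dl) (B := C) hc.measurable
    (fun θ => hC θ (mem_univ θ))
  have hgi : Integrable (fun θ => g θ ^ 2) (volume : Measure (Torus 6)) := by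
    refine Integrable.of_bound (hgm.pow_const 2).aestronglyMeasurable ((2 ^ m * C) ^ 2)
      (Eventually.of_forall fun θ => ?_)
    rw [norm_pow]
    exact pow_le_pow_left₀ (norm_nonneg _) (hgb θ) 2
  have hpt : ∀ θ ∈ B, c₀ ^ 2 ≤ g θ ^ 2 := by
    intro θ hθ
    obtain ⟨x, hx, hxi⟩ := hB θ hθ
    have h1 := low_pt (ν := ν) (K := K) (L := L) (m := m) (dl := dl) hν hdl hdl1 hm hK hL (x := x)
      (hxi 0) (hxi 1) (by
        have := hxi 2
        rw [← hδ]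
        simpa using this) (by
        have := hxi 3
        rw [← hδ]
        simpa using this)
    rw [hx] at h1
    rw [← sq_abs (g θ)]
    exact pow_le_pow_left₀ hc₀0 h1 2
  have hvol : (volume : Measure (Torus 6)).real B =
      1 / (128 * L) * (1 / 40) * (1 / (30 * K) * ((gg ^ 2) ^ L)⁻¹) ^ 2 := by
    rw [hBv, Fin.prod_univ_six]
    show 2 * (1 / (256 * (L : ℝ))) * (2 * (1 / 80)) * (2 * δ) * (2 * δ) * (2 * (1 / 2)) *
      (2 * (1 / 2)) = _
    rw [hδ]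
    field_simp
    norm_num
  calc c₀ ^ 2 * (1 / (128 * L) * (1 / 40) * (1 / (30 * K) * ((gg ^ 2) ^ L)⁻¹) ^ 2)
      = ∫ _θ in B, c₀ ^ 2 := by
        rw [setIntegral_const, hvol, smul_eq_mul]
        ring
    _ ≤ ∫ θ in B, g θ ^ 2 := by
        refine setIntegral_mono_on (integrableOn_const (measure_ne_top _ _)) hgi.integrableOn hBm hpt
    _ ≤ ∫ θ, g θ ^ 2 :=
        setIntegral_le_integral hgi (Eventually.of_forall fun θ => sq_nonneg (g θ))

end Pool.Agent.H20.VL
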