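import Pool.Agent.H20.VL.Defs

/-!
# Module PathM: the path of the parameters (about 200 lines)

`η` = smooth bump on `ℝ`, `η = 1` on `[1, 3/2]`, `η = 0` outside `(17/20, 33/20)` (`ContDiffBump` with centre `5/4`, `rIn = 1/4`, `rOut = 2/5`).
LEMMA: `ζ : ℝ → ℝ` smooth with compact support, `|a j| ≤ C 2^(-j²)` (`C ≥ 0`). Then `τ ↦ ∑' j, a j * ζ (2^j τ)` is `C^∞`: `contDiff_tsum` with `v k j = C 2^(-j²) 2^(jk) M_k`,
`M_k = sup |iteratedFDeriv k ζ|` (finite: compact support); `iteratedFDeriv` (or `iteratedDeriv`) of `τ ↦ ζ (2^j τ)` is bounded by `2^(jk) M_k`; summable since `2^(jk - j²) ≤ 2^(k²) 2^(-j)`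
(`jk - j² ≤ k² - j` for all natural `j, k`).
Put (all sums over `j : ℕ`, with coefficient `0` for `j = 0`): `r τ = ∑ rr(2^(j²)) η(2^j τ)`, `t τ = ∑ 2^(-j²) (2^j τ - 5/4) η(2^j τ)` (`ζ x = (x - 5/4) η x`), `c τ = π/32 + ∑ (cc(2^(j²)) - π/32) η(2^j τ)`, with
`|cc L - π/32| = L |sin x - x| ≤ L x³ ≤ 1/L`, `x = π/(32 L) ≤ 1` (`Real.sin_bound` or `x - x³/4 < sin x < x`).
Window: if `|2^j τ - 5/4| ≤ 1/4`, `j ≥ 1`, then `2^j τ ∈ [1, 3/2]`, `η(2^j τ) = 1`; for `i > j`: `2^i τ ≥ 2`, for `i < j`: `2^i τ ≤ 3/4`: `η(2^i τ) = 0`. So only the term `i = j` remains (`tsum_eq_single`).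
-/

set_option autoImplicit false

open MeasureTheory Set Filter Topology ContDiff
open Pool.Agent.H14.Lyap

namespace Pool.Agent.H20.VL

private lemma pm_pow (j k : ℕ) : (2 : ℝ) ^ (j * k) * (1 / 2) ^ (j ^ 2) ≤ 2 ^ (k ^ 2) * (1 / 2) ^ j := by
  have h1 : j * k + j ≤ k ^ 2 + j ^ 2 := by
    rcases Nat.eq_zero_or_pos k with rfl | hk
    · have : j ≤ j ^ 2 := by nlinarith [Nat.zero_le j, Nat.le_mul_self j]
      simpa using this
    · zify
      have hk' : (1 : ℤ) ≤ k := by exact_mod_cast hk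
      nlinarith [sq_nonneg ((j : ℤ) - k), sq_nonneg (2 * (j : ℤ) - k - 1)]
  have h2 : (2 : ℝ) ^ (j * k) * 2 ^ j ≤ 2 ^ (k ^ 2) * 2 ^ (j ^ 2) := by
    rw [← pow_add, ← pow_add]
    exact pow_le_pow_right₀ (by norm_num) h1
  have h3 : (0 : ℝ) < 2 ^ (j ^ 2) := by positivity
  have h4 : (0 : ℝ) < 2 ^ j := by positivity
  rw [one_div, inv_pow, inv_pow, ← div_eq_mul_inv, ← div_eq_mul_inv, div_le_div_iff₀ h3 h4]
  exact h2

private lemma pm_smooth {ζ : ℝ → ℝ} (hζ : ContDiff ℝ ∞ ζ) (hs : HasCompactSupport ζ) {a : ℕ → ℝ}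
    {C : ℝ} (ha : ∀ j, |a j| ≤ C * (1 / 2) ^ (j ^ 2)) :
    ContDiff ℝ ∞ fun τ => ∑' j, a j * ζ (2 ^ j * τ) := by
  have hC : 0 ≤ C := by
    have := (abs_nonneg _).trans (ha 0)
    simpa using this
  have hM : ∀ k : ℕ, ∃ M : ℝ, ∀ x, ‖iteratedFDeriv ℝ k ζ x‖ ≤ M := fun k =>
    (hζ.continuous_iteratedFDeriv (by exact_mod_cast le_top)).bounded_above_of_compact_support
      (hs.iteratedFDeriv k)
  choose M hM using hM
  refine contDiff_tsum (v := fun k j => C * (M k * (2 ^ (k ^ 2) * (1 / 2) ^ j))) (fun j => ?_)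
    (fun k _ => ?_) (fun k j x _ => ?_)
  · exact contDiff_const.mul (hζ.comp (contDiff_const.mul contDiff_id))
  · refine Summable.mul_left _ (Summable.mul_left _ (Summable.mul_left _ ?_))
    exact summable_geometric_of_lt_one (by norm_num) (by norm_num)
  · have hMk : 0 ≤ M k := (norm_nonneg _).trans (hM k 0)
    have hk : ContDiff ℝ k ζ := hζ.of_le (by exact_mod_cast le_top)
    have e1 : iteratedDeriv k (fun τ => a j * ζ (2 ^ j * τ)) x =
        a j * ((2 ^ j) ^ k * iteratedDeriv k ζ (2 ^ j * x)) := by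
      rw [iteratedDeriv_const_mul_field]
      rw [iteratedDeriv_comp_const_mul hk]
    rw [norm_iteratedFDeriv_eq_norm_iteratedDeriv, e1, norm_mul, norm_mul]
    have h1 : ‖iteratedDeriv k ζ (2 ^ j * x)‖ ≤ M k := by
      rw [← norm_iteratedFDeriv_eq_norm_iteratedDeriv]; exact hM k _
    have h2 : ‖((2 : ℝ) ^ j) ^ k‖ = 2 ^ (j * k) := by
      rw [← pow_mul, Real.norm_eq_abs, abs_of_pos (by positivity)]
    rw [h2, Real.norm_eq_abs]
    calc |a j| * (2 ^ (j * k) * ‖iteratedDeriv k ζ (2 ^ j * x)‖)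
        ≤ (C * (1 / 2) ^ (j ^ 2)) * (2 ^ (j * k) * M k) := by
          have := ha j
          gcongr
      _ = C * (M k * (2 ^ (j * k) * (1 / 2) ^ (j ^ 2))) := by ring
      _ ≤ C * (M k * (2 ^ (k ^ 2) * (1 / 2) ^ j)) := by
          have := pm_pow j k
          gcongr

/-- the bump -/
private noncomputable def pmB : ContDiffBump (5 / 4 : ℝ) where
  rIn := 1 / 4
  rOut := 2 / 5
  rIn_pos := by norm_num
  rIn_lt_rOut := by norm_num

private noncomputable def pmE (x : ℝ) : ℝ := pmB x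

private lemma pmE_smooth : ContDiff ℝ ∞ pmE := pmB.contDiff

private lemma pmE_supp : HasCompactSupport pmE := pmB.hasCompactSupport

private lemma pmE_one {x : ℝ} (h : |x - 5 / 4| ≤ 1 / 4) : pmE x = 1 := by
  refine pmB.one_of_mem_closedBall ?_
  rw [Metric.mem_closedBall, Real.dist_eq]
  exact h

private lemma pmE_zero {x : ℝ} (h : 2 / 5 ≤ |x - 5 / 4|) : pmE x = 0 := by
  refine pmB.zero_of_le_dist ?_
  rw [Real.dist_eq]
  exact h

private lemma pm_window {a : ℕ → ℝ} {ζ : ℝ → ℝ} (hζ : ∀ x, 2 / 5 ≤ |x - 5 / 4| → ζ x = 0) {j : ℕ}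
    {τ : ℝ} (h : |2 ^ j * τ - 5 / 4| ≤ 1 / 4) :
    ∑' i, a i * ζ (2 ^ i * τ) = a j * ζ (2 ^ j * τ) := by
  rw [abs_le] at h
  refine tsum_eq_single j fun i hi => ?_
  rw [hζ, mul_zero]
  rcases lt_or_gt_of_ne hi with h1 | h1
  · obtain ⟨k, rfl⟩ : ∃ k, j = i + (k + 1) := ⟨j - i - 1, by omega⟩
    have e : (2 : ℝ) ^ (i + (k + 1)) * τ = 2 ^ (k + 1) * (2 ^ i * τ) := by rw [pow_add]; ring
    rw [e] at h
    have h2 : (2 : ℝ) ≤ 2 ^ (k + 1) := by
      rw [pow_succ]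
      have : (1 : ℝ) ≤ 2 ^ k := one_le_pow₀ (by norm_num)
      linarith
    have h3 : 2 ^ i * τ ≤ 3 / 4 := by
      by_contra hc
      push Not at hc
      nlinarith
    rw [abs_of_neg (by linarith)]
    linarith
  · obtain ⟨k, rfl⟩ : ∃ k, i = j + (k + 1) := ⟨i - j - 1, by omega⟩
    have e : (2 : ℝ) ^ (j + (k + 1)) * τ = 2 ^ (k + 1) * (2 ^ j * τ) := by rw [pow_add]; ring
    rw [e]
    have h2 : (2 : ℝ) ≤ 2 ^ (k + 1) := by
      rw [pow_succ]
      have : (1 : ℝ) ≤ 2 ^ k := one_le_pow₀ (by norm_num)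
      linarith
    have h3 : 2 ≤ 2 ^ (k + 1) * (2 ^ j * τ) := by nlinarith
    rw [abs_of_pos (by linarith)]
    linarith

private lemma pm_rr (j : ℕ) : |rr (2 ^ (j ^ 2))| ≤ 1 * (1 / 2) ^ (j ^ 2) := by
  unfold rr
  rw [one_mul, abs_of_nonneg (by positivity), one_div, one_div, inv_pow]
  apply inv_anti₀ (by positivity)
  push_cast
  have : (0 : ℝ) < 2 ^ (j ^ 2) := by positivity
  linarith

private lemma pm_cc (j : ℕ) : |cc (2 ^ (j ^ 2)) - Real.pi / 32| ≤ 1 * (1 / 2) ^ (j ^ 2) := by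
  unfold cc
  push_cast
  set L : ℝ := 2 ^ (j ^ 2) with hL
  have hL1 : 1 ≤ L := one_le_pow₀ (by norm_num)
  have hL0 : 0 < L := by linarith
  have hπ := Real.pi_pos
  have hπ4 := Real.pi_le_four
  set x : ℝ := Real.pi / (32 * L) with hx
  have hx0 : 0 < x := by positivity
  have hx1 : x ≤ 1 / (8 * L) := by
    rw [hx, div_le_div_iff₀ (by positivity) (by positivity)]
    nlinarith
  have hx2 : x ≤ 1 := hx1.trans (by rw [div_le_one (by positivity)]; linarith)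
  have e : Real.pi / 32 = L * x := by rw [hx]; field_simp
  have h1 := Real.sin_lt hx0
  have h2 := Real.sin_gt_sub_cube hx0
  have e2 : L * Real.sin x - Real.pi / 32 = -(L * (x - Real.sin x)) := by rw [e]; ring
  have h3 : 0 ≤ L * (x - Real.sin x) := mul_nonneg hL0.le (by linarith)
  have e3 : (1 / 2 : ℝ) ^ (j ^ 2) = 1 / L := by rw [hL, one_div, one_div, inv_pow]
  rw [e2, abs_neg, abs_of_nonneg h3, one_mul, e3, le_div_iff₀ hL0]
  have h4 : x - Real.sin x ≤ x ^ 3 / 4 := by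
    have : 0 < x ^ 3 := by positivity
    linarith
  have h5 : L * x ≤ 1 / 8 := by
    have := mul_le_mul_of_nonneg_left hx1 hL0.le
    calc L * x ≤ L * (1 / (8 * L)) := this
      _ = 1 / 8 := by field_simp
  have h6 : 0 ≤ L * x := by positivity
  calc L * (x - Real.sin x) * L ≤ L * (x ^ 3 / 4) * L := by gcongr
    _ = (L * x) ^ 2 * x / 4 := by ring
    _ ≤ 1 := by nlinarith [mul_nonneg h6 hx0.le, sq_nonneg (L * x)]

theorem exists_path : Nonempty Path := by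
  set ar : ℕ → ℝ := fun j => rr (2 ^ (j ^ 2)) with har
  set ac : ℕ → ℝ := fun j => cc (2 ^ (j ^ 2)) - Real.pi / 32 with hac
  set at' : ℕ → ℝ := fun j => (1 / 2) ^ (j ^ 2) with hat
  set ζ : ℝ → ℝ := fun x => (x - 5 / 4) * pmE x with hζd
  have hζ : ContDiff ℝ ∞ ζ := (contDiff_id.sub contDiff_const).mul pmE_smooth
  have hζs : HasCompactSupport ζ := pmE_supp.mul_left
  have hζ0 : ∀ x, 2 / 5 ≤ |x - 5 / 4| → ζ x = 0 := fun x hx => by
    rw [hζd]; simp only; rw [pmE_zero hx, mul_zero]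
  have hat1 : ∀ j, |at' j| ≤ 1 * (1 / 2) ^ (j ^ 2) := fun j => by
    rw [hat, one_mul, abs_of_nonneg (by positivity)]
  refine ⟨{ r := fun τ => ∑' j, ar j * pmE (2 ^ j * τ)
            c := fun τ => Real.pi / 32 + ∑' j, ac j * pmE (2 ^ j * τ)
            t := fun τ => ∑' j, at' j * ζ (2 ^ j * τ)
            hr := pm_smooth pmE_smooth pmE_supp pm_rr
            hc := contDiff_const.add (pm_smooth pmE_smooth pmE_supp pm_cc)
            ht := pm_smooth hζ hζs hat1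
            win := fun j _ τ h => ⟨?_, ?_, ?_⟩ }⟩
  · rw [pm_window (fun x hx => pmE_zero hx) h, pmE_one h, mul_one]
  · rw [pm_window (fun x hx => pmE_zero hx) h, pmE_one h, mul_one, hac]
    ring
  · rw [pm_window hζ0 h, hζd, hat]
    simp only
    rw [pmE_one h, one_div, inv_pow]
    rw [mul_one, inv_mul_eq_div]

end Pool.Agent.H20.VL
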