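import Pool.Agent.H20.VL.LiftM
import Pool.Agent.H20.VL.ExpM
import Pool.Agent.H20.VL.PathM
import Pool.Agent.H20.VL.ExpErr
import Pool.Agent.H20.VL.LowM
import Pool.Agent.H20.VL.DDM
import Pool.Agent.H20.VL.AsyM

/-!
# Assembly
-/

set_option autoImplicit false

open MeasureTheory Set Filter Topology ContDiff
open Pool.Agent.H14.Lyap

namespace Pool.Agent.H20.VL

noncomputable section

instance prob6 : IsProbabilityMeasure (volume : Measure (Torus 6)) := by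
  constructor
  rw [volume_pi, Measure.pi_univ]
  simp

lemma sht_zero (L : ℕ) (θ : Torus 6) : H14.Lyap.torusMap (sht L 0) θ = θ := by
  have h : ∀ x : Euc 6, sht L 0 x = x := by
    intro x
    unfold sht
    have h0 : sh (rr L) 0 (x 0) = 0 := by unfold sh; ring
    rw [h0]
    apply ext6 <;> simp
  unfold H14.Lyap.torusMap
  rw [h, proj_rep]

/-- numbers of the window -/
def hh (K L : ℕ) : ℝ := ((gg ^ 2) ^ L * (4 * K * Real.exp (-(4 * L / 25))))⁻¹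

lemma hh_nonneg (K L : ℕ) : 0 ≤ hh K L := by
  unfold hh
  have := gg_pos
  positivity

lemma exp_425 : Real.exp (4 / 25) ≤ 128 / 100 := by
  have h1 : Real.exp (4 / 25 : ℝ) ^ 6 ≤ (128 / 100 : ℝ) ^ 6 := by
    rw [← Real.exp_nat_mul]
    have h2 : ((6 : ℕ) : ℝ) * (4 / 25) ≤ 1 := by norm_num
    calc Real.exp (((6 : ℕ) : ℝ) * (4 / 25)) ≤ Real.exp 1 := Real.exp_le_exp.mpr h2
      _ ≤ 2.7182818286 := Real.exp_one_lt_d9.le
      _ ≤ (128 / 100 : ℝ) ^ 6 := by norm_num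
  exact le_of_pow_le_pow_left₀ (by norm_num) (by norm_num) h1

lemma hh_small {K L : ℕ} (hK : 8 ≤ K) : L * hh K L ≤ 1 / (4 * K) := by
  have hg : (256 / 100 : ℝ) ≤ gg ^ 2 := by
    have := gg_gt
    nlinarith
  have h2 : (2 : ℝ) ^ L ≤ (gg ^ 2) ^ L * Real.exp (-(4 * L / 25)) := by
    have e1 : Real.exp (-(4 * (L : ℝ) / 25)) = (Real.exp (4 / 25) ^ L)⁻¹ := by
      rw [Real.exp_neg, ← Real.exp_nat_mul]
      congr 2
      ring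
    rw [e1, ← div_eq_mul_inv, ← div_pow]
    apply pow_le_pow_left₀ (by norm_num)
    rw [le_div_iff₀ (Real.exp_pos _)]
    have := exp_425
    linarith
  have h3 : (L : ℝ) ≤ 2 ^ L := by
    have : L ≤ 2 ^ L := (Nat.lt_pow_self (by norm_num)).le
    exact_mod_cast this
  have hK0 : (0 : ℝ) < K := by
    have : 0 < K := by omega
    exact_mod_cast this
  have h4 : (gg ^ 2) ^ L * (4 * K * Real.exp (-(4 * L / 25))) =
      4 * K * ((gg ^ 2) ^ L * Real.exp (-(4 * L / 25))) := by ring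
  unfold hh
  rw [h4]
  have h5 : (0 : ℝ) < (gg ^ 2) ^ L * Real.exp (-(4 * L / 25)) :=
    lt_of_lt_of_le (by positivity) h2
  rw [mul_inv, ← mul_assoc, mul_comm (L : ℝ), mul_assoc, one_div]
  have h6 : (L : ℝ) * ((gg ^ 2) ^ L * Real.exp (-(4 * L / 25)))⁻¹ ≤ 1 := by
    rw [← div_eq_mul_inv, div_le_one h5]
    exact h3.trans h2
  calc (4 * (K : ℝ))⁻¹ * ((L : ℝ) * ((gg ^ 2) ^ L * Real.exp (-(4 * L / 25)))⁻¹)
      ≤ (4 * (K : ℝ))⁻¹ * 1 := by gcongr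
    _ = _ := mul_one _

variable {p : Path} (a : Par p)

/-- the exponent as a function of the parameter -/
def GE (τ : ℝ) : ℝ := if h : τ ∈ Icc (-1 : ℝ) 1 then ∫ θ : Torus 6, Real.log ((a.D τ h).S.m θ) else 0

/-- the correlation function of the window -/
def CR (ν : ℝ) (K L : ℕ) (dl t : ℝ) : ℝ :=
  ∫ θ : Torus 6, RT ν K L dl θ * RT ν K L dl (H14.Lyap.torusMap (sht L t) θ)

/-- its main part in the window `j` -/
def KE (j : ℕ) (s : ℝ) : ℝ :=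
  (-Real.log (a.ν ^ 2) - (∫ θ : Torus 6, lT a.ν a.K (2 ^ (j ^ 2)) a.dl θ)) +
    (al a.ν ^ 2 * ((a.ν ^ 2)⁻¹) ^ (64 * 2 ^ (j ^ 2))) *
      CR a.ν a.K (2 ^ (j ^ 2)) a.dl (2 ^ j / 2 ^ (j ^ 2) * s + -(5 / 4) / 2 ^ (j ^ 2))

lemma GE_KE {j : ℕ} (hj : 1 ≤ j) {s : ℝ} (h : |2 ^ j * s - 5 / 4| ≤ 1 / 4) :
    |GE a s - KE a j s| ≤ 10 * ((a.ν ^ 2)⁻¹) ^ (128 * 2 ^ (j ^ 2)) := by
  have hs : s ∈ Icc (-1 : ℝ) 1 := Ioo_subset_Icc_self (Par.win_mem hj h)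
  have h1 := exp_err (a.wd hj h hs) a.hn (Nat.one_le_two_pow)
  have h2 : GE a s = ∫ θ : Torus 6, Real.log ((a.wd hj h hs).D.S.m θ) := by
    unfold GE
    rw [dif_pos hs]
    rfl
  have h3 : (2 ^ j * s - 5 / 4) / 2 ^ (j ^ 2) =
      2 ^ j / 2 ^ (j ^ 2) * s + -(5 / 4) / 2 ^ (j ^ 2) := by ring
  rw [h2]
  unfold KE
  rw [← h3]
  exact h1

lemma KE_dd {j : ℕ} (hj : 1 ≤ j) :
    (dd (hh a.K (2 ^ (j ^ 2)) * (2 ^ (j ^ 2) / 2 ^ j)))^[a.m] (KE a j) (5 / 4 / 2 ^ j) =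
      (al a.ν ^ 2 * ((a.ν ^ 2)⁻¹) ^ (64 * 2 ^ (j ^ 2))) *
        ∫ θ : Torus 6, ((DD (fun t => H14.Lyap.torusMap (sht (2 ^ (j ^ 2)) t)) (hh a.K (2 ^ (j ^ 2))))^[a.m]
          (RT a.ν a.K (2 ^ (j ^ 2)) a.dl) θ) ^ 2 := by
  have hw : |2 ^ j * (5 / 4 / 2 ^ j) - 5 / 4| ≤ (1 / 4 : ℝ) := by
    have : (2 : ℝ) ^ j * (5 / 4 / 2 ^ j) - 5 / 4 = 0 := by field_simp; norm_num
    rw [this]; norm_num
  have hs : 5 / 4 / 2 ^ j ∈ Icc (-1 : ℝ) 1 := Ioo_subset_Icc_self (Par.win_mem hj hw)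
  have hc := RT_cont (a.wd hj hw hs) (Nat.one_le_two_pow)
  obtain ⟨B, hB⟩ := isCompact_univ.exists_bound_of_continuousOn hc.continuousOn
  have hcorr := dd_corr (μ := (volume : Measure (Torus 6)))
    (φ := fun t => H14.Lyap.torusMap (sht (2 ^ (j ^ 2)) t)) (sht_preserves (2 ^ (j ^ 2)))
    (fun s t x => sht_add (2 ^ (j ^ 2)) s t x) (sht_zero (2 ^ (j ^ 2))) hc.measurable
    (fun x => by simpa using hB x (mem_univ x)) (hh a.K (2 ^ (j ^ 2))) a.m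
  change (dd (hh a.K (2 ^ (j ^ 2))))^[a.m] (CR a.ν a.K (2 ^ (j ^ 2)) a.dl) 0 = _ at hcorr
  rw [← hcorr]
  have e0 : KE a j = fun s => (-Real.log (a.ν ^ 2) - (∫ θ : Torus 6, lT a.ν a.K (2 ^ (j ^ 2)) a.dl θ)) +
      (fun s => (al a.ν ^ 2 * ((a.ν ^ 2)⁻¹) ^ (64 * 2 ^ (j ^ 2))) *
        (fun s => CR a.ν a.K (2 ^ (j ^ 2)) a.dl (2 ^ j / 2 ^ (j ^ 2) * s + -(5 / 4) / 2 ^ (j ^ 2))) s) s :=
    rfl
  rw [e0, dd_const_add _ _ _ a.hm1, VL.dd_smul, dd_affine]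
  have e1 : (2 : ℝ) ^ j / 2 ^ (j ^ 2) * (hh a.K (2 ^ (j ^ 2)) * (2 ^ (j ^ 2) / 2 ^ j)) =
      hh a.K (2 ^ (j ^ 2)) := by field_simp
  have e2 : (2 : ℝ) ^ j / 2 ^ (j ^ 2) * (5 / 4 / 2 ^ j) + -(5 / 4) / 2 ^ (j ^ 2) = 0 := by
    field_simp
    norm_num
  rw [e1, e2]

theorem not_smooth {p : Path} (a : Par p) : ¬ ContDiffOn ℝ ∞ (GE a) (Ioo (-1) 1) := by
  intro hG
  obtain ⟨C, hC⟩ := smooth_dd_bound' hG a.m
  have hν : 0 < a.ν := by linarith [a.hν1]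
  have hal : 0 < al a.ν := by
    unfold al
    positivity
  have hdl := a.hdl
  have hK8 : 8 ≤ a.K := by
    have := a.hK; have := a.hm1
    omega
  have hKm : 8 * (a.m : ℝ) ≤ a.K := by exact_mod_cast a.hK
  have hK0 : (0 : ℝ) < a.K := by
    have : 0 < a.K := by omega
    exact_mod_cast this
  refine asy (μ := a.ν ^ 2)
    (c₀ := al a.ν ^ 2 * (al a.ν * a.dl ^ 2 / 4) ^ 2 * (1 / 128 * (1 / 40) * (1 / (30 * a.K)) ^ 2))
    (C₁ := |C|) (C₂ := 4 ^ a.m * 10) (K := a.K) (m := a.m) a.hμ (by positivity) (by omega) a.hm ?_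
  intro j hj L hL
  subst hL
  have hw : |2 ^ j * (5 / 4 / 2 ^ j) - 5 / 4| ≤ (1 / 4 : ℝ) := by
    have : (2 : ℝ) ^ j * (5 / 4 / 2 ^ j) - 5 / 4 = 0 := by field_simp; norm_num
    rw [this]; norm_num
  have hs : 5 / 4 / 2 ^ j ∈ Icc (-1 : ℝ) 1 := Ioo_subset_Icc_self (Par.win_mem hj hw)
  have hc := RT_cont (a.wd hj hw hs) (Nat.one_le_two_pow)
  obtain ⟨L, hL⟩ : ∃ L : ℕ, L = 2 ^ (j ^ 2) := ⟨_, rfl⟩
  have hLR : ((2 : ℝ) ^ (j ^ 2)) = (L : ℝ) := by rw [hL]; push_cast; rfl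
  have h2j : (2 : ℝ) ≤ 2 ^ j := by
    calc (2:ℝ) = 2 ^ 1 := by norm_num
      _ ≤ 2 ^ j := pow_le_pow_right₀ (by norm_num) hj
  have hsm : L * hh a.K L ≤ 1 / (4 * a.K) := hh_small hK8
  have hh0 := hh_nonneg a.K L
  have hh' : 0 ≤ hh a.K L * (L / 2 ^ j) := by positivity
  -- `2 ^ j * (m h') ≤ 1/32`
  have hmh : 2 ^ j * (a.m * (hh a.K L * (L / 2 ^ j))) ≤ 1 / 32 := by
    have e : 2 ^ j * (a.m * (hh a.K L * (L / 2 ^ j))) = a.m * (L * hh a.K L) := by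
      field_simp
    rw [e]
    calc a.m * (L * hh a.K L) ≤ (a.K / 8) * (1 / (4 * a.K)) := by
          gcongr
          linarith
      _ = 1 / 32 := by field_simp; norm_num
  have hmh' : a.m * (hh a.K L * (L / 2 ^ j)) ≤ 1 / 32 := by
    refine le_trans ?_ hmh
    have h0 : 0 ≤ a.m * (hh a.K L * (L / 2 ^ j)) := by positivity
    nlinarith
  have h1 := hC (hh a.K L * (L / 2 ^ j)) (5 / 4 / 2 ^ j) hh' (by
    rw [abs_of_nonneg (by positivity)]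
    have : 5 / 4 / (2 : ℝ) ^ j ≤ 5 / 8 := by
      rw [div_le_iff₀ (by positivity)]
      linarith
    linarith)
  have h2 := dd_close (G := GE a) (K := KE a j) (h := hh a.K L * (L / 2 ^ j))
    (B := 10 * ((a.ν ^ 2)⁻¹) ^ (128 * 2 ^ (j ^ 2))) (t := 5 / 4 / 2 ^ j) hh' a.m (by
    intro s hs'
    apply GE_KE a hj
    have e : (2 : ℝ) ^ j * s - 5 / 4 = 2 ^ j * (s - 5 / 4 / 2 ^ j) := by field_simp
    rw [e, abs_mul, abs_of_nonneg (by positivity)]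
    calc 2 ^ j * |s - 5 / 4 / 2 ^ j| ≤ 2 ^ j * (a.m * (hh a.K L * (L / 2 ^ j))) := by gcongr
      _ ≤ 1 / 4 := by linarith)
  have h3 := KE_dd a hj
  rw [hLR, ← hL] at h3
  have h4 := low (K := a.K) (L := L) hν.le a.hdl.le a.hdl2 a.hm1 a.hK (by rw [hL]; exact Nat.one_le_two_pow)
    (ν := a.ν) (dl := a.dl) (by rw [hL]; exact hc)
  change _ ≤ ∫ θ : Torus 6, ((DD (fun t => H14.Lyap.torusMap (sht L t)) (hh a.K L))^[a.m]
    (RT a.ν a.K L a.dl) θ) ^ 2 at h4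
  rw [h3] at h2
  rw [← hL] at h2 ⊢
  change _ ≤ |C| * (L * hh a.K L) ^ (2 * a.m) + _
  have h5 : C * (hh a.K L * (L / 2 ^ j)) ^ (2 * a.m) ≤ |C| * (L * hh a.K L) ^ (2 * a.m) := by
    have e1 : hh a.K L * (L / 2 ^ j) ≤ L * hh a.K L := by
      have : (L : ℝ) / 2 ^ j ≤ L := div_le_self (by positivity) (by linarith)
      nlinarith
    have e2 : (hh a.K L * (L / 2 ^ j)) ^ (2 * a.m) ≤ (L * hh a.K L) ^ (2 * a.m) :=
      pow_le_pow_left₀ hh' e1 _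
    calc C * (hh a.K L * (L / 2 ^ j)) ^ (2 * a.m) ≤ |C| * (hh a.K L * (L / 2 ^ j)) ^ (2 * a.m) := by
          gcongr
          exact le_abs_self C
      _ ≤ _ := by gcongr
  have h6 : al a.ν ^ 2 * (al a.ν * a.dl ^ 2 / 4) ^ 2 * (1 / 128 * (1 / 40) * (1 / (30 * a.K)) ^ 2) *
      ((a.ν ^ 2)⁻¹ ^ (64 * L) * Real.exp (-(4 * L / 25)) ^ 4 * (1 / L) * (((gg ^ 2) ^ L)⁻¹) ^ 2) =
      (al a.ν ^ 2 * ((a.ν ^ 2)⁻¹) ^ (64 * L)) * ((al a.ν * (a.dl * Real.exp (-(4 * L / 25))) ^ 2 / 4) ^ 2 *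
        (1 / (128 * L) * (1 / 40) * (1 / (30 * a.K) * ((gg ^ 2) ^ L)⁻¹) ^ 2)) := by
    have : (1 : ℝ) / (128 * L) = 1 / 128 * (1 / L) := by ring
    rw [this]
    ring
  rw [h6]
  have h7 : (al a.ν ^ 2 * ((a.ν ^ 2)⁻¹) ^ (64 * L)) * ((al a.ν * (a.dl * Real.exp (-(4 * L / 25))) ^ 2 / 4) ^ 2 *
        (1 / (128 * L) * (1 / 40) * (1 / (30 * a.K) * ((gg ^ 2) ^ L)⁻¹) ^ 2)) ≤
      (al a.ν ^ 2 * ((a.ν ^ 2)⁻¹) ^ (64 * L)) * ∫ θ : Torus 6,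
        ((DD (fun t => H14.Lyap.torusMap (sht L t)) (hh a.K L))^[a.m] (RT a.ν a.K L a.dl) θ) ^ 2 :=
    mul_le_mul_of_nonneg_left h4 (by positivity)
  have h8 := abs_le.mp h1
  have h9 := abs_le.mp h2
  linarith [h8.2, h9.1]

end

end Pool.Agent.H20.VL
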