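import Pool.Agent.H20.VL.MapM

/-!
# The family of lifts
-/

set_option autoImplicit false

open MeasureTheory Set Filter Topology ContDiff
open Pool.Agent.H14.Lyap

namespace Pool.Agent.H20.VL

noncomputable section

section cov

variable (ν : ℝ)

lemma nu_pos : 0 < ν ^ 2 + 1 := by positivity

lemma p_ep : pc ν (epv ν) = 1 := by
  have := nu_pos ν
  rw [pc_apply]; simp only [epv, v6_4, v6_5]; field_simp
lemma p_ew : pc ν (ewv ν) = 0 := by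
  have := nu_pos ν
  rw [pc_apply]; simp only [ewv, v6_4, v6_5]; field_simp; ring
lemma w_ep : wc ν (epv ν) = 0 := by
  have := nu_pos ν
  rw [wc_apply]; simp only [epv, v6_4, v6_5]; field_simp; ring
lemma w_ew : wc ν (ewv ν) = 1 := by
  have := nu_pos ν
  rw [wc_apply]; simp only [ewv, v6_4, v6_5]; field_simp; ring

lemma n_ep : ‖epv ν‖ ≤ 1 := by
  have h := nu_pos ν
  rw [EuclideanSpace.norm_eq, Real.sqrt_le_one]
  simp only [epv, Fin.sum_univ_six, v6_0, v6_1, v6_2, v6_3, v6_4, v6_5, Real.norm_eq_abs, sq_abs]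
  have : (ν / (ν ^ 2 + 1)) ^ 2 + (1 / (ν ^ 2 + 1)) ^ 2 = 1 / (ν ^ 2 + 1) := by
    field_simp
  have h2 : 1 / (ν ^ 2 + 1) ≤ 1 := by
    rw [div_le_one h]; nlinarith
  linarith

lemma n_ew : ‖ewv ν‖ ≤ 1 := by
  have h := nu_pos ν
  rw [EuclideanSpace.norm_eq, Real.sqrt_le_one]
  simp only [ewv, Fin.sum_univ_six, v6_0, v6_1, v6_2, v6_3, v6_4, v6_5, Real.norm_eq_abs, sq_abs]
  have : (-1 / (ν ^ 2 + 1)) ^ 2 + (ν / (ν ^ 2 + 1)) ^ 2 = 1 / (ν ^ 2 + 1) := by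
    field_simp
    ring
  have h2 : 1 / (ν ^ 2 + 1) ≤ 1 := by
    rw [div_le_one h]; nlinarith
  linarith

/-- projection to the first four coordinates -/
def pNm : Euc 6 →L[ℝ] Euc 6 :=
  ContinuousLinearMap.id ℝ (Euc 6) - (pc ν).smulRight (epv ν) - (wc ν).smulRight (ewv ν)

lemma pNm_def (v : Euc 6) : pNm ν v = v - (pc ν v) • epv ν - (wc ν v) • ewv ν := by
  simp [pNm]

lemma pNm_apply (v : Euc 6) : pNm ν v = v6 (v 0) (v 1) (v 2) (v 3) 0 0 := by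
  have := nu_pos ν
  rw [pNm_def, pc_apply, wc_apply]
  apply ext6
  · simp [epv, ewv]
  · simp [epv, ewv]
  · simp [epv, ewv]
  · simp [epv, ewv]
  · simp only [epv, ewv, PiLp.sub_apply, PiLp.smul_apply, smul_eq_mul, v6_4]
    field_simp; ring
  · simp only [epv, ewv, PiLp.sub_apply, PiLp.smul_apply, smul_eq_mul, v6_5]
    field_simp; ring

lemma hpN (v : Euc 6) : v = pNm ν v + (pc ν v) • epv ν + (wc ν v) • ewv ν := by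
  rw [pNm_def]; abel

lemma ppN (v : Euc 6) : pc ν (pNm ν v) = 0 := by
  rw [pNm_apply, pc_apply]; simp

lemma wpN (v : Euc 6) : wc ν (pNm ν v) = 0 := by
  rw [pNm_apply, wc_apply]; simp

lemma p_Pt (K : ℕ) (dl r : ℝ) (x : Euc 6) : pc ν (Pt K dl r x) = pc ν x + dl * xi K r x := by
  rw [pc_apply, pc_apply]
  change ν * x 4 + (x 5 + dl * xi K r x) = _
  ring

lemma w_Pt (K : ℕ) (dl r : ℝ) (x : Euc 6) : wc ν (Pt K dl r x) = wc ν x + dl * (ν * xi K r x) := by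
  rw [wc_apply, wc_apply]
  change -x 4 + ν * (x 5 + dl * xi K r x) = _
  ring

lemma p_QA {n : ℕ} (hν : ν ^ 2 = n * ν + 1) (r c t : ℝ) (x : Euc 6) :
    pc ν (QA n r c t x) = ν ^ 2 * pc ν x := by
  rw [pc_apply, pc_apply]
  simp only [QA, v6_4, v6_5]
  linear_combination (-(ν * x 4) - x 5 - n * x 4) * hν

lemma w_QA {n : ℕ} (hν : ν ^ 2 = n * ν + 1) (h1 : 1 ≤ ν) (r c t : ℝ) (x : Euc 6) :
    wc ν (QA n r c t x) = (ν ^ 2)⁻¹ * wc ν x := by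
  have h0 : ν ≠ 0 := by linarith
  have h0' : ν ^ 2 ≠ 0 := by positivity
  rw [eq_inv_mul_iff_mul_eq₀ h0']
  rw [wc_apply, wc_apply]
  simp only [QA, v6_4, v6_5]
  have hn : (n:ℝ) * ν = ν ^ 2 - 1 := by linarith
  have e : ν ^ 2 * (-(((n:ℝ) ^ 2 + 1) * x 4 + n * x 5) + ν * (n * x 4 + x 5)) =
      -((n:ℝ) * ν) ^ 2 * x 4 - ν ^ 2 * x 4 - ((n:ℝ) * ν) * ν * x 5 +
        ν ^ 2 * ((n:ℝ) * ν) * x 4 + ν ^ 2 * ν * x 5 := by ring
  rw [e, hn]; ring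

lemma pN_Fs (n K : ℕ) (dl r c t : ℝ) {x y : Euc 6} (h0 : x 0 = y 0) (h1 : x 1 = y 1)
    (h2 : x 2 = y 2) (h3 : x 3 = y 3) :
    pNm ν (Fs n K dl r c t x) = pNm ν (Fs n K dl r c t y) := by
  have a : qn r c t (Pt K dl r x) = qn r c t (Pt K dl r y) := by
    unfold qn
    change Tr (x 1) (th r c (x 0) (x 1)) (x 2 + sh r t (x 0), x 3 + sh r t (x 0) * gg) =
      Tr (y 1) (th r c (y 0) (y 1)) (y 2 + sh r t (y 0), y 3 + sh r t (y 0) * gg)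
    rw [h0, h1, h2, h3]
  rw [pNm_apply, pNm_apply]
  unfold Fs
  simp only [QA, v6_0, v6_1, v6_2, v6_3]
  rw [a]
  change v6 (x 0 + r) (th r c (x 0) (x 1)) _ _ 0 0 = v6 (y 0 + r) (th r c (y 0) (y 1)) _ _ 0 0
  rw [h0, h1]

lemma NFs (n K : ℕ) (dl r c t : ℝ) (x : Euc 6) :
    pNm ν (Fs n K dl r c t x) = pNm ν (Fs n K dl r c t (pNm ν x)) := by
  apply pN_Fs <;> rw [pNm_apply] <;> rfl

lemma pN_Gs (n K : ℕ) (dl r c t : ℝ) (x : Euc 6) : pNm ν (Gs n K dl r c t x) = Rm r c t x := by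
  rw [pNm_apply]; rfl

lemma NGs (n K : ℕ) (dl r c t : ℝ) (x : Euc 6) :
    pNm ν (Gs n K dl r c t x) = pNm ν (Gs n K dl r c t (pNm ν x)) := by
  rw [pN_Gs, pN_Gs, pNm_apply]
  rfl

end cov

lemma GsFs (n K : ℕ) (dl r c t : ℝ) (x : Euc 6) : Gs n K dl r c t (Fs n K dl r c t x) = x := by
  unfold Gs Fs
  rw [QI_QA, PI_Pt]

lemma FsGs (n K : ℕ) (dl r c t : ℝ) (x : Euc 6) : Fs n K dl r c t (Gs n K dl r c t x) = x := by
  unfold Gs Fs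
  rw [Pt_PI, QA_QI]

lemma Fs_per (n K : ℕ) (dl r c t : ℝ) (x : Euc 6) (k : Fin 6 → ℤ) :
    Fs n K dl r c t (x + zvec k) = Fs n K dl r c t x + zvec (Lm n k) := by
  unfold Fs; rw [Pt_per, QA_per]

lemma Gs_per (n K : ℕ) (dl r c t : ℝ) (x : Euc 6) (k : Fin 6 → ℤ) :
    Gs n K dl r c t (x + zvec k) = Gs n K dl r c t x + zvec (Li n k) := by
  unfold Gs; rw [QI_per, PI_per]

lemma fderiv_family_bounded {Y : Type*} [NormedAddCommGroup Y] [NormedSpace ℝ Y]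
    {h : ℝ → Euc 6 → Y} (hc : ContDiff ℝ ∞ (fun z : ℝ × Euc 6 => h z.1 z.2))
    (hper : ∀ t k, ∃ y : Y, ∀ x, h t (x + zvec k) = h t x + y) :
    ∃ C : ℝ, ∀ t ∈ Icc (-1:ℝ) 1, ∀ x, ‖fderiv ℝ (h t) x‖ ≤ C := by
  have hc' : Continuous (fun z : ℝ × Euc 6 => fderiv ℝ (h z.1) z.2) := by
    have h1 : ContDiff ℝ ∞ (Function.uncurry fun (z : ℝ × Euc 6) (y : Euc 6) => h z.1 y) := by
      have : (Function.uncurry fun (z : ℝ × Euc 6) (y : Euc 6) => h z.1 y) =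
          (fun z : ℝ × Euc 6 => h z.1 z.2) ∘ (fun w : (ℝ × Euc 6) × Euc 6 => (w.1.1, w.2)) := rfl
      rw [this]
      exact hc.comp ((contDiff_fst.comp contDiff_fst).prodMk contDiff_snd)
    have h2 := ContDiff.fderiv (n := 0) h1 (contDiff_snd (n := 0)) (by simp)
    exact h2.continuous
  apply bounded_family (h := fun t x => fderiv ℝ (h t) x) hc'
  intro t x k
  obtain ⟨y, hy⟩ := hper t k
  exact fderiv_periodic hy x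

variable (p : Path)

lemma r_c : ContDiff ℝ ∞ (fun z : ℝ × Euc 6 => p.r z.1) := p.hr.comp contDiff_fst
lemma c_c : ContDiff ℝ ∞ (fun z : ℝ × Euc 6 => p.c z.1) := p.hc.comp contDiff_fst
lemma t_c : ContDiff ℝ ∞ (fun z : ℝ × Euc 6 => p.t z.1) := p.ht.comp contDiff_fst

lemma exists_Kg : ∃ Kg : ℝ, 1 ≤ Kg ∧ ∀ τ ∈ Icc (-1:ℝ) 1, ∀ x,
    ‖fderiv ℝ (Rm (p.r τ) (p.c τ) (p.t τ)) x‖ ≤ Kg := by
  obtain ⟨C, hC⟩ := fderiv_family_bounded (h := fun τ x => Rm (p.r τ) (p.c τ) (p.t τ) x)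
    (Rm_comp (r_c p) (c_c p) (t_c p) contDiff_snd)
    (fun τ k => ⟨zvec (Lb k), fun x => Rm_per _ _ _ x k⟩)
  exact ⟨max 1 C, le_max_left _ _, fun τ hτ x => (hC τ hτ x).trans (le_max_right _ _)⟩

lemma exists_M (ν : ℝ) (K : ℕ) : ∃ M : ℝ, 0 ≤ M ∧
    (∀ τ ∈ Icc (-1:ℝ) 1, ∀ x, ‖fderiv ℝ (xi K (p.r τ)) x‖ ≤ M) ∧
    (∀ τ ∈ Icc (-1:ℝ) 1, ∀ x, ‖fderiv ℝ (fun x => ν * xi K (p.r τ) x) x‖ ≤ M) := by
  have h1 : ContDiff ℝ ∞ (fun z : ℝ × Euc 6 => xi K (p.r z.1) z.2) := xi_comp K (r_c p) contDiff_snd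
  obtain ⟨C1, hC1⟩ := fderiv_family_bounded (h := fun τ x => xi K (p.r τ) x) h1
    (fun τ k => ⟨0, fun x => by rw [xi_per, add_zero]⟩)
  obtain ⟨C2, hC2⟩ := fderiv_family_bounded (h := fun τ x => ν * xi K (p.r τ) x)
    (contDiff_const.mul h1) (fun τ k => ⟨0, fun x => by rw [xi_per, add_zero]⟩)
  refine ⟨max C1 C2, ?_, fun τ hτ x => (hC1 τ hτ x).trans (le_max_left _ _),
    fun τ hτ x => (hC2 τ hτ x).trans (le_max_right _ _)⟩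
  exact ((norm_nonneg _).trans (hC1 0 (by simp) 0)).trans (le_max_left _ _)

/-- the parameters -/
structure Par where
  n : ℕ
  K : ℕ
  m : ℕ
  ν : ℝ
  dl : ℝ
  Kg : ℝ
  M : ℝ
  hn : 1 ≤ n
  hν : ν ^ 2 = n * ν + 1
  hν1 : 1 ≤ ν
  hμ : 10 ≤ ν ^ 2
  hKg : 1 ≤ Kg
  hμK : 8 * Kg ≤ ν ^ 2
  hm1 : 1 ≤ m
  hm : (ν ^ 2) ^ 64 * gg ^ 8 ≤ gg ^ m
  hK : 8 * m ≤ K
  hdl : 0 < dl
  hdl2 : dl ≤ 1 / 10
  hM : 0 ≤ M
  bp : ∀ τ ∈ Icc (-1:ℝ) 1, ∀ x, ‖fderiv ℝ (xi K (p.r τ)) x‖ ≤ M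
  bw : ∀ τ ∈ Icc (-1:ℝ) 1, ∀ x, ‖fderiv ℝ (fun x => ν * xi K (p.r τ) x) x‖ ≤ M
  hdsmall : 100 * (ν ^ 2 + 1) * Kg * (dl * M) ≤ 1
  hR : ∀ τ ∈ Icc (-1:ℝ) 1, ∀ x, ‖fderiv ℝ (Rm (p.r τ) (p.c τ) (p.t τ)) x‖ ≤ Kg

lemma exists_par : Nonempty (Par p) := by
  obtain ⟨Kg, hKg, hR⟩ := exists_Kg p
  obtain ⟨n, hn⟩ := exists_nat_ge (max 10 (8 * Kg))
  have hn1 : (10:ℝ) ≤ n := (le_max_left _ _).trans hn
  have hn2 : 8 * Kg ≤ n := (le_max_right _ _).trans hn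
  have hn3 : 1 ≤ n := by
    have : (1:ℝ) ≤ n := by linarith
    exact_mod_cast this
  obtain ⟨ν, hν⟩ : ∃ ν : ℝ, ν = (n + Real.sqrt (n ^ 2 + 4)) / 2 := ⟨_, rfl⟩
  have hsq : Real.sqrt ((n:ℝ) ^ 2 + 4) ^ 2 = n ^ 2 + 4 := Real.sq_sqrt (by positivity)
  have hs0 : (n:ℝ) ≤ Real.sqrt ((n:ℝ) ^ 2 + 4) := by
    apply Real.le_sqrt_of_sq_le; linarith
  have hνn : (n:ℝ) ≤ ν := by rw [hν]; linarith
  have hν1 : 1 ≤ ν := by linarith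
  have hνsq : (n:ℝ) ≤ ν ^ 2 := by nlinarith
  have hνe : ν ^ 2 = n * ν + 1 := by rw [hν]; nlinarith
  obtain ⟨m, hm⟩ := pow_unbounded_of_one_lt ((ν ^ 2) ^ 64 * gg ^ 8)
    (show (1:ℝ) < gg by linarith [gg_gt])
  have hm' : (ν ^ 2) ^ 64 * gg ^ 8 ≤ gg ^ (m + 1) := by
    refine hm.le.trans (pow_le_pow_right₀ (by linarith [gg_gt]) (by omega))
  obtain ⟨M, hM, bp, bw⟩ := exists_M p ν (8 * (m + 1))
  have hpos : 0 < 100 * (ν ^ 2 + 1) * Kg * (M + 1) := by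
    have : 0 < Kg := by linarith
    positivity
  refine ⟨⟨n, 8 * (m + 1), m + 1, ν, min (1 / 10) (1 / (100 * (ν ^ 2 + 1) * Kg * (M + 1))), Kg, M, hn3,
    hνe, hν1, by linarith, hKg, by linarith, by omega, hm', le_refl _, ?_, min_le_left _ _, hM, bp, bw,
    ?_, hR⟩⟩
  · apply lt_min (by norm_num); positivity
  · have hKg0 : 0 < Kg := by linarith
    calc 100 * (ν ^ 2 + 1) * Kg * (min (1 / 10) (1 / (100 * (ν ^ 2 + 1) * Kg * (M + 1))) * M)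
        ≤ 100 * (ν ^ 2 + 1) * Kg * ((1 / (100 * (ν ^ 2 + 1) * Kg * (M + 1))) * M) := by
          gcongr
          exact min_le_right _ _
      _ = M / (M + 1) := by field_simp
      _ ≤ 1 := by rw [div_le_one (by linarith)]; linarith

namespace Par

variable {p} (a : Par p)

/-- the family of lifts -/
def F (τ : ℝ) (x : Euc 6) : Euc 6 := Fs a.n a.K a.dl (p.r τ) (p.c τ) (p.t τ) x
/-- the inverses -/
def G (τ : ℝ) (x : Euc 6) : Euc 6 := Gs a.n a.K a.dl (p.r τ) (p.c τ) (p.t τ) x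

lemma F_joint : ContDiff ℝ ∞ (fun z : ℝ × Euc 6 => a.F z.1 z.2) := by
  unfold F Fs
  exact QA_comp a.n (r_c p) (c_c p) (t_c p) (Pt_comp a.K a.dl (r_c p) contDiff_snd)

lemma F_contDiff (τ : ℝ) : ContDiff ℝ ∞ (a.F τ) :=
  a.F_joint.comp (contDiff_const.prodMk contDiff_id)

lemma G_contDiff (τ : ℝ) : ContDiff ℝ ∞ (a.G τ) := by
  unfold G Gs
  exact PI_comp a.K a.dl contDiff_const (QI_comp a.n contDiff_const contDiff_const contDiff_const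
    contDiff_id)

/-- the lift data at parameter `τ` -/
def D (τ : ℝ) (hτ : τ ∈ Icc (-1:ℝ) 1) : Lift 6 where
  F := a.F τ
  G := a.G τ
  hF := a.F_contDiff τ
  hG := a.G_contDiff τ
  GF := GsFs a.n a.K a.dl (p.r τ) (p.c τ) (p.t τ)
  FG := FsGs a.n a.K a.dl (p.r τ) (p.c τ) (p.t τ)
  L := Lm a.n
  L' := Li a.n
  Feq := Fs_per a.n a.K a.dl (p.r τ) (p.c τ) (p.t τ)
  Geq := Gs_per a.n a.K a.dl (p.r τ) (p.c τ) (p.t τ)
  ep := epv a.ν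
  ew := ewv a.ν
  p := pc a.ν
  w := wc a.ν
  ξp := xi a.K (p.r τ)
  ξw := fun x => a.ν * xi a.K (p.r τ) x
  hξp := xi_comp a.K contDiff_const contDiff_id
  hξw := contDiff_const.mul (xi_comp a.K contDiff_const contDiff_id)
  perp := xi_per a.K (p.r τ)
  perw := fun x k => by rw [xi_per]
  μ := a.ν ^ 2
  Kg := a.Kg
  dl := a.dl
  M := a.M
  pep := p_ep a.ν
  pew := p_ew a.ν
  wep := w_ep a.ν
  wew := w_ew a.ν
  nep := n_ep a.ν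
  new := n_ew a.ν
  hμ := a.hμ
  hKg := a.hKg
  hμK := a.hμK
  hdl := a.hdl.le
  hM := a.hM
  bp := a.bp τ hτ
  bw := a.bw τ hτ
  hdsmall := a.hdsmall
  pF := fun x => by
    unfold F Fs
    rw [p_QA a.ν a.hν, p_Pt]
  wF := fun x => by
    unfold F Fs
    rw [w_QA a.ν a.hν a.hν1, w_Pt]
  pN := pNm a.ν
  hpN := VL.hpN a.ν
  ppN := VL.ppN a.ν
  wpN := VL.wpN a.ν
  NF := NFs a.ν a.n a.K a.dl (p.r τ) (p.c τ) (p.t τ)
  NG := NGs a.ν a.n a.K a.dl (p.r τ) (p.c τ) (p.t τ)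
  hR := by
    intro x
    have : (fun x => pNm a.ν (a.G τ x)) = Rm (p.r τ) (p.c τ) (p.t τ) :=
      funext (pN_Gs a.ν a.n a.K a.dl (p.r τ) (p.c τ) (p.t τ))
    rw [this]
    exact a.hR τ hτ x

/-- in a window -/
lemma win_mem {j : ℕ} (hj : 1 ≤ j) {τ : ℝ} (h : |2 ^ j * τ - 5 / 4| ≤ 1 / 4) :
    τ ∈ Ioo (-1:ℝ) 1 := by
  have h1 := abs_le.mp h
  have h2 : (2:ℝ) ≤ 2 ^ j := by
    calc (2:ℝ) = 2 ^ 1 := by norm_num
      _ ≤ 2 ^ j := pow_le_pow_right₀ (by norm_num) hj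
  have h3 : 1 ≤ 2 ^ j * τ := by linarith [h1.1]
  have h4 : 2 ^ j * τ ≤ 3 / 2 := by linarith [h1.2]
  have h5 : 0 < τ := by
    by_contra hh
    have : 2 ^ j * τ ≤ 0 := mul_nonpos_of_nonneg_of_nonpos (by positivity) (not_lt.mp hh)
    linarith
  constructor
  · linarith
  · nlinarith

/-- the data of the window -/
def wd {j : ℕ} (hj : 1 ≤ j) {τ : ℝ} (h : |2 ^ j * τ - 5 / 4| ≤ 1 / 4) (hτ : τ ∈ Icc (-1:ℝ) 1) :
    WD a.ν a.n a.K (2 ^ (j ^ 2)) a.dl ((2 ^ j * τ - 5 / 4) / 2 ^ (j ^ 2)) where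
  D := a.D τ hτ
  hν := a.hν
  hν1 := a.hν1
  hμ10 := a.hμ
  hdl := a.hdl
  hdl2 := a.hdl2
  F_eq := by
    funext x
    change Fs a.n a.K a.dl (p.r τ) (p.c τ) (p.t τ) x = _
    obtain ⟨h1, h2, h3⟩ := p.win j hj τ h
    rw [h1, h2, h3]
    rfl
  μ_eq := rfl
  dl_eq := rfl
  ξp_eq := by
    obtain ⟨h1, h2, h3⟩ := p.win j hj τ h
    change xi a.K (p.r τ) = _
    rw [h1]
  ξw_eq := by
    obtain ⟨h1, h2, h3⟩ := p.win j hj τ h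
    change (fun x => a.ν * xi a.K (p.r τ) x) = _
    rw [h1]
  ep_eq := rfl
  ew_eq := rfl

end Par

end

end Pool.Agent.H20.VL
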