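import Pool.Agent.H20.VL.AmpS
import Pool.Agent.H20.VL.Stair
import Pool.Agent.H20.VL.FzM

/-!
# Module MapM: smoothness, inverses and periodicity of the maps
-/

set_option autoImplicit false

open MeasureTheory Set Filter Topology ContDiff
open Pool.Agent.H14.Lyap

namespace Pool.Agent.H20.VL

noncomputable section

section smooth

variable {E : Type*} [NormedAddCommGroup E] [NormedSpace ℝ E]

lemma v6_contDiff {a b c d e f : E → ℝ}
    (ha : ContDiff ℝ ∞ a) (hb : ContDiff ℝ ∞ b) (hc : ContDiff ℝ ∞ c) (hd : ContDiff ℝ ∞ d)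
    (he : ContDiff ℝ ∞ e) (hf : ContDiff ℝ ∞ f) :
    ContDiff ℝ ∞ (fun x => v6 (a x) (b x) (c x) (d x) (e x) (f x)) := by
  rw [contDiff_euclidean]
  intro i
  fin_cases i
  · exact ha
  · exact hb
  · exact hc
  · exact hd
  · exact he
  · exact hf

lemma coord_contDiff {f : E → Euc 6} (hf : ContDiff ℝ ∞ f) (i : Fin 6) :
    ContDiff ℝ ∞ (fun x => f x i) := (contDiff_euclidean.mp hf) i

lemma amp_comp {f g : E → ℝ} (hf : ContDiff ℝ ∞ f) (hg : ContDiff ℝ ∞ g) :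
    ContDiff ℝ ∞ (fun x => amp (f x) (g x)) := amp_contDiff.comp (hf.prodMk hg)

lemma W_comp {f : E → ℝ} (hf : ContDiff ℝ ∞ f) : ContDiff ℝ ∞ (fun x => W (f x)) :=
  W_contDiff.comp hf

lemma Fz_comp {f : E → ℝ} (hf : ContDiff ℝ ∞ f) : ContDiff ℝ ∞ (fun x => Fz (f x)) :=
  Fz_contDiff.comp hf

lemma sh_comp {r t w : E → ℝ} (hr : ContDiff ℝ ∞ r) (ht : ContDiff ℝ ∞ t) (hw : ContDiff ℝ ∞ w) :
    ContDiff ℝ ∞ (fun x => sh (r x) (t x) (w x)) := by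
  unfold sh
  exact ht.mul (amp_comp hr ((Real.contDiff_cos.comp (contDiff_const.mul hw)).pow 2))

lemma th_comp {r c w θ : E → ℝ} (hr : ContDiff ℝ ∞ r) (hc : ContDiff ℝ ∞ c) (hw : ContDiff ℝ ∞ w)
    (hθ : ContDiff ℝ ∞ θ) : ContDiff ℝ ∞ (fun x => th (r x) (c x) (w x) (θ x)) := by
  unfold th
  exact hθ.sub (hc.mul (Real.contDiff_sin.comp
    ((contDiff_const.mul hw).add (contDiff_const.mul hr))))

lemma Tr_comp {a b : E → ℝ} {q : E → ℝ × ℝ} (ha : ContDiff ℝ ∞ a) (hb : ContDiff ℝ ∞ b)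
    (hq : ContDiff ℝ ∞ q) : ContDiff ℝ ∞ (fun x => Tr (a x) (b x) (q x)) := by
  have e : (fun x => Tr (a x) (b x) (q x)) = fun x =>
      ((q x).1 + (W (b x) - W (a x)) * Fz (q x).2,
        (q x).2 + (W (b x - 1 / 2) - W (a x - 1 / 2)) *
          Fz ((q x).1 + (W (b x) - W (a x)) * Fz (q x).2)) := by
    funext x
    simp only [Tr, Equiv.Perm.mul_apply, Sx_apply, Sz_apply]
  rw [e]
  have h1 : ContDiff ℝ ∞ (fun x => (q x).1 + (W (b x) - W (a x)) * Fz (q x).2) :=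
    hq.fst.add (((W_comp hb).sub (W_comp ha)).mul (Fz_comp hq.snd))
  exact h1.prodMk (hq.snd.add (((W_comp (hb.sub contDiff_const)).sub
    (W_comp (ha.sub contDiff_const))).mul (Fz_comp h1)))

lemma Tr_symm_comp {a b : E → ℝ} {q : E → ℝ × ℝ} (ha : ContDiff ℝ ∞ a) (hb : ContDiff ℝ ∞ b)
    (hq : ContDiff ℝ ∞ q) : ContDiff ℝ ∞ (fun x => (Tr (a x) (b x)).symm (q x)) := by
  have e : (fun x => (Tr (a x) (b x)).symm (q x)) = fun x =>
      ((q x).1 - (W (b x) - W (a x)) *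
          Fz ((q x).2 - (W (b x - 1 / 2) - W (a x - 1 / 2)) * Fz (q x).1),
        (q x).2 - (W (b x - 1 / 2) - W (a x - 1 / 2)) * Fz (q x).1) := by
    funext x
    rw [Equiv.symm_apply_eq]
    simp only [Tr, Equiv.Perm.mul_apply, Sx_apply, Sz_apply, sub_add_cancel]
  rw [e]
  have h1 : ContDiff ℝ ∞ (fun x => (q x).2 - (W (b x - 1 / 2) - W (a x - 1 / 2)) * Fz (q x).1) :=
    hq.snd.sub (((W_comp (hb.sub contDiff_const)).sub (W_comp (ha.sub contDiff_const))).mul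
      (Fz_comp hq.fst))
  exact (hq.fst.sub (((W_comp hb).sub (W_comp ha)).mul (Fz_comp h1))).prodMk h1

lemma xi_comp (K : ℕ) {r : E → ℝ} {x : E → Euc 6} (hr : ContDiff ℝ ∞ r) (hx : ContDiff ℝ ∞ x) :
    ContDiff ℝ ∞ (fun y => xi K (r y) (x y)) := by
  unfold xi
  have c := coord_contDiff hx
  exact (((amp_comp hr ((Real.contDiff_sin.comp (contDiff_const.mul (c 0))).pow 2)).mul
    (Real.contDiff_sin.comp (contDiff_const.mul (c 2)))).mul
    (Real.contDiff_sin.comp (contDiff_const.mul (c 4)))).div_const _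

lemma Pt_comp (K : ℕ) (dl : ℝ) {r : E → ℝ} {x : E → Euc 6} (hr : ContDiff ℝ ∞ r)
    (hx : ContDiff ℝ ∞ x) : ContDiff ℝ ∞ (fun y => Pt K dl (r y) (x y)) := by
  unfold Pt
  have c := coord_contDiff hx
  exact v6_contDiff (c 0) (c 1) (c 2) (c 3) (c 4) ((c 5).add (contDiff_const.mul (xi_comp K hr hx)))

lemma PI_comp (K : ℕ) (dl : ℝ) {r : E → ℝ} {x : E → Euc 6} (hr : ContDiff ℝ ∞ r)
    (hx : ContDiff ℝ ∞ x) : ContDiff ℝ ∞ (fun y => PI K dl (r y) (x y)) := by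
  unfold PI
  have c := coord_contDiff hx
  exact v6_contDiff (c 0) (c 1) (c 2) (c 3) (c 4) ((c 5).sub (contDiff_const.mul (xi_comp K hr hx)))

lemma qn_comp {r c t : E → ℝ} {x : E → Euc 6} (hr : ContDiff ℝ ∞ r) (hc : ContDiff ℝ ∞ c)
    (ht : ContDiff ℝ ∞ t) (hx : ContDiff ℝ ∞ x) :
    ContDiff ℝ ∞ (fun y => qn (r y) (c y) (t y) (x y)) := by
  unfold qn
  have k := coord_contDiff hx
  have s := sh_comp hr ht (k 0)
  exact Tr_comp (k 1) (th_comp hr hc (k 0) (k 1))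
    (((k 2).add s).prodMk ((k 3).add (s.mul contDiff_const)))

lemma QA_comp (n : ℕ) {r c t : E → ℝ} {x : E → Euc 6} (hr : ContDiff ℝ ∞ r) (hc : ContDiff ℝ ∞ c)
    (ht : ContDiff ℝ ∞ t) (hx : ContDiff ℝ ∞ x) :
    ContDiff ℝ ∞ (fun y => QA n (r y) (c y) (t y) (x y)) := by
  unfold QA
  have k := coord_contDiff hx
  have q := qn_comp hr hc ht hx
  exact v6_contDiff ((k 0).add hr) (th_comp hr hc (k 0) (k 1)) q.fst q.snd
    ((contDiff_const.mul (k 4)).add (contDiff_const.mul (k 5)))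
    ((contDiff_const.mul (k 4)).add (k 5))

lemma ti_comp {r c : E → ℝ} {x : E → Euc 6} (hr : ContDiff ℝ ∞ r) (hc : ContDiff ℝ ∞ c)
    (hx : ContDiff ℝ ∞ x) : ContDiff ℝ ∞ (fun y => ti (r y) (c y) (x y)) := by
  unfold ti
  have k := coord_contDiff hx
  exact (k 1).add (hc.mul (Real.contDiff_sin.comp
    ((contDiff_const.mul ((k 0).sub hr)).add (contDiff_const.mul hr))))

lemma qi_comp {r c : E → ℝ} {x : E → Euc 6} (hr : ContDiff ℝ ∞ r) (hc : ContDiff ℝ ∞ c)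
    (hx : ContDiff ℝ ∞ x) : ContDiff ℝ ∞ (fun y => qi (r y) (c y) (x y)) := by
  unfold qi
  have k := coord_contDiff hx
  exact Tr_symm_comp (ti_comp hr hc hx) (k 1) ((k 2).prodMk (k 3))

lemma QI_comp (n : ℕ) {r c t : E → ℝ} {x : E → Euc 6} (hr : ContDiff ℝ ∞ r) (hc : ContDiff ℝ ∞ c)
    (ht : ContDiff ℝ ∞ t) (hx : ContDiff ℝ ∞ x) :
    ContDiff ℝ ∞ (fun y => QI n (r y) (c y) (t y) (x y)) := by
  unfold QI
  have k := coord_contDiff hx
  have q := qi_comp hr hc hx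
  have s := sh_comp hr ht ((k 0).sub hr)
  exact v6_contDiff ((k 0).sub hr) (ti_comp hr hc hx) (q.fst.sub s) (q.snd.sub (s.mul contDiff_const))
    ((k 4).sub (contDiff_const.mul (k 5)))
    ((contDiff_const.mul (k 4)).neg.add (contDiff_const.mul (k 5)))

lemma Rm_comp {r c t : E → ℝ} {x : E → Euc 6} (hr : ContDiff ℝ ∞ r) (hc : ContDiff ℝ ∞ c)
    (ht : ContDiff ℝ ∞ t) (hx : ContDiff ℝ ∞ x) :
    ContDiff ℝ ∞ (fun y => Rm (r y) (c y) (t y) (x y)) := by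
  unfold Rm
  have k := coord_contDiff hx
  have q := qi_comp hr hc hx
  have s := sh_comp hr ht ((k 0).sub hr)
  exact v6_contDiff ((k 0).sub hr) (ti_comp hr hc hx) (q.fst.sub s) (q.snd.sub (s.mul contDiff_const))
    contDiff_const contDiff_const

end smooth

/-! ### Inverses -/

lemma xi_congr (K : ℕ) (r : ℝ) {x y : Euc 6} (h0 : x 0 = y 0) (h2 : x 2 = y 2) (h4 : x 4 = y 4) :
    xi K r x = xi K r y := by
  unfold xi; rw [h0, h2, h4]

lemma PI_Pt (K : ℕ) (dl r : ℝ) (x : Euc 6) : PI K dl r (Pt K dl r x) = x := by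
  have h : xi K r (Pt K dl r x) = xi K r x := xi_congr K r rfl rfl rfl
  apply ext6
  · rfl
  · rfl
  · rfl
  · rfl
  · rfl
  · change (Pt K dl r x) 5 - dl * xi K r (Pt K dl r x) = x 5
    rw [h]
    change x 5 + dl * xi K r x - dl * xi K r x = x 5
    ring

lemma Pt_PI (K : ℕ) (dl r : ℝ) (x : Euc 6) : Pt K dl r (PI K dl r x) = x := by
  have h : xi K r (PI K dl r x) = xi K r x := xi_congr K r rfl rfl rfl
  apply ext6
  · rfl
  · rfl
  · rfl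
  · rfl
  · rfl
  · change (PI K dl r x) 5 + dl * xi K r (PI K dl r x) = x 5
    rw [h]
    change x 5 - dl * xi K r x + dl * xi K r x = x 5
    ring

lemma QI_QA (n : ℕ) (r c t : ℝ) (x : Euc 6) : QI n r c t (QA n r c t x) = x := by
  have h0 : (QA n r c t x) 0 - r = x 0 := by
    change x 0 + r - r = x 0
    ring
  have h1 : ti r c (QA n r c t x) = x 1 := by
    unfold ti
    rw [h0]
    change th r c (x 0) (x 1) + _ = x 1
    unfold th
    ring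
  have h2 : qi r c (QA n r c t x) = (x 2 + sh r t (x 0), x 3 + sh r t (x 0) * gg) := by
    unfold qi
    rw [h1, Equiv.symm_apply_eq]
    rfl
  unfold QI
  rw [h0, h1, h2]
  apply ext6
  · rfl
  · rfl
  · simp
  · simp
  · change (((n : ℝ) ^ 2 + 1) * x 4 + n * x 5) - n * (n * x 4 + x 5) = x 4
    ring
  · change -(n * (((n : ℝ) ^ 2 + 1) * x 4 + n * x 5)) + ((n : ℝ) ^ 2 + 1) * (n * x 4 + x 5) = x 5
    ring

lemma QA_QI (n : ℕ) (r c t : ℝ) (x : Euc 6) : QA n r c t (QI n r c t x) = x := by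
  have h0 : (QI n r c t x) 0 = x 0 - r := rfl
  have h1 : (QI n r c t x) 1 = ti r c x := rfl
  have h2 : (QI n r c t x) 2 + sh r t ((QI n r c t x) 0) = (qi r c x).1 := by
    rw [h0]
    change (qi r c x).1 - sh r t (x 0 - r) + sh r t (x 0 - r) = _
    ring
  have h3 : (QI n r c t x) 3 + sh r t ((QI n r c t x) 0) * gg = (qi r c x).2 := by
    rw [h0]
    change (qi r c x).2 - sh r t (x 0 - r) * gg + sh r t (x 0 - r) * gg = _
    ring
  have h4 : th r c ((QI n r c t x) 0) ((QI n r c t x) 1) = x 1 := by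
    rw [h0, h1]
    unfold th ti
    ring
  have h5 : qn r c t (QI n r c t x) = (x 2, x 3) := by
    unfold qn
    rw [h2, h3, h4, h1]
    change Tr (ti r c x) (x 1) (qi r c x) = _
    unfold qi
    rw [Equiv.apply_symm_apply]
  unfold QA
  rw [h4, h5, h0]
  apply ext6
  · change x 0 - r + r = x 0
    ring
  · rfl
  · rfl
  · rfl
  · change ((n : ℝ) ^ 2 + 1) * (x 4 - n * x 5) + n * (-(n * x 4) + ((n : ℝ) ^ 2 + 1) * x 5) = x 4
    ring
  · change (n : ℝ) * (x 4 - n * x 5) + (-(n * x 4) + ((n : ℝ) ^ 2 + 1) * x 5) = x 5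
    ring

/-! ### Periodicity -/

lemma az {d : ℕ} (x : Euc d) (k : Fin d → ℤ) (i : Fin d) : (x + zvec k) i = x i + k i := rfl

lemma sin_per (a : ℝ) (k : ℤ) : Real.sin (2 * Real.pi * (a + k)) = Real.sin (2 * Real.pi * a) := by
  rw [show 2 * Real.pi * (a + k) = 2 * Real.pi * a + k * (2 * Real.pi) by ring,
    Real.sin_add_int_mul_two_pi]

lemma cos_per (a : ℝ) (k : ℤ) : Real.cos (2 * Real.pi * (a + k)) = Real.cos (2 * Real.pi * a) := by
  rw [show 2 * Real.pi * (a + k) = 2 * Real.pi * a + k * (2 * Real.pi) by ring,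
    Real.cos_add_int_mul_two_pi]

lemma sinK_per (K : ℕ) (a : ℝ) (k : ℤ) :
    Real.sin (2 * Real.pi * K * (a + k)) = Real.sin (2 * Real.pi * K * a) := by
  rw [show 2 * Real.pi * K * (a + k) = 2 * Real.pi * K * a + ((K * k : ℤ) : ℝ) * (2 * Real.pi) by
    push_cast; ring, Real.sin_add_int_mul_two_pi]

lemma sin2_per (a : ℝ) (k : ℤ) : Real.sin (Real.pi * (a + k)) ^ 2 = Real.sin (Real.pi * a) ^ 2 := by
  rw [Real.sin_sq_eq_half_sub, Real.sin_sq_eq_half_sub,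
    show 2 * (Real.pi * (a + k)) = 2 * Real.pi * (a + k) by ring, cos_per,
    show 2 * (Real.pi * a) = 2 * Real.pi * a by ring]

lemma cos2_per (a : ℝ) (k : ℤ) : Real.cos (Real.pi * (a + k)) ^ 2 = Real.cos (Real.pi * a) ^ 2 := by
  rw [Real.cos_sq', Real.cos_sq', sin2_per]

lemma sinr_per (a r : ℝ) (k : ℤ) : Real.sin (2 * Real.pi * (a + k) + Real.pi * r) =
    Real.sin (2 * Real.pi * a + Real.pi * r) := by
  rw [show 2 * Real.pi * (a + k) + Real.pi * r = 2 * Real.pi * a + Real.pi * r + k * (2 * Real.pi) by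
    ring, Real.sin_add_int_mul_two_pi]

lemma sh_per (r t w : ℝ) (k : ℤ) : sh r t (w + k) = sh r t w := by
  unfold sh; rw [cos2_per]

lemma Tr_per (θ θ' : ℝ) (k : ℤ) : Tr (θ + k) (θ' + k) = Tr θ θ' := by
  unfold Tr
  have e : ∀ s : ℝ, s + k - 1 / 2 = s - 1 / 2 + k := fun s => by ring
  rw [e, e, W_add_int, W_add_int, W_add_int, W_add_int, add_sub_add_right_eq_sub,
    add_sub_add_right_eq_sub]

lemma Tr_vec (θ θ' : ℝ) (q : ℝ × ℝ) (a b : ℤ) :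
    Tr θ θ' (q.1 + a, q.2 + b) = ((Tr θ θ' q).1 + a, (Tr θ θ' q).2 + b) := by
  simp only [Tr, Equiv.Perm.mul_apply, Sx_apply, Sz_apply, Fz_add_int]
  have e : q.1 + (a : ℝ) + (W θ' - W θ) * Fz q.2 = q.1 + (W θ' - W θ) * Fz q.2 + a := by ring
  rw [e, Fz_add_int]
  ext
  · rfl
  · simp only; ring

lemma Tr_symm_vec (θ θ' : ℝ) (q : ℝ × ℝ) (a b : ℤ) :
    (Tr θ θ').symm (q.1 + a, q.2 + b) = (((Tr θ θ').symm q).1 + a, ((Tr θ θ').symm q).2 + b) := by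
  rw [Equiv.symm_apply_eq, Tr_vec, Equiv.apply_symm_apply]

lemma xi_per (K : ℕ) (r : ℝ) (x : Euc 6) (k : Fin 6 → ℤ) : xi K r (x + zvec k) = xi K r x := by
  unfold xi
  rw [az, az, az, sin2_per, sinK_per, sin_per]

lemma Pt_per (K : ℕ) (dl r : ℝ) (x : Euc 6) (k : Fin 6 → ℤ) :
    Pt K dl r (x + zvec k) = Pt K dl r x + zvec k := by
  unfold Pt
  rw [xi_per]
  apply ext6
  · rfl
  · rfl
  · rfl
  · rfl
  · rfl
  · change x 5 + (k 5 : ℝ) + dl * xi K r x = x 5 + dl * xi K r x + k 5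
    ring

lemma PI_per (K : ℕ) (dl r : ℝ) (x : Euc 6) (k : Fin 6 → ℤ) :
    PI K dl r (x + zvec k) = PI K dl r x + zvec k := by
  unfold PI
  rw [xi_per]
  apply ext6
  · rfl
  · rfl
  · rfl
  · rfl
  · rfl
  · change x 5 + (k 5 : ℝ) - dl * xi K r x = x 5 - dl * xi K r x + k 5
    ring

/-- the integer matrix acting on lattice vectors -/
def Lm (n : ℕ) (k : Fin 6 → ℤ) : Fin 6 → ℤ :=
  ![k 0, k 1, k 2, k 3, ((n : ℤ) ^ 2 + 1) * k 4 + n * k 5, n * k 4 + k 5]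
def Li (n : ℕ) (k : Fin 6 → ℤ) : Fin 6 → ℤ :=
  ![k 0, k 1, k 2, k 3, k 4 - n * k 5, -(n * k 4) + ((n : ℤ) ^ 2 + 1) * k 5]
def Lb (k : Fin 6 → ℤ) : Fin 6 → ℤ := ![k 0, k 1, k 2, k 3, 0, 0]

lemma th_per (r c w θ : ℝ) (a b : ℤ) : th r c (w + a) (θ + b) = th r c w θ + b := by
  unfold th; rw [sinr_per]; ring

lemma qn_per (r c t : ℝ) (x : Euc 6) (k : Fin 6 → ℤ) :
    qn r c t (x + zvec k) = ((qn r c t x).1 + k 2, (qn r c t x).2 + k 3) := by
  unfold qn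
  rw [az, az, az, az, th_per, Tr_per, sh_per]
  have e : (x 2 + (k 2 : ℝ) + sh r t (x 0), x 3 + (k 3 : ℝ) + sh r t (x 0) * gg) =
      ((x 2 + sh r t (x 0), x 3 + sh r t (x 0) * gg).1 + (k 2 : ℝ),
        (x 2 + sh r t (x 0), x 3 + sh r t (x 0) * gg).2 + (k 3 : ℝ)) := by
    ext
    · simp only; ring
    · simp only; ring
  rw [e, Tr_vec]

lemma QA_per (n : ℕ) (r c t : ℝ) (x : Euc 6) (k : Fin 6 → ℤ) :
    QA n r c t (x + zvec k) = QA n r c t x + zvec (Lm n k) := by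
  unfold QA
  rw [qn_per]
  apply ext6
  · change x 0 + (k 0 : ℝ) + r = x 0 + r + ((k 0 : ℤ) : ℝ)
    ring
  · change th r c (x 0 + (k 0 : ℝ)) (x 1 + (k 1 : ℝ)) = th r c (x 0) (x 1) + ((k 1 : ℤ) : ℝ)
    rw [th_per]
  · rfl
  · rfl
  · change ((n : ℝ) ^ 2 + 1) * (x 4 + (k 4 : ℝ)) + n * (x 5 + (k 5 : ℝ)) =
      (((n : ℝ) ^ 2 + 1) * x 4 + n * x 5) + ((((n : ℤ) ^ 2 + 1) * k 4 + n * k 5 : ℤ) : ℝ)
    push_cast; ring
  · change (n : ℝ) * (x 4 + (k 4 : ℝ)) + (x 5 + (k 5 : ℝ)) =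
      (n * x 4 + x 5) + ((n * k 4 + k 5 : ℤ) : ℝ)
    push_cast; ring

lemma ti_per (r c : ℝ) (x : Euc 6) (k : Fin 6 → ℤ) : ti r c (x + zvec k) = ti r c x + k 1 := by
  unfold ti
  rw [az, az]
  have e : x 0 + (k 0 : ℝ) - r = x 0 - r + (k 0 : ℤ) := by ring
  rw [e, sinr_per]; ring

lemma qi_per (r c : ℝ) (x : Euc 6) (k : Fin 6 → ℤ) :
    qi r c (x + zvec k) = ((qi r c x).1 + k 2, (qi r c x).2 + k 3) := by
  unfold qi
  rw [ti_per, az, Tr_per]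
  exact Tr_symm_vec _ _ (x 2, x 3) (k 2) (k 3)

lemma QI_per (n : ℕ) (r c t : ℝ) (x : Euc 6) (k : Fin 6 → ℤ) :
    QI n r c t (x + zvec k) = QI n r c t x + zvec (Li n k) := by
  unfold QI
  rw [qi_per, ti_per]
  have e : (x + zvec k) 0 - r = x 0 - r + (k 0 : ℤ) := by rw [az]; ring
  rw [e, sh_per]
  apply ext6
  · rfl
  · rfl
  · change (qi r c x).1 + (k 2 : ℝ) - sh r t (x 0 - r) = (qi r c x).1 - sh r t (x 0 - r) + ((k 2 : ℤ) : ℝ)
    ring
  · change (qi r c x).2 + (k 3 : ℝ) - sh r t (x 0 - r) * gg =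
      (qi r c x).2 - sh r t (x 0 - r) * gg + ((k 3 : ℤ) : ℝ)
    ring
  · change (x 4 + (k 4 : ℝ)) - n * (x 5 + (k 5 : ℝ)) = (x 4 - n * x 5) + ((k 4 - n * k 5 : ℤ) : ℝ)
    push_cast; ring
  · change -(n * (x 4 + (k 4 : ℝ))) + ((n : ℝ) ^ 2 + 1) * (x 5 + (k 5 : ℝ)) =
      (-(n * x 4) + ((n : ℝ) ^ 2 + 1) * x 5) + ((-(n * k 4) + ((n : ℤ) ^ 2 + 1) * k 5 : ℤ) : ℝ)
    push_cast; ring

lemma Rm_per (r c t : ℝ) (x : Euc 6) (k : Fin 6 → ℤ) :
    Rm r c t (x + zvec k) = Rm r c t x + zvec (Lb k) := by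
  unfold Rm
  rw [qi_per, ti_per]
  have e : (x + zvec k) 0 - r = x 0 - r + (k 0 : ℤ) := by rw [az]; ring
  rw [e, sh_per]
  apply ext6
  · rfl
  · rfl
  · change (qi r c x).1 + (k 2 : ℝ) - sh r t (x 0 - r) = (qi r c x).1 - sh r t (x 0 - r) + ((k 2 : ℤ) : ℝ)
    ring
  · change (qi r c x).2 + (k 3 : ℝ) - sh r t (x 0 - r) * gg =
      (qi r c x).2 - sh r t (x 0 - r) * gg + ((k 3 : ℤ) : ℝ)
    ring
  · change (0 : ℝ) = 0 + ((0 : ℤ) : ℝ)
    simp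
  · change (0 : ℝ) = 0 + ((0 : ℤ) : ℝ)
    simp

end

end Pool.Agent.H20.VL
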