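import Pool.Agent.H20.VL.Defs

/-!
# Module MeasA: coordinate shears of the torus preserve volume (about 120 lines)

`T(θ) = torusMap (x ↦ x + g(x) e_i) θ = θ + (g(rep θ) in the i-th coordinate)` (because `proj (rep θ) = θ`). Put `G : Torus d → UnitAddCircle`, `G θ = (g (rep θ) : UnitAddCircle)`. `G (proj x) = (g x : UnitAddCircle)` by `hk`;
`G` is continuous (`proj_isOpenQuotientMap`) hence measurable, and does not depend on the coordinate `i` (by `hi`: two points of the torus which agree outside `i` have lifts which differ by `s e_i` and an integer vector).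
`d = n + 1`. `MeasureTheory.volume_preserving_piFinSuccAbove (fun _ => UnitAddCircle) i` identifies the torus with `UnitAddCircle × (Fin n → UnitAddCircle)`; in these coordinates `T (a, b) = (a + G' b, b)`.
This map preserves the product measure (`MeasurePreserving.skew_product` with base `b`, or Fubini), because the volume of the circle is translation invariant.
-/

set_option autoImplicit false

open MeasureTheory Set Filter Topology ContDiff
open Pool.Agent.H14.Lyap

namespace Pool.Agent.H20.VL

private lemma proj_single {d : ℕ} (i : Fin d) (x : Euc d) (s : ℝ) :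
    proj (x + s • EuclideanSpace.single i (1 : ℝ)) =
      Function.update (proj x) i (proj x i + ((s : ℝ) : UnitAddCircle)) := by
  funext j
  by_cases hj : j = i
  · subst hj
    simp [proj]
  · simp [proj, hj]

private lemma skew_aux {n : ℕ} (h : (Fin n → UnitAddCircle) → UnitAddCircle) (hh : Measurable h) :
    MeasurePreserving (fun p : UnitAddCircle × (Fin n → UnitAddCircle) => (p.1 + h p.2, p.2))
      (volume : Measure (UnitAddCircle × (Fin n → UnitAddCircle))) volume := by
  have h1 : MeasurePreserving
      (fun p : (Fin n → UnitAddCircle) × UnitAddCircle => (id p.1, p.2 + h p.1))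
      ((volume : Measure (Fin n → UnitAddCircle)).prod (volume : Measure UnitAddCircle))
      ((volume : Measure (Fin n → UnitAddCircle)).prod (volume : Measure UnitAddCircle)) := by
    refine MeasurePreserving.skew_product (g := fun b a => a + h b) (MeasurePreserving.id _) ?_ ?_
    · show Measurable fun p : (Fin n → UnitAddCircle) × UnitAddCircle => p.2 + h p.1
      exact measurable_snd.add (hh.comp measurable_fst)
    · refine Eventually.of_forall fun b => ?_
      exact map_add_right_eq_self _ _
  have h2 : MeasurePreserving (Prod.swap : UnitAddCircle × (Fin n → UnitAddCircle) → _)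
      (volume : Measure (UnitAddCircle × (Fin n → UnitAddCircle)))
      ((volume : Measure (Fin n → UnitAddCircle)).prod (volume : Measure UnitAddCircle)) :=
    Measure.measurePreserving_swap
  have h3 : MeasurePreserving (Prod.swap : (Fin n → UnitAddCircle) × UnitAddCircle → _)
      ((volume : Measure (Fin n → UnitAddCircle)).prod (volume : Measure UnitAddCircle))
      (volume : Measure (UnitAddCircle × (Fin n → UnitAddCircle))) :=
    Measure.measurePreserving_swap
  exact h3.comp (h1.comp h2)

theorem shear_preserves {d : ℕ} (i : Fin d) {g : Euc d → ℝ} (hg : Continuous g)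
    (hi : ∀ (x : Euc d) (s : ℝ), g (x + s • EuclideanSpace.single i (1 : ℝ)) = g x)
    (hk : ∀ (x : Euc d) (k : Fin d → ℤ), ∃ l : ℤ, g (x + zvec k) = g x + l) :
    MeasurePreserving (torusMap (fun x => x + g x • EuclideanSpace.single i (1 : ℝ)))
      (volume : Measure (Torus d)) volume := by
  rcases d with _ | n
  · exact i.elim0
  set G : Torus (n + 1) → UnitAddCircle := fun θ => ((g (rep θ) : ℝ) : UnitAddCircle) with hG
  have hGp : ∀ x, G (proj x) = ((g x : ℝ) : UnitAddCircle) := by
    intro x
    obtain ⟨k, hk1⟩ := rep_proj x
    obtain ⟨l, hl⟩ := hk x k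
    rw [hG]
    simp only
    rw [hk1, hl]
    exact (coe_eq_coe_iff _ _).2 ⟨l, rfl⟩
  have hGc : Continuous G := by
    rw [proj_isOpenQuotientMap.isQuotientMap.continuous_iff]
    have : G ∘ (proj : Euc (n + 1) → Torus (n + 1)) = fun x => ((g x : ℝ) : UnitAddCircle) := by
      funext x
      exact hGp x
    rw [this]
    exact (AddCircle.continuous_mk' 1).comp hg
  have hGi : ∀ (θ : Torus (n + 1)) (a : UnitAddCircle), G (Function.update θ i a) = G θ := by
    intro θ a
    obtain ⟨s, hs⟩ := QuotientAddGroup.mk_surjective (a - θ i)
    have h1 : proj (rep θ + s • EuclideanSpace.single i (1 : ℝ)) = Function.update θ i a := by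
      rw [proj_single, proj_rep]
      congr 1
      have h2 : ((s : ℝ) : UnitAddCircle) = a - θ i := hs
      rw [h2]; abel
    rw [← h1, hGp, hi]
  have hT : torusMap (fun x => x + g x • EuclideanSpace.single i (1 : ℝ)) =
      fun θ : Torus (n + 1) => Function.update θ i (θ i + G θ) := by
    funext θ
    unfold Pool.Agent.H14.Lyap.torusMap
    rw [proj_single, proj_rep]
  rw [hT]
  have he := volume_preserving_piFinSuccAbove (fun _ : Fin (n + 1) => UnitAddCircle) i
  set e := MeasurableEquiv.piFinSuccAbove (fun _ : Fin (n + 1) => UnitAddCircle) i with hedef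
  set h : (Fin n → UnitAddCircle) → UnitAddCircle := fun b => G (i.insertNth 0 b) with hh
  have hhc : Continuous h := by
    refine hGc.comp ?_
    refine continuous_pi fun j => ?_
    refine Fin.succAboveCases i ?_ (fun j => ?_) j
    · simp only [Fin.insertNth_apply_same]
      exact continuous_const
    · simp only [Fin.insertNth_apply_succAbove]
      exact continuous_apply j
  have hS := skew_aux h hhc.measurable
  have hcomp := (he.symm e).comp (hS.comp he)
  have hfun : (fun θ : Torus (n + 1) => Function.update θ i (θ i + G θ)) =
      e.symm ∘ ((fun p : UnitAddCircle × (Fin n → UnitAddCircle) => (p.1 + h p.2, p.2)) ∘ e) := by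
    funext θ
    have h1 : e θ = (θ i, fun j => θ (i.succAbove j)) := rfl
    have h2 : ∀ p, e.symm p = i.insertNth p.1 p.2 := fun _ => rfl
    simp only [Function.comp_apply, h1, h2]
    have h3 : h (fun j => θ (i.succAbove j)) = G θ := by
      rw [hh]
      simp only
      have h4 : (i.insertNth (0 : UnitAddCircle) (fun j => θ (i.succAbove j)) : Torus (n + 1)) =
          Function.update θ i 0 := by
        funext j
        refine Fin.succAboveCases i ?_ (fun j => ?_) j
        · simp
        · simp
      rw [h4, hGi]
    rw [h3]
    funext j
    refine Fin.succAboveCases i ?_ (fun j => ?_) j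
    · simp
    · simp
  rw [hfun]
  exact hcomp

/-- composition of maps of the torus given by lifts -/
lemma torusMap_comp {d : ℕ} {F G : Euc d → Euc d} (hF : ∀ x k, ∃ l, F (x + zvec k) = F x + zvec l) :
    torusMap (fun x => F (G x)) = fun θ => torusMap F (torusMap G θ) := by
  funext θ
  unfold Pool.Agent.H14.Lyap.torusMap
  obtain ⟨k, hk⟩ := rep_proj (G (rep θ))
  obtain ⟨l, hl⟩ := hF (G (rep θ)) k
  rw [hk, hl, proj_add_zvec]

end Pool.Agent.H20.VL
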