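import Pool.Agent.H20.VL.QM
import Pool.Agent.H20.VL.Tel
import Pool.Agent.H20.VL.AmpV

/-!
# Module OrbM: the orbit of the plane, time symmetry (about 200 lines)

Let `x_k = F^[k] x`, `F = FL n K L dl t`. `((F x) 2, (F x) 3) = Tr (x 1) ((F x) 1) (x 2 + sh, x 3 + sh gg)`, `sh = t amp(rr L)(cos² π x 0)` (`Pt` does not change the coordinates `0..4`).
* `FL_iter_23`: induction with `Tr_Q` (`step_small`): `Tr θ_k θ_{k+1} * Q θ_k = Q θ_{k+1}`.
* `EE_per`: `EE` is periodic: `cos`, `sin`, `amp` periodic; in `x 1`: `Q_add_int` for both (`Q (a + k) ((Q (b + k)).symm q) = Q a (S1^k ((S1^k).symm ((Q b).symm q)))`); in `x 2`, `x 3`: `Q_vec`, `Q_symm_vec`, and `sin(2πK(s + m)) = sin(2πK s)`.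
* `ep0_eq`: `H = 16 L`, `w_H = x 0 + 1/2`, `θ_H = x 1 - L cos(2π x 0)` (`FL_iter_1`, `cos(2π(x 0 + 1/2)) = -cos(2π x 0)`), `cos²(π w_H) = sin²(π x 0)`, `θ_H - L cos(2π w_H) = x 1`. If `amp(rr L)(sin² π x 0) = 0` both sides are `0`. Otherwise by
  `amp_sin_cos` no shift at the steps `j < H`, so by `FL_iter_23` `(x_H 2, x_H 3) = Q θ_H ((Q (x 1)).symm (x 2, x 3))` and `Q (x 1) ((Q θ_H).symm (x_H 2, x_H 3)) = (x 2, x 3)`.
* `ep0_eq'`: `sin²(π w_H) = cos²(π x 0)`. If `amp(rr L)(cos² π x 0) = 0` both sides are `0` (`sht` does not change `x 0`). Otherwise `amp(rr L)(sin² π x 0) = 0` (`amp_cos_sin`), so `xi = 0` at `x` and at `sht L t x`,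
  `FL .. t x = FL .. 0 (sht L t x)` (`sh r 0 = 0`), and `FL .. t y = FL .. 0 y` at the points `y = x_j`, `0 < j < H` (`amp_cos_cos`, `FL_iter_0`). So `FL_t^[H] x = FL_0^[H] (sht L t x)`; `FL_iter_23` for `t = 0`.
-/

set_option autoImplicit false

open MeasureTheory Set Filter Topology ContDiff
open Pool.Agent.H14.Lyap

namespace Pool.Agent.H20.VL

variable {n K L : ℕ} {dl t : ℝ}

private lemma FL_one (y : Euc 6) : (FL n K L dl t y) 1 = th (rr L) (cc L) (y 0) (y 1) := rfl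

private lemma FL_zero (y : Euc 6) : (FL n K L dl t y) 0 = y 0 + rr L := rfl

private lemma FL_pl (y : Euc 6) : ((FL n K L dl t y) 2, (FL n K L dl t y) 3) =
    Tr (y 1) ((FL n K L dl t y) 1) (y 2 + sh (rr L) t (y 0), y 3 + sh (rr L) t (y 0) * gg) := rfl

private lemma FL_step (hL : 1 ≤ L) (y : Euc 6) : ((FL n K L dl t y) 2, (FL n K L dl t y) 3) =
    Q ((FL n K L dl t y) 1)
      ((Q (y 1)).symm (y 2 + sh (rr L) t (y 0), y 3 + sh (rr L) t (y 0) * gg)) := by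
  rw [FL_pl]
  have h1 : Tr (y 1) ((FL n K L dl t y) 1) * Q (y 1) = Q ((FL n K L dl t y) 1) := by
    rw [FL_one]
    exact Tr_Q (step_small hL (y 0) (y 1))
  rw [← h1, Equiv.Perm.mul_apply, Equiv.apply_symm_apply]

theorem FL_iter_23 (hL : 1 ≤ L) (x : Euc 6) (k : ℕ)
    (h : ∀ j < k, t * amp (rr L) (Real.cos (Real.pi * (x 0 + j * rr L)) ^ 2) = 0) :
    (((FL n K L dl t)^[k] x) 2, ((FL n K L dl t)^[k] x) 3) =
      Q (((FL n K L dl t)^[k] x) 1) ((Q (x 1)).symm (x 2, x 3)) := by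
  induction k with
  | zero => simp
  | succ k ih =>
    have ih' := ih fun j hj => h j (hj.trans (Nat.lt_succ_self k))
    rw [Function.iterate_succ_apply']
    have hs : sh (rr L) t (((FL n K L dl t)^[k] x) 0) = 0 := by
      unfold sh
      rw [FL_iter_0]
      exact h k (Nat.lt_succ_self k)
    rw [FL_step hL, hs, zero_mul, add_zero, add_zero, ih', Equiv.symm_apply_apply]

private lemma cos2_half (w : ℝ) : Real.cos (2 * Real.pi * (w + 1 / 2)) =
    -Real.cos (2 * Real.pi * w) := by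
  have e : 2 * Real.pi * (w + 1 / 2) = 2 * Real.pi * w + Real.pi := by ring
  rw [e, Real.cos_add_pi]

private lemma cos_half (w : ℝ) : Real.cos (Real.pi * (w + 1 / 2)) ^ 2 =
    Real.sin (Real.pi * w) ^ 2 := by
  have e : Real.pi * (w + 1 / 2) = Real.pi * w + Real.pi / 2 := by ring
  rw [e, Real.cos_add_pi_div_two, neg_sq]

private lemma sin_half (w : ℝ) : Real.sin (Real.pi * (w + 1 / 2)) ^ 2 =
    Real.cos (Real.pi * w) ^ 2 := by
  have e : Real.pi * (w + 1 / 2) = Real.pi * w + Real.pi / 2 := by ring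
  rw [e, Real.sin_add_pi_div_two]

private lemma cos2_int (w : ℝ) (m : ℤ) : Real.cos (2 * Real.pi * (w + m)) =
    Real.cos (2 * Real.pi * w) := by
  have e : 2 * Real.pi * (w + m) = 2 * Real.pi * w + m * (2 * Real.pi) := by ring
  rw [e, Real.cos_add_int_mul_two_pi]

private lemma cosq_int (w : ℝ) (m : ℤ) : Real.cos (Real.pi * (w + m)) ^ 2 =
    Real.cos (Real.pi * w) ^ 2 := by
  rw [Real.cos_sq, Real.cos_sq]
  have e : 2 * (Real.pi * (w + m)) = 2 * Real.pi * (w + m) := by ring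
  have e' : 2 * (Real.pi * w) = 2 * Real.pi * w := by ring
  rw [e, e', cos2_int]

theorem EE_per (x : Euc 6) (k : Fin 6 → ℤ) : EE K L dl (x + zvec k) = EE K L dl x := by
  unfold EE
  have e0 : (x + zvec k) 0 = x 0 + k 0 := rfl
  have e1 : (x + zvec k) 1 = x 1 + k 1 := rfl
  have e2 : (x + zvec k) 2 = x 2 + k 2 := rfl
  have e3 : (x + zvec k) 3 = x 3 + k 3 := rfl
  rw [e0, e1, e2, e3, cosq_int, cos2_int]
  have a1 : x 1 + (k 1 : ℝ) - L * Real.cos (2 * Real.pi * x 0) =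
      (x 1 - L * Real.cos (2 * Real.pi * x 0)) + (k 1 : ℝ) := by ring
  rw [a1, Q_add_int, Q_add_int]
  have a2 : (Q (x 1) * S1 ^ (k 1)).symm (x 2 + (k 2 : ℝ), x 3 + (k 3 : ℝ)) =
      (S1 ^ (k 1)).symm ((Q (x 1)).symm (x 2 + (k 2 : ℝ), x 3 + (k 3 : ℝ))) := rfl
  rw [a2, Equiv.Perm.mul_apply, Equiv.apply_symm_apply]
  have a3 := Q_symm_vec (x 1) (x 2, x 3) (k 2) (k 3)
  simp only at a3
  rw [a3, Q_vec]
  simp only
  have a4 : 2 * Real.pi * K * ((Q (x 1 - L * Real.cos (2 * Real.pi * x 0))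
      ((Q (x 1)).symm (x 2, x 3))).1 + (k 2 : ℝ)) =
      2 * Real.pi * K * (Q (x 1 - L * Real.cos (2 * Real.pi * x 0))
      ((Q (x 1)).symm (x 2, x 3))).1 + ((K * k 2 : ℤ) : ℝ) * (2 * Real.pi) := by
    push_cast
    ring
  rw [a4, Real.sin_add_int_mul_two_pi]

private lemma y_zero (hL : 1 ≤ L) (x : Euc 6) :
    ((FL n K L dl t)^[16 * L] x) 0 = x 0 + 1 / 2 := by
  rw [FL_iter_0, half_rr hL]

private lemma y_one (hL : 1 ≤ L) (x : Euc 6) :
    ((FL n K L dl t)^[16 * L] x) 1 = x 1 - L * Real.cos (2 * Real.pi * x 0) := by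
  rw [FL_iter_1 hL, half_rr hL, cos2_half]
  ring

theorem ep0_eq (hL : 1 ≤ L) (x : Euc 6) : ep0 K L dl x = EE K L dl ((FL n K L dl t)^[16 * L] x) := by
  unfold ep0 EE
  rw [y_zero hL, cos_half, cos2_half, y_one hL]
  have a1 : x 1 - L * Real.cos (2 * Real.pi * x 0) - L * -Real.cos (2 * Real.pi * x 0) = x 1 := by
    ring
  rw [a1]
  by_cases hw : amp (rr L) (Real.sin (Real.pi * x 0) ^ 2) = 0
  · rw [hw, zero_mul, zero_mul]
  · have h1 := FL_iter_23 (n := n) (K := K) (dl := dl) (t := t) hL x (16 * L) (fun j hj => by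
      rw [amp_sin_cos hL hw (by omega) (by omega), mul_zero])
    rw [h1, y_one hL, Equiv.symm_apply_apply, Equiv.apply_symm_apply]

theorem ep0_eq' (hL : 1 ≤ L) (x : Euc 6) :
    ep0 K L dl ((FL n K L dl t)^[16 * L] x) = EE K L dl (sht L t x) := by
  unfold ep0 EE
  rw [y_zero hL, sin_half]
  have b0 : (sht L t x) 0 = x 0 := rfl
  have b1 : (sht L t x) 1 = x 1 := rfl
  have b2 : (sht L t x) 2 = x 2 + sh (rr L) t (x 0) := rfl
  have b3 : (sht L t x) 3 = x 3 + sh (rr L) t (x 0) * gg := rfl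
  rw [b0, b1, b2, b3]
  by_cases hw : amp (rr L) (Real.cos (Real.pi * x 0) ^ 2) = 0
  · rw [hw, zero_mul, zero_mul]
  · obtain ⟨m, hm⟩ : ∃ m, 16 * L = m + 1 := ⟨16 * L - 1, by omega⟩
    have h1 := FL_iter_23 (n := n) (K := K) (dl := dl) (t := t) hL (FL n K L dl t x) m
      (fun j hj => by
        have e : (FL n K L dl t x) 0 + j * rr L = x 0 + ((j + 1 : ℕ) : ℝ) * rr L := by
          rw [FL_zero]
          push_cast
          ring
        rw [e, amp_cos_cos hL hw (by omega) (by omega), mul_zero])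
    rw [FL_step hL, Equiv.symm_apply_apply] at h1
    have h2 : (FL n K L dl t)^[16 * L] x = (FL n K L dl t)^[m] (FL n K L dl t x) := by
      rw [hm, Function.iterate_succ_apply]
    have h3 := y_one (n := n) (K := K) (dl := dl) (t := t) hL x
    rw [← h2] at h1
    rw [h3] at h1
    rw [← h1]

end Pool.Agent.H20.VL
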