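import Pool.Agent.H20.VL.Defs

/-!
# Module PhiM: the average `Ph` (about 150 lines)

`0 < al ≤ 1/2`, `|ε| ≤ 1/10`, `C = cos 2πy`: `|al ε C| ≤ 1/20`. `gam al ε y = εC/(1 + al εC) = εC - al ε² C²/(1 + al εC)`; `∫₀¹ C = 0`, `∫₀¹ C² = 1/2`; so `-Ph al ε = al ε² ∫ C²/(1 + al εC) ∈ [al ε² (1/2)/1.05, al ε² (1/2)/0.95]`.
`Ph_even`: `gam al (-ε) y = gam al ε (y + 1/2)` and periodicity (`Function.Periodic.intervalIntegral_add_eq`). `Ph_cont`: `intervalIntegral.continuousOn...` or continuity of parametric integrals (`gam` composed with the clamp `max (-1/10) (min (1/10) ε)` is jointly continuous).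
`gam_int`: `a ≥ 1` natural: `∫₀¹ h(y₀ + a s) ds = ∫₀¹ h` for continuous `1`-periodic `h` (`intervalIntegral.integral_comp_mul_add` .., `Function.Periodic.intervalIntegral_add_eq`: `(1/a) ∫_{y₀}^{y₀+a} h`).
-/

set_option autoImplicit false

open MeasureTheory Set Filter Topology ContDiff
open Pool.Agent.H14.Lyap

namespace Pool.Agent.H20.VL

variable {al ε : ℝ}

private lemma al_abs (h0 : 0 ≤ al) (h1 : al ≤ 1 / 2) (hε : |ε| ≤ 1 / 10) (c : ℝ) (hc : |c| ≤ 1) :
    |al * (ε * c)| ≤ 1 / 20 := by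
  rw [abs_mul, abs_mul, abs_of_nonneg h0]
  calc al * (|ε| * |c|) ≤ (1 / 2) * ((1 / 10) * 1) :=
        mul_le_mul h1 (mul_le_mul hε hc (abs_nonneg _) (by norm_num)) (by positivity) (by norm_num)
    _ = 1 / 20 := by norm_num

private lemma den_bds (h0 : 0 ≤ al) (h1 : al ≤ 1 / 2) (hε : |ε| ≤ 1 / 10) (y : ℝ) :
    19 / 20 ≤ 1 + al * (ε * Real.cos (2 * Real.pi * y)) ∧
      1 + al * (ε * Real.cos (2 * Real.pi * y)) ≤ 21 / 20 := by
  have h := abs_le.1 (al_abs h0 h1 hε _ (Real.abs_cos_le_one (2 * Real.pi * y)))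
  constructor <;> linarith [h.1, h.2]

lemma gam_abs (h0 : 0 ≤ al) (h1 : al ≤ 1 / 2) (hε : |ε| ≤ 1 / 10) (y : ℝ) : |gam al ε y| ≤ 2 * |ε| := by
  obtain ⟨hd, -⟩ := den_bds h0 h1 hε y
  have hd0 : 0 < 1 + al * (ε * Real.cos (2 * Real.pi * y)) := by linarith
  unfold gam
  rw [abs_div, abs_of_pos hd0, div_le_iff₀ hd0, abs_mul]
  have h2 : |ε| * |Real.cos (2 * Real.pi * y)| ≤ |ε| * 1 :=
    mul_le_mul_of_nonneg_left (Real.abs_cos_le_one _) (abs_nonneg _)
  nlinarith [abs_nonneg ε]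

lemma Ph_zero : Ph al 0 = 0 := by
  unfold Ph gam
  simp

private lemma gam_per (al ε : ℝ) : Function.Periodic (gam al ε) 1 := by
  intro y
  have h : Real.cos (2 * Real.pi * (y + 1)) = Real.cos (2 * Real.pi * y) := by
    rw [mul_add, mul_one, Real.cos_add_two_pi]
  unfold gam
  rw [h]

lemma Ph_even (al ε : ℝ) : Ph al (-ε) = Ph al ε := by
  have h1 : ∀ y, gam al (-ε) y = gam al ε (y + 1 / 2) := by
    intro y
    have h : Real.cos (2 * Real.pi * (y + 1 / 2)) = -Real.cos (2 * Real.pi * y) := by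
      rw [show 2 * Real.pi * (y + 1 / 2) = 2 * Real.pi * y + Real.pi by ring, Real.cos_add_pi]
    unfold gam
    rw [h]
    congr 1 <;> ring
  unfold Ph
  simp only [h1]
  rw [intervalIntegral.integral_comp_add_right (fun y => gam al ε y) (1 / 2)]
  have h2 := (gam_per al ε).intervalIntegral_add_eq (0 + 1 / 2) 0
  rw [show (1 : ℝ) + 1 / 2 = 0 + 1 / 2 + 1 by ring, h2, zero_add]

private lemma gam_cont (h0 : 0 ≤ al) (h1 : al ≤ 1 / 2) (hε : |ε| ≤ 1 / 10) : Continuous (gam al ε) := by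
  unfold gam
  refine Continuous.div (by fun_prop) (by fun_prop) fun y => ?_
  have := (den_bds h0 h1 hε y).1
  intro h
  rw [h] at this
  norm_num at this

private lemma int_cos : ∫ y in (0 : ℝ)..1, Real.cos (2 * Real.pi * y) = 0 := by
  rw [intervalIntegral.integral_comp_mul_left (fun y => Real.cos y) (by positivity), integral_cos]
  simp

private lemma int_cos_sq : ∫ y in (0 : ℝ)..1, Real.cos (2 * Real.pi * y) ^ 2 = 1 / 2 := by
  rw [intervalIntegral.integral_comp_mul_left (fun y => Real.cos y ^ 2) (by positivity), integral_cos_sq]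
  simp only [mul_zero, mul_one, Real.sin_two_pi, Real.sin_zero, smul_eq_mul, sub_zero, zero_add]
  have : Real.pi ≠ 0 := Real.pi_ne_zero
  field_simp

private lemma int_comb (ε b : ℝ) :
    ∫ y in (0 : ℝ)..1, (-(ε * Real.cos (2 * Real.pi * y)) + b * Real.cos (2 * Real.pi * y) ^ 2) = b / 2 := by
  have i1 : IntervalIntegrable (fun y : ℝ => -(ε * Real.cos (2 * Real.pi * y))) volume 0 1 :=
    (by fun_prop : Continuous fun y : ℝ => -(ε * Real.cos (2 * Real.pi * y))).intervalIntegrable _ _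
  have i2 : IntervalIntegrable (fun y : ℝ => b * Real.cos (2 * Real.pi * y) ^ 2) volume 0 1 :=
    (by fun_prop : Continuous fun y : ℝ => b * Real.cos (2 * Real.pi * y) ^ 2).intervalIntegrable _ _
  rw [intervalIntegral.integral_add i1 i2, intervalIntegral.integral_neg,
    intervalIntegral.integral_const_mul, intervalIntegral.integral_const_mul, int_cos, int_cos_sq]
  ring

/-- `-gam = -ε C + al ε² C² / D` -/
private lemma neg_gam (h0 : 0 ≤ al) (h1 : al ≤ 1 / 2) (hε : |ε| ≤ 1 / 10) (y : ℝ) :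
    -gam al ε y = -(ε * Real.cos (2 * Real.pi * y)) +
      (al * ε ^ 2 * Real.cos (2 * Real.pi * y) ^ 2) / (1 + al * (ε * Real.cos (2 * Real.pi * y))) := by
  obtain ⟨hd, -⟩ := den_bds h0 h1 hε y
  have hd0 : 1 + al * (ε * Real.cos (2 * Real.pi * y)) ≠ 0 := by
    intro h
    rw [h] at hd
    norm_num at hd
  unfold gam
  generalize Real.cos (2 * Real.pi * y) = c at *
  obtain ⟨D, hD⟩ : ∃ D, D = 1 + al * (ε * c) := ⟨_, rfl⟩
  have h3 : al * ε ^ 2 * c ^ 2 = ε * c * (D - 1) := by rw [hD]; ring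
  rw [← hD] at hd0
  rw [h3, ← hD]
  field_simp
  ring

lemma Ph_lower (h0 : 0 ≤ al) (h1 : al ≤ 1 / 2) (hε : |ε| ≤ 1 / 10) : 2 / 5 * (al * ε ^ 2) ≤ -Ph al ε := by
  have h2 : ∫ y in (0 : ℝ)..1, (-(ε * Real.cos (2 * Real.pi * y)) +
      (20 / 21 * (al * ε ^ 2)) * Real.cos (2 * Real.pi * y) ^ 2) ≤ ∫ y in (0 : ℝ)..1, -gam al ε y := by
    refine intervalIntegral.integral_mono_on (by norm_num) ?_ ?_ ?_
    · exact (by fun_prop : Continuous fun y : ℝ => (-(ε * Real.cos (2 * Real.pi * y)) +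
        (20 / 21 * (al * ε ^ 2)) * Real.cos (2 * Real.pi * y) ^ 2)).intervalIntegrable _ _
    · exact (gam_cont h0 h1 hε).neg.intervalIntegrable _ _
    · intro y _
      obtain ⟨hd, hd'⟩ := den_bds h0 h1 hε y
      rw [neg_gam h0 h1 hε]
      have h3 : 20 / 21 * (al * ε ^ 2) * Real.cos (2 * Real.pi * y) ^ 2 ≤
          (al * ε ^ 2 * Real.cos (2 * Real.pi * y) ^ 2) / (1 + al * (ε * Real.cos (2 * Real.pi * y))) := by
        rw [le_div_iff₀ (by linarith)]
        have h4 : 0 ≤ al * ε ^ 2 * Real.cos (2 * Real.pi * y) ^ 2 := by positivity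
        nlinarith
      linarith
  rw [int_comb, intervalIntegral.integral_neg] at h2
  have h3 : 0 ≤ al * ε ^ 2 := by positivity
  unfold Ph
  linarith

lemma Ph_upper (h0 : 0 ≤ al) (h1 : al ≤ 1 / 2) (hε : |ε| ≤ 1 / 10) : -Ph al ε ≤ 3 / 5 * (al * ε ^ 2) := by
  have h2 : ∫ y in (0 : ℝ)..1, -gam al ε y ≤ ∫ y in (0 : ℝ)..1, (-(ε * Real.cos (2 * Real.pi * y)) +
      (20 / 19 * (al * ε ^ 2)) * Real.cos (2 * Real.pi * y) ^ 2) := by
    refine intervalIntegral.integral_mono_on (by norm_num) ?_ ?_ ?_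
    · exact (gam_cont h0 h1 hε).neg.intervalIntegrable _ _
    · exact (by fun_prop : Continuous fun y : ℝ => (-(ε * Real.cos (2 * Real.pi * y)) +
        (20 / 19 * (al * ε ^ 2)) * Real.cos (2 * Real.pi * y) ^ 2)).intervalIntegrable _ _
    · intro y _
      obtain ⟨hd, hd'⟩ := den_bds h0 h1 hε y
      rw [neg_gam h0 h1 hε]
      have h3 : (al * ε ^ 2 * Real.cos (2 * Real.pi * y) ^ 2) / (1 + al * (ε * Real.cos (2 * Real.pi * y))) ≤
          20 / 19 * (al * ε ^ 2) * Real.cos (2 * Real.pi * y) ^ 2 := by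
        rw [div_le_iff₀ (by linarith)]
        have h4 : 0 ≤ al * ε ^ 2 * Real.cos (2 * Real.pi * y) ^ 2 := by positivity
        nlinarith
      linarith
  rw [int_comb, intervalIntegral.integral_neg] at h2
  have h3 : 0 ≤ al * ε ^ 2 := by positivity
  unfold Ph
  linarith

lemma Ph_cont (h0 : 0 ≤ al) (h1 : al ≤ 1 / 2) : ContinuousOn (Ph al) (Icc (-(1 / 10)) (1 / 10)) := by
  have hcl : ∀ ε : ℝ, |max (-(1 / 10)) (min (1 / 10) ε)| ≤ 1 / 10 := by
    intro ε
    rw [abs_le]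
    refine ⟨le_max_left _ _, max_le (by norm_num) (min_le_left _ _)⟩
  have hc : Continuous fun ε : ℝ => ∫ y in (0 : ℝ)..1, gam al (max (-(1 / 10)) (min (1 / 10) ε)) y := by
    refine intervalIntegral.continuous_parametric_intervalIntegral_of_continuous' ?_ 0 1
    unfold gam Function.uncurry
    refine Continuous.div (by fun_prop) (by fun_prop) fun p => ?_
    have := (den_bds h0 h1 (hcl p.1) p.2).1
    intro h
    rw [h] at this
    norm_num at this
  refine hc.continuousOn.congr fun ε hε => ?_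
  have h2 : max (-(1 / 10)) (min (1 / 10) ε) = ε := by
    rw [min_eq_right hε.2, max_eq_right hε.1]
  simp only [h2]
  rfl

lemma gam_int (h0 : 0 ≤ al) (h1 : al ≤ 1 / 2) (hε : |ε| ≤ 1 / 10) (y₀ : ℝ) {a : ℕ} (ha : 0 < a) :
    ∫ s in (0 : ℝ)..1, gam al ε (y₀ + a * s) = Ph al ε := by
  have ha' : (a : ℝ) ≠ 0 := by exact_mod_cast ha.ne'
  rw [intervalIntegral.integral_comp_add_mul (fun y => gam al ε y) ha' y₀, mul_zero, add_zero, mul_one]
  have h2 := (gam_per al ε).intervalIntegral_add_zsmul_eq (a : ℤ) y₀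
    (fun t₁ t₂ => (gam_cont h0 h1 hε).intervalIntegrable t₁ t₂)
  have h3 : ((a : ℤ) • (1 : ℝ)) = a := by simp
  rw [h3] at h2
  rw [h2, (gam_per al ε).intervalIntegral_add_eq y₀ 0, zero_add]
  unfold Ph
  rw [zsmul_eq_mul, smul_eq_mul, Int.cast_natCast, ← mul_assoc, inv_mul_cancel₀ ha', one_mul]

end Pool.Agent.H20.VL
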