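import Pool.Agent.H20.VL.Stair
import Pool.Agent.H20.VL.FzM

/-!
# Module QM: the cocycle of the flow (about 150 lines)

`Sx a * Sx b = Sx (a + b)`, `Sz a * Sz b = Sz (a + b)`, `Sx 0 = 1`, `Sz 0 = 1`.
`Tr_Q`: let `k = ⌊θ⌋`. (a) `⌊θ'⌋ = k`: if `θ ≤ k + 3/5` then `W(θ - 1/2) = k` (`W_zone`), so `Tr θ θ' * Q θ = Sz(W(θ'-1/2) - k) Sx(W θ' - W θ) Sx(W θ - k) S1^k = Q θ'`. If `θ > k + 3/5` then `θ, θ' ≥ k + 2/5`, `θ, θ' < k + 1`, so
`W θ = W θ' = k + 1` and `Sx(0) = 1`: `Tr θ θ' * Q θ = Sz(W(θ'-1/2) - W(θ-1/2)) Sz(W(θ-1/2) - k) Sx(1) S1^k = Q θ'`. (b) `⌊θ'⌋ > k`: `θ ≥ k + 9/10`, `θ' < k + 11/10`, `⌊θ'⌋ = k + 1`, all four values of `W` are `k + 1`: `Tr = 1`,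
`Q θ = Sz 1 Sx 1 S1^k = S1^(k+1) = Q θ'`. (c) `⌊θ'⌋ < k`: `k - 1/10 ≤ θ'`, `θ < k + 1/10`, all values of `W` are `k`: `Q θ = S1^k`, `Q θ' = Sz 1 Sx 1 S1^(k-1) = S1^k`.
`Q_add_int`: `W_add_int`, `⌊θ + k⌋ = ⌊θ⌋ + k`, `zpow_add`. `Q_zone`: `W θ = k`, `W (θ - 1/2) = k`, `⌊θ⌋ = k`.
`Q_vec`: `Sx a`, `Sz a` commute with integer translations (`Fz_add_int`), hence also their inverses, products and powers (the set of permutations commuting with a given translation is a subgroup).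
-/

set_option autoImplicit false

open MeasureTheory Set Filter Topology ContDiff
open Pool.Agent.H14.Lyap

namespace Pool.Agent.H20.VL

private lemma sx_mul (a b : ℝ) : Sx a * Sx b = Sx (a + b) := by
  apply Equiv.ext
  intro q
  show Sx a (Sx b q) = Sx (a + b) q
  rw [Sx_apply, Sx_apply, Sx_apply]
  ext
  · simp only
    ring
  · rfl

private lemma sz_mul (a b : ℝ) : Sz a * Sz b = Sz (a + b) := by
  apply Equiv.ext
  intro q
  show Sz a (Sz b q) = Sz (a + b) q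
  rw [Sz_apply, Sz_apply, Sz_apply]
  ext
  · rfl
  · simp only
    ring

private lemma sx_zero : Sx 0 = 1 := by
  apply Equiv.ext
  intro q
  rw [Sx_apply]
  ext <;> simp

private lemma sz_zero : Sz 0 = 1 := by
  apply Equiv.ext
  intro q
  rw [Sz_apply]
  ext <;> simp

private lemma s1_succ (k : ℤ) : Sz 1 * Sx 1 * S1 ^ k = S1 ^ (k + 1) := by
  rw [add_comm, zpow_add, zpow_one]
  rfl

/-- `Q θ` written with a neighbouring integer -/
private lemma q_near {θ : ℝ} (k : ℤ) (h1 : (k : ℝ) - 1 / 10 ≤ θ) (h2 : θ ≤ k + 1 + 1 / 10) :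
    Q θ = Sz (W (θ - 1 / 2) - k) * Sx (W θ - k) * S1 ^ k := by
  rcases lt_or_ge θ (k : ℝ) with h | h
  · have hf : ⌊θ⌋ = k - 1 := Int.floor_eq_iff.2 ⟨by push_cast; linarith, by push_cast; linarith⟩
    have e1 : W θ = k := W_zone k (by linarith) (by linarith)
    have e2 : W (θ - 1 / 2) = k := W_zone k (by linarith) (by linarith)
    unfold Q
    rw [hf, e1, e2, sub_self, sz_zero, sx_zero, one_mul, one_mul]
    push_cast
    rw [sub_sub_cancel, s1_succ, sub_add_cancel]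
  · rcases lt_or_ge θ ((k : ℝ) + 1) with h' | h'
    · have hf : ⌊θ⌋ = k := Int.floor_eq_iff.2 ⟨h, h'⟩
      unfold Q
      rw [hf]
    · have hf : ⌊θ⌋ = k + 1 := Int.floor_eq_iff.2 ⟨by push_cast; linarith, by push_cast; linarith⟩
      have e1 : W θ = ((k + 1 : ℤ) : ℝ) := W_zone (k + 1) (by push_cast; linarith) (by push_cast; linarith)
      have e2 : W (θ - 1 / 2) = ((k + 1 : ℤ) : ℝ) :=
        W_zone (k + 1) (by push_cast; linarith) (by push_cast; linarith)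
      unfold Q
      rw [hf, e1, e2, sub_self, sz_zero, sx_zero, one_mul, one_mul]
      push_cast
      rw [add_sub_cancel_left, s1_succ]

theorem Tr_Q {θ θ' : ℝ} (h : |θ' - θ| ≤ 1 / 10) : Tr θ θ' * Q θ = Q θ' := by
  obtain ⟨h1, h2⟩ := abs_le.1 h
  set k : ℤ := ⌊θ⌋ with hk
  have hk1 : (k : ℝ) ≤ θ := Int.floor_le θ
  have hk2 : θ < k + 1 := Int.lt_floor_add_one θ
  rw [q_near (θ := θ) k (by linarith) (by linarith), q_near (θ := θ') k (by linarith) (by linarith)]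
  unfold Tr
  have key : Sx (W θ' - W θ) * Sz (W (θ - 1 / 2) - k) = Sz (W (θ - 1 / 2) - k) * Sx (W θ' - W θ) := by
    rcases le_or_gt θ ((k : ℝ) + 3 / 5) with h3 | h3
    · have e : W (θ - 1 / 2) = k := W_zone k (by linarith) (by linarith)
      rw [e, sub_self, sz_zero, mul_one, one_mul]
    · have e1 : W θ = ((k + 1 : ℤ) : ℝ) := W_zone (k + 1) (by push_cast; linarith) (by push_cast; linarith)
      have e2 : W θ' = ((k + 1 : ℤ) : ℝ) := W_zone (k + 1) (by push_cast; linarith) (by push_cast; linarith)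
      rw [e1, e2, sub_self, sx_zero, mul_one, one_mul]
  calc Sz (W (θ' - 1 / 2) - W (θ - 1 / 2)) * Sx (W θ' - W θ) *
        (Sz (W (θ - 1 / 2) - k) * Sx (W θ - k) * S1 ^ k)
      = Sz (W (θ' - 1 / 2) - W (θ - 1 / 2)) * (Sx (W θ' - W θ) * Sz (W (θ - 1 / 2) - k)) *
          (Sx (W θ - k) * S1 ^ k) := by group
    _ = (Sz (W (θ' - 1 / 2) - W (θ - 1 / 2)) * Sz (W (θ - 1 / 2) - k)) *
          (Sx (W θ' - W θ) * Sx (W θ - k)) * S1 ^ k := by rw [key]; group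
    _ = _ := by
        rw [sz_mul, sx_mul, sub_add_sub_cancel, sub_add_sub_cancel]

lemma Q_add_int (θ : ℝ) (k : ℤ) : Q (θ + k) = Q θ * S1 ^ k := by
  unfold Q
  have e1 : θ + k - 1 / 2 = θ - 1 / 2 + k := by ring
  rw [Int.floor_add_intCast, e1, W_add_int, W_add_int, zpow_add, ← mul_assoc]
  push_cast
  rw [add_sub_add_right_eq_sub, add_sub_add_right_eq_sub]

lemma Q_zone {θ : ℝ} (k : ℤ) (h1 : (k : ℝ) ≤ θ) (h2 : θ ≤ k + 1 / 10) : Q θ = S1 ^ k := by
  have e1 : W θ = k := W_zone k (by linarith) (by linarith)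
  have e2 : W (θ - 1 / 2) = k := W_zone k (by linarith) (by linarith)
  rw [q_near k (by linarith) (by linarith), e1, e2, sub_self, sz_zero, sx_zero, one_mul, one_mul]

/-- the translation by an integer vector -/
private def tv (a b : ℤ) : Equiv.Perm (ℝ × ℝ) where
  toFun q := (q.1 + a, q.2 + b)
  invFun q := (q.1 - a, q.2 - b)
  left_inv q := by simp
  right_inv q := by simp

private lemma tv_apply (a b : ℤ) (q : ℝ × ℝ) : tv a b q = (q.1 + a, q.2 + b) := rfl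

private lemma sx_comm (c : ℝ) (a b : ℤ) : Commute (Sx c) (tv a b) := by
  apply Equiv.ext
  intro q
  show Sx c (tv a b q) = tv a b (Sx c q)
  rw [tv_apply, tv_apply, Sx_apply, Sx_apply]
  ext
  · simp only
    rw [Fz_add_int]
    ring
  · rfl

private lemma sz_comm (c : ℝ) (a b : ℤ) : Commute (Sz c) (tv a b) := by
  apply Equiv.ext
  intro q
  show Sz c (tv a b q) = tv a b (Sz c q)
  rw [tv_apply, tv_apply, Sz_apply, Sz_apply]
  ext
  · rfl
  · simp only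
    rw [Fz_add_int]
    ring

private lemma q_comm (θ : ℝ) (a b : ℤ) : Commute (Q θ) (tv a b) := by
  unfold Q S1
  exact ((sz_comm _ a b).mul_left (sx_comm _ a b)).mul_left
    (((sz_comm _ a b).mul_left (sx_comm _ a b)).zpow_left _)

lemma Q_vec (θ : ℝ) (q : ℝ × ℝ) (a b : ℤ) : Q θ (q.1 + a, q.2 + b) = ((Q θ q).1 + a, (Q θ q).2 + b) :=
  congrArg (fun P : Equiv.Perm (ℝ × ℝ) => P q) (q_comm θ a b)

lemma Q_symm_vec (θ : ℝ) (q : ℝ × ℝ) (a b : ℤ) :
    (Q θ).symm (q.1 + a, q.2 + b) = (((Q θ).symm q).1 + a, ((Q θ).symm q).2 + b) := by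
  rw [Equiv.symm_apply_eq, Q_vec, Equiv.apply_symm_apply]

end Pool.Agent.H20.VL
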