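import Pool.Agent.H20.VL.OrbM
import Pool.Agent.H20.VL.PhiM
import Pool.Agent.H20.VL.AmpS

/-!
# Module TDefs: functions on the torus (about 150 lines)

`ep0`, `EE` are periodic (`EE_per`; `ep0`: `sin² π(w + k) = sin² πw`, `sin(2πK(s + k)) = sin(2πK s)`), so `f (rep (proj x)) = f x` (`rep_proj`). `|ep0|, |EE| ≤ dl` (`0 ≤ amp ≤ 1`, `|sin| ≤ 1`).
`ep0` is continuous (`amp_contDiff`); a function `θ ↦ F (rep θ)` with `F` continuous and periodic is continuous (`descend`). `al ν ≤ 1/2`. `1 + al c ≥ 19/20` for `|c| ≤ 1/10`. `Ph_cont` for `pT`.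
`RT_cont`: `RT (f θ) = pT θ` for `f = E.D.f^[16 L]` (`ep0_eq`, `E.D.f (proj x) = proj (FL .. x)`, see `f_iter`), `f` is a homeomorphism (`Homeomorph` iterate: `RT = pT ∘ (E.D.f.symm)^[16 L]`).
-/

set_option autoImplicit false

open MeasureTheory Set Filter Topology ContDiff
open Pool.Agent.H14.Lyap

namespace Pool.Agent.H20.VL

noncomputable section

def al (ν : ℝ) : ℝ := ν / (ν ^ 2 + 1)
def be (ν : ℝ) : ℝ := 1 / (ν ^ 2 + 1)
def ga (ν : ℝ) : ℝ := ν ^ 2 / (ν ^ 2 + 1)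

/-- `ε(x) cos 2πy₁` -/
def c0 (K L : ℕ) (dl : ℝ) (x : Euc 6) : ℝ := ep0 K L dl x * Real.cos (2 * Real.pi * x 4)

def gT (ν : ℝ) (K L : ℕ) (dl : ℝ) (θ : Torus 6) : ℝ := gam (al ν) (ep0 K L dl (rep θ)) ((rep θ) 4)
def pT (ν : ℝ) (K L : ℕ) (dl : ℝ) (θ : Torus 6) : ℝ := Ph (al ν) (ep0 K L dl (rep θ))
def RT (ν : ℝ) (K L : ℕ) (dl : ℝ) (θ : Torus 6) : ℝ := Ph (al ν) (EE K L dl (rep θ))
def lT (ν : ℝ) (K L : ℕ) (dl : ℝ) (θ : Torus 6) : ℝ := Real.log (1 + al ν * c0 K L dl (rep θ))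

variable {ν : ℝ} {n K L : ℕ} {dl t : ℝ}

lemma al_nonneg (hν : 0 ≤ ν) : 0 ≤ al ν := div_nonneg hν (by positivity)
lemma al_le (ν : ℝ) : al ν ≤ 1 / 2 := by
  unfold al
  rw [div_le_div_iff₀ (by positivity) (by norm_num)]
  nlinarith [sq_nonneg (ν - 1)]

private lemma td_sin (K : ℕ) (s : ℝ) (k : ℤ) :
    Real.sin (2 * Real.pi * K * (s + k)) = Real.sin (2 * Real.pi * K * s) := by
  have h : 2 * Real.pi * K * (s + k) = 2 * Real.pi * K * s + ((K * k : ℤ) : ℝ) * (2 * Real.pi) := by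
    push_cast; ring
  rw [h, Real.sin_add_int_mul_two_pi]

private lemma td_cos (s : ℝ) (k : ℤ) :
    Real.cos (2 * Real.pi * (s + k)) = Real.cos (2 * Real.pi * s) := by
  have h : 2 * Real.pi * (s + k) = 2 * Real.pi * s + (k : ℝ) * (2 * Real.pi) := by ring
  rw [h, Real.cos_add_int_mul_two_pi]

private lemma td_sin2 (s : ℝ) (k : ℤ) :
    Real.sin (Real.pi * (s + k)) ^ 2 = Real.sin (Real.pi * s) ^ 2 := by
  rw [Real.sin_sq_eq_half_sub, Real.sin_sq_eq_half_sub,
    show 2 * (Real.pi * (s + k)) = 2 * Real.pi * (s + k) by ring, td_cos,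
    show 2 * (Real.pi * s) = 2 * Real.pi * s by ring]

private lemma td_cos2 (s : ℝ) (k : ℤ) :
    Real.cos (Real.pi * (s + k)) ^ 2 = Real.cos (Real.pi * s) ^ 2 := by
  rw [Real.cos_sq, Real.cos_sq, show 2 * (Real.pi * (s + k)) = 2 * Real.pi * (s + k) by ring,
    td_cos, show 2 * (Real.pi * s) = 2 * Real.pi * s by ring]

lemma ep0_per (x : Euc 6) (k : Fin 6 → ℤ) : ep0 K L dl (x + zvec k) = ep0 K L dl x := by
  unfold ep0
  rw [PiLp.add_apply, PiLp.add_apply, zvec_apply, zvec_apply, td_sin2, td_sin]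

private lemma td_abs (hdl : 0 ≤ dl) {a s : ℝ} (h0 : 0 ≤ a) (h1 : a ≤ 1) (hs : |s| ≤ 1) :
    |dl * (a * s)| ≤ dl := by
  rw [abs_mul, abs_mul, abs_of_nonneg hdl, abs_of_nonneg h0]
  have h2 : a * |s| ≤ 1 := mul_le_one₀ h1 (abs_nonneg _) hs
  calc dl * (a * |s|) ≤ dl * 1 := mul_le_mul_of_nonneg_left h2 hdl
    _ = dl := mul_one _

lemma ep0_abs (hdl : 0 ≤ dl) (x : Euc 6) : |ep0 K L dl x| ≤ dl :=
  td_abs hdl (amp_nonneg _ _) (amp_le_one _ _) (Real.abs_sin_le_one _)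
lemma EE_abs (hdl : 0 ≤ dl) (x : Euc 6) : |EE K L dl x| ≤ dl :=
  td_abs hdl (amp_nonneg _ _) (amp_le_one _ _) (Real.abs_sin_le_one _)

private lemma td_rep {Y : Type*} (h : Euc 6 → Y) (hper : ∀ x k, h (x + zvec k) = h x)
    (x : Euc 6) : h (rep (proj x)) = h x := by
  obtain ⟨k, hk⟩ := rep_proj x
  rw [hk, hper]

private lemma td_gper (x : Euc 6) (k : Fin 6 → ℤ) :
    gam (al ν) (ep0 K L dl (x + zvec k)) ((x + zvec k) 4) = gam (al ν) (ep0 K L dl x) (x 4) := by
  rw [ep0_per]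
  unfold gam
  rw [PiLp.add_apply, zvec_apply, td_cos]

private lemma td_cper (x : Euc 6) (k : Fin 6 → ℤ) : c0 K L dl (x + zvec k) = c0 K L dl x := by
  unfold c0
  rw [ep0_per, PiLp.add_apply, zvec_apply, td_cos]

lemma gT_proj (x : Euc 6) : gT ν K L dl (proj x) = gam (al ν) (ep0 K L dl x) (x 4) :=
  td_rep (fun x => gam (al ν) (ep0 K L dl x) (x 4)) (fun x k => td_gper x k) x
lemma pT_proj (x : Euc 6) : pT ν K L dl (proj x) = Ph (al ν) (ep0 K L dl x) :=
  td_rep (fun x => Ph (al ν) (ep0 K L dl x)) (fun x k => by rw [ep0_per]) x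
lemma RT_proj (x : Euc 6) : RT ν K L dl (proj x) = Ph (al ν) (EE K L dl x) :=
  td_rep (fun x => Ph (al ν) (EE K L dl x)) (fun x k => by rw [EE_per]) x
lemma lT_proj (x : Euc 6) : lT ν K L dl (proj x) = Real.log (1 + al ν * c0 K L dl x) :=
  td_rep (fun x => Real.log (1 + al ν * c0 K L dl x)) (fun x k => by rw [td_cper]) x

private lemma td_coord (i : Fin 6) : Continuous fun x : Euc 6 => x i := by fun_prop

lemma ep0_cont : Continuous (ep0 K L dl) := by
  have h1 : Continuous fun x : Euc 6 => amp (rr L) (Real.sin (Real.pi * x 0) ^ 2) :=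
    amp_contDiff.continuous.comp (continuous_const.prodMk
      ((Real.continuous_sin.comp (continuous_const.mul (td_coord 0))).pow 2))
  exact continuous_const.mul (h1.mul
    (Real.continuous_sin.comp (continuous_const.mul (td_coord 2))))

private lemma td_c0_cont : Continuous (c0 K L dl) :=
  ep0_cont.mul (Real.continuous_cos.comp (continuous_const.mul (td_coord 4)))

private lemma td_pos (hν : 0 ≤ ν) (h0 : 0 ≤ dl) (h1 : dl ≤ 1 / 10) (x : Euc 6) :
    0 < 1 + al ν * c0 K L dl x := by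
  have h2 : |c0 K L dl x| ≤ dl := by
    unfold c0
    rw [abs_mul]
    calc |ep0 K L dl x| * |Real.cos (2 * Real.pi * x 4)| ≤ dl * 1 :=
          mul_le_mul (ep0_abs h0 x) (Real.abs_cos_le_one _) (abs_nonneg _) h0
      _ = dl := mul_one _
  have h3 : |al ν * c0 K L dl x| ≤ 1 / 2 * dl := by
    rw [abs_mul, abs_of_nonneg (al_nonneg hν)]
    exact mul_le_mul (al_le ν) h2 (abs_nonneg _) (by norm_num)
  have h4 := neg_abs_le (al ν * c0 K L dl x)
  linarith

private lemma td_descend {h : Euc 6 → ℝ} (hc : Continuous h)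
    (hper : ∀ x k, h (x + zvec k) = h x) : Continuous fun θ : Torus 6 => h (rep θ) :=
  (descend h hc hper).continuous

lemma gT_cont (hν : 0 ≤ ν) (h0 : 0 ≤ dl) (h1 : dl ≤ 1 / 10) : Continuous (gT ν K L dl) := by
  refine td_descend (h := fun x => gam (al ν) (ep0 K L dl x) (x 4)) ?_ fun x k => td_gper x k
  unfold gam
  refine Continuous.div td_c0_cont (continuous_const.add (continuous_const.mul td_c0_cont)) ?_
  intro x
  exact (td_pos hν h0 h1 x).ne'
lemma pT_cont (hν : 0 ≤ ν) (h0 : 0 ≤ dl) (h1 : dl ≤ 1 / 10) : Continuous (pT ν K L dl) := by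
  refine td_descend (h := fun x => Ph (al ν) (ep0 K L dl x)) ?_ fun x k => by rw [ep0_per]
  refine (Ph_cont (al_nonneg hν) (al_le ν)).comp_continuous ep0_cont fun x => ?_
  have h2 := abs_le.1 (ep0_abs (K := K) (L := L) h0 x)
  exact ⟨by linarith [h2.1], h2.2.trans h1⟩
lemma lT_cont (hν : 0 ≤ ν) (h0 : 0 ≤ dl) (h1 : dl ≤ 1 / 10) : Continuous (lT ν K L dl) := by
  refine td_descend (h := fun x => Real.log (1 + al ν * c0 K L dl x)) ?_ fun x k => by
    rw [td_cper]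
  exact Continuous.log (continuous_const.add (continuous_const.mul td_c0_cont))
    fun x => (td_pos hν h0 h1 x).ne'

/-- iterates of the map of the torus -/
lemma f_iter (E : WD ν n K L dl t) (x : Euc 6) (k : ℕ) :
    E.D.f^[k] (proj x) = proj ((FL n K L dl t)^[k] x) := by
  induction k with
  | zero => rfl
  | succ k ih =>
    rw [Function.iterate_succ_apply', Function.iterate_succ_apply', ih, E.D.f_proj, E.F_eq]

lemma RT_cont (E : WD ν n K L dl t) (hL : 1 ≤ L) : Continuous (RT ν K L dl) := by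
  have h1 : ∀ θ, RT ν K L dl (E.D.f^[16 * L] θ) = pT ν K L dl θ := by
    intro θ
    obtain ⟨x, rfl⟩ := proj_surjective θ
    rw [f_iter, RT_proj, pT_proj, ep0_eq (n := n) (t := t) hL x]
  have h2 : RT ν K L dl = fun θ => pT ν K L dl ((E.D.f.symm)^[16 * L] θ) := by
    funext θ
    rw [← h1]
    congr 1
    have h3 : Function.LeftInverse (E.D.f)^[16 * L] (E.D.f.symm)^[16 * L] :=
      Function.LeftInverse.iterate (fun x => E.D.f.apply_symm_apply x) _
    exact (h3 θ).symm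
  rw [h2]
  exact (pT_cont (zero_le_one.trans E.hν1) E.hdl.le E.hdl2).comp
    (E.D.f.symm.continuous.iterate _)

/-- the shift on the torus -/
lemma sht_proj (x : Euc 6) : torusMap (sht L t) (proj x) = proj (sht L t x) := by
  obtain ⟨k, hk⟩ := rep_proj x
  unfold Pool.Agent.H14.Lyap.torusMap
  rw [hk]
  have h : sht L t (x + zvec k) = sht L t x + zvec k := by
    have h0 : sh (rr L) t ((x + zvec k) 0) = sh (rr L) t (x 0) := by
      unfold sh
      rw [PiLp.add_apply, zvec_apply, td_cos2]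
    unfold sht
    rw [h0]
    apply ext6 <;> simp [PiLp.add_apply] <;> ring
  rw [h, proj_add_zvec]

end

end Pool.Agent.H20.VL
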