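import Pool.Agent.H20.VL.TDefs

/-!
# Module URel: the equations of the strong direction (about 120 lines)

`S = E.D.S`, `z = proj x`, `e = u(z) ep + ew` (`epv`, `ewv`), `c = c0 x = ep0 x cos(2π x 4)`. By `Lift.ηp_proj`, `ηp z = dl • fderiv (xi K (rr L)) x`, `ηw z = dl • fderiv (ν xi) x`. `e` has only the coordinates `4`, `5`, so
`fderiv (xi K r) x e = (e 4) amp(..) sin(2πK x 2) cos(2π x 4)` (derivative of `s ↦ xi (x + s e)` at `0`, `sin(2π(x 4 + s e 4))/(2π)`), `e 4 = (ν u - 1)/(ν²+1) = al u - be`. So `ηp z e = c (al u - be)`, `ηw z e = ν c (al u - be)`.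
With `μ = ν²`, `u' = u(f z)`, `f z = proj (FL x)`, `S.hue`: `μ⁻¹ (1 + ν c (al u - be)) u' = μ (u + c (al u - be))`; put `U = μ⁻² u'`: `U (1 + ga c u - al c) = u (1 + al c) - be c` (`ν al = ga`, `ν be = al`): first claim. `m = μ⁻¹ (1 + ν c (al u - be))`, i.e. `μ m = 1 + ga c u - al c`;
multiply by `D = 1 + al c - ga c U`: `(1 - al c) D + ga c (u D) = (1 - al c)(1 + al c) - (1 - al c) ga c U + ga c (U (1 - al c) + be c) = 1 - al² c² + ga be c² = 1` (`ga be = al²`).
-/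

set_option autoImplicit false

open MeasureTheory Set Filter Topology ContDiff
open Pool.Agent.H14.Lyap

namespace Pool.Agent.H20.VL

variable {ν : ℝ} {n K L : ℕ} {dl t : ℝ}

private lemma fderiv_xi {K : ℕ} {r : ℝ} (hd : Differentiable ℝ (xi K r)) (x e : Euc 6)
    (h0 : e 0 = 0) (h2 : e 2 = 0) :
    fderiv ℝ (xi K r) x e = amp r (Real.sin (Real.pi * x 0) ^ 2) *
      Real.sin (2 * Real.pi * K * x 2) * Real.cos (2 * Real.pi * x 4) * e 4 := by
  have h1 : HasDerivAt (fun s : ℝ => xi K r (x + s • e)) (fderiv ℝ (xi K r) x e) 0 := by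
    have hl : HasDerivAt (fun s : ℝ => x + s • e) e 0 := by
      simpa using ((hasDerivAt_id (0 : ℝ)).smul_const e).const_add x
    have hf : HasFDerivAt (xi K r) (fderiv ℝ (xi K r) x) (x + (0 : ℝ) • e) := by
      rw [zero_smul, add_zero]
      exact (hd x).hasFDerivAt
    exact hf.comp_hasDerivAt 0 hl
  have h3 : (fun s : ℝ => xi K r (x + s • e)) = fun s =>
      amp r (Real.sin (Real.pi * x 0) ^ 2) * Real.sin (2 * Real.pi * K * x 2) *
      Real.sin (2 * Real.pi * (x 4 + s * e 4)) / (2 * Real.pi) := by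
    funext s
    unfold xi
    have a0 : (x + s • e) 0 = x 0 := by
      show x 0 + s * e 0 = x 0
      rw [h0, mul_zero, add_zero]
    have a2 : (x + s • e) 2 = x 2 := by
      show x 2 + s * e 2 = x 2
      rw [h2, mul_zero, add_zero]
    have a4 : (x + s • e) 4 = x 4 + s * e 4 := rfl
    rw [a0, a2, a4]
  have h4 : HasDerivAt (fun s : ℝ =>
      amp r (Real.sin (Real.pi * x 0) ^ 2) * Real.sin (2 * Real.pi * K * x 2) *
      Real.sin (2 * Real.pi * (x 4 + s * e 4)) / (2 * Real.pi))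
      (amp r (Real.sin (Real.pi * x 0) ^ 2) * Real.sin (2 * Real.pi * K * x 2) *
        Real.cos (2 * Real.pi * x 4) * e 4) 0 := by
    have g1 : HasDerivAt (fun s : ℝ => 2 * Real.pi * (x 4 + s * e 4)) (2 * Real.pi * e 4) 0 := by
      have := (((hasDerivAt_id (0 : ℝ)).mul_const (e 4)).const_add (x 4)).const_mul (2 * Real.pi)
      simpa using this
    have g2 := (g1.sin.const_mul (amp r (Real.sin (Real.pi * x 0) ^ 2) *
      Real.sin (2 * Real.pi * K * x 2))).div_const (2 * Real.pi)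
    have hpi : (2 * Real.pi : ℝ) ≠ 0 := by positivity
    refine g2.congr_deriv ?_
    rw [zero_mul, add_zero]
    field_simp
  rw [h3] at h1
  exact h1.unique h4

theorem rel (E : WD ν n K L dl t) (x : Euc 6) :
    E.D.S.u (proj x) * (1 + al ν * c0 K L dl x -
        ga ν * (c0 K L dl x * (((ν ^ 2)⁻¹) ^ 2 * E.D.S.u (proj (FL n K L dl t x))))) =
      ((ν ^ 2)⁻¹) ^ 2 * E.D.S.u (proj (FL n K L dl t x)) * (1 - al ν * c0 K L dl x) + be ν * c0 K L dl x ∧
    ν ^ 2 * E.D.S.m (proj x) * (1 + al ν * c0 K L dl x -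
        ga ν * (c0 K L dl x * (((ν ^ 2)⁻¹) ^ 2 * E.D.S.u (proj (FL n K L dl t x))))) = 1 := by
  have hd : Differentiable ℝ (xi K (rr L)) := by
    have := E.D.hξp.differentiable (by simp)
    rw [E.ξp_eq] at this
    exact this
  set u : ℝ := E.D.S.u (proj x) with hu
  set u' : ℝ := E.D.S.u (proj (FL n K L dl t x)) with hu'
  set e : Euc 6 := u • epv ν + ewv ν with he
  have e0 : e 0 = 0 := by
    show u * 0 + 0 = (0 : ℝ)
    ring
  have e2 : e 2 = 0 := by
    show u * 0 + 0 = (0 : ℝ)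
    ring
  have e4 : e 4 = al ν * u - be ν := by
    show u * (ν / (ν ^ 2 + 1)) + -1 / (ν ^ 2 + 1) = al ν * u - be ν
    unfold al be
    ring
  set c : ℝ := c0 K L dl x with hc
  have hx := fderiv_xi hd x e e0 e2
  have hηp : E.D.ηp (proj x) e = c * (al ν * u - be ν) := by
    rw [E.D.ηp_proj, E.dl_eq, E.ξp_eq]
    show dl * fderiv ℝ (xi K (rr L)) x e = _
    rw [hx, e4, hc]
    unfold c0 ep0
    ring
  have hηw : E.D.ηw (proj x) e = ν * (c * (al ν * u - be ν)) := by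
    rw [E.D.ηw_proj, E.dl_eq, E.ξw_eq]
    show dl * fderiv ℝ (fun x => ν * xi K (rr L) x) x e = _
    have h1 : fderiv ℝ (fun x => ν * xi K (rr L) x) x = ν • fderiv ℝ (xi K (rr L)) x :=
      fderiv_const_mul (hd x) ν
    rw [h1]
    show dl * (ν * fderiv ℝ (xi K (rr L)) x e) = _
    rw [hx, e4, hc]
    unfold c0 ep0
    ring
  have heS : (E.D.S.u (proj x)) • E.D.ep + E.D.ew = e := by
    rw [E.ep_eq, E.ew_eq]
  have hue : E.D.μ⁻¹ * (1 + E.D.ηw (proj x) ((E.D.S.u (proj x)) • E.D.ep + E.D.ew)) *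
      E.D.S.u (E.D.f (proj x)) =
      E.D.μ * (E.D.S.u (proj x) + E.D.ηp (proj x) ((E.D.S.u (proj x)) • E.D.ep + E.D.ew)) :=
    E.D.S.hue (proj x)
  have hm : E.D.S.m (proj x) =
      E.D.μ⁻¹ * (1 + E.D.ηw (proj x) ((E.D.S.u (proj x)) • E.D.ep + E.D.ew)) := rfl
  have hf : E.D.f (proj x) = proj (FL n K L dl t x) := by
    rw [E.D.f_proj, E.F_eq]
  rw [heS, hf, hηw, hηp, E.μ_eq, ← hu, ← hu'] at hue
  rw [heS, hηw, E.μ_eq] at hm
  have hν : (0 : ℝ) < ν := by linarith [E.hν1]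
  have hν2 : (ν ^ 2 : ℝ) ≠ 0 := by positivity
  have h1 : ν * al ν = ga ν := by unfold al ga; ring
  have h2 : ν * be ν = al ν := by unfold al be; ring
  have h3 : ga ν * be ν = al ν ^ 2 := by
    unfold ga be al
    have : (ν ^ 2 + 1 : ℝ) ≠ 0 := by positivity
    field_simp
  set U : ℝ := ((ν ^ 2)⁻¹) ^ 2 * u' with hU
  have hk : (1 + ν * (c * (al ν * u - be ν))) * U = u + c * (al ν * u - be ν) := by
    have h5 : (1 + ν * (c * (al ν * u - be ν))) * U =
        (ν ^ 2)⁻¹ * ((ν ^ 2)⁻¹ * (1 + ν * (c * (al ν * u - be ν))) * u') := by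
      rw [hU]; ring
    rw [h5, hue, ← mul_assoc, inv_mul_cancel₀ hν2, one_mul]
  have hk2 : ν * (c * (al ν * u - be ν)) = ga ν * c * u - al ν * c := by
    rw [← h1]
    nth_rewrite 3 [← h2]
    ring
  have hfirst : u * (1 + al ν * c - ga ν * (c * U)) = U * (1 - al ν * c) + be ν * c := by
    rw [hk2] at hk
    linarith
  refine ⟨hfirst, ?_⟩
  have hm2 : ν ^ 2 * E.D.S.m (proj x) = 1 + ga ν * c * u - al ν * c := by
    rw [hm, ← mul_assoc, mul_inv_cancel₀ hν2, one_mul, hk2]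
    ring
  rw [hm2]
  have h6 : (1 + ga ν * c * u - al ν * c) * (1 + al ν * c - ga ν * (c * U)) =
      (1 - al ν * c) * (1 + al ν * c - ga ν * (c * U)) +
      ga ν * c * (u * (1 + al ν * c - ga ν * (c * U))) := by ring
  rw [h6, hfirst]
  have h7 : (1 - al ν * c) * (1 + al ν * c - ga ν * (c * U)) +
      ga ν * c * (U * (1 - al ν * c) + be ν * c) = 1 - al ν ^ 2 * c ^ 2 + ga ν * be ν * c ^ 2 := by
    ring
  rw [h7, h3]
  ring

end Pool.Agent.H20.VL
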